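import Mathlib

/-!
Valued fields with residue field of two elements, and the quartet relation on the projective line.
-/

set_option autoImplicit false

namespace Pool.Agent.J4.H12.Boron

/-- A field of characteristic two with a valuation with values in `ℚ` and residue field of two
elements, and with bijections scaling the valuation. -/
structure VF (K : Type) [Field K] where
  v : K → ℚ
  v_mul : ∀ x y, x ≠ 0 → y ≠ 0 → v (x * y) = v x + v y
  v_lt : ∀ x y, x ≠ 0 → y ≠ 0 → v x < v y → v (x + y) = v x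
  v_eq : ∀ x y, x ≠ 0 → y ≠ 0 → x + y ≠ 0 → v x = v y → v x < v (x + y)
  two : ∀ x : K, x + x = 0
  t : K
  t_ne : t ≠ 0
  vt : v t = 1
  sc : ∀ c : ℚ, 0 < c → ∃ σ : K ≃ K, σ 0 = 0 ∧ ∀ x y, x ≠ y → v (σ x + σ y) = c * v (x + y)

variable {K : Type} [Field K] (V : VF K)

namespace VF

include V

theorem add_ne {x y : K} (h : x ≠ y) : x + y ≠ 0 := by
  intro h1
  apply h
  have := V.two y
  exact add_right_cancel (h1.trans this.symm)

theorem ne_of_add {x y : K} (h : x + y ≠ 0) : x ≠ y := by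
  rintro rfl
  exact h (V.two x)

theorem tri {x y : K} (hx : x ≠ 0) (hy : y ≠ 0) (hxy : x + y ≠ 0) :
    (V.v x < V.v y ∧ V.v (x + y) = V.v x) ∨ (V.v y < V.v x ∧ V.v (x + y) = V.v y) ∨
      (V.v x = V.v y ∧ V.v x < V.v (x + y)) := by
  rcases lt_trichotomy (V.v x) (V.v y) with h | h | h
  · exact Or.inl ⟨h, V.v_lt x y hx hy h⟩
  · exact Or.inr (Or.inr ⟨h, V.v_eq x y hx hy hxy h⟩)
  · refine Or.inr (Or.inl ⟨h, ?_⟩)
    rw [add_comm]
    exact V.v_lt y x hy hx h

theorem v_one : V.v 1 = 0 := by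
  have := V.v_mul 1 1 one_ne_zero one_ne_zero
  rw [mul_one] at this
  linarith

theorem v_inv {x : K} (hx : x ≠ 0) : V.v x⁻¹ = - V.v x := by
  have := V.v_mul x x⁻¹ hx (inv_ne_zero hx)
  rw [mul_inv_cancel₀ hx, V.v_one] at this
  linarith

theorem add_cancel (x y : K) : x + y + y = x := by
  rw [add_assoc, V.two, add_zero]

/-- the triple relation for three distinct points -/
theorem tri3 {a b c : K} (hab : a ≠ b) (hac : a ≠ c) (hbc : b ≠ c) :
    (V.v (a + b) < V.v (b + c) ∧ V.v (a + c) = V.v (a + b)) ∨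
    (V.v (b + c) < V.v (a + b) ∧ V.v (a + c) = V.v (b + c)) ∨
      (V.v (a + b) = V.v (b + c) ∧ V.v (a + b) < V.v (a + c)) := by
  have e : a + c = (a + b) + (b + c) := by
    have : (a + b) + (b + c) = a + (b + b) + c := by ring
    rw [this, V.two, add_zero]
  have := V.tri (V.add_ne hab) (V.add_ne hbc) (by rw [← e]; exact V.add_ne hac)
  rw [e]
  exact this

theorem quad {a b c d : K} (hab : a ≠ b) (hac : a ≠ c) (had : a ≠ d) (hbc : b ≠ c) (hbd : b ≠ d)
    (hcd : c ≠ d) :
    V.v ((a + c) * (b + d)) < V.v ((a + b) * (c + d)) ↔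
      ((V.v (a + c) < V.v (a + b) ∧ V.v (a + d) < V.v (a + b)) ∨
        (V.v (a + c) < V.v (c + d) ∧ V.v (b + c) < V.v (c + d))) := by
  rw [V.v_mul _ _ (V.add_ne hac) (V.add_ne hbd), V.v_mul _ _ (V.add_ne hab) (V.add_ne hcd)]
  have h1 := V.tri3 hab hac hbc
  have h2 := V.tri3 hab had hbd
  have h3 := V.tri3 hac had hcd
  have h4 := V.tri3 hbc hbd hcd
  generalize V.v (a + b) = p at *
  generalize V.v (a + c) = q at *
  generalize V.v (a + d) = r at *
  generalize V.v (b + c) = s at *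
  generalize V.v (b + d) = u at *
  generalize V.v (c + d) = w at *
  constructor
  · intro h
    rcases h1 with ⟨h1, h1'⟩ | ⟨h1, h1'⟩ | ⟨h1, h1'⟩ <;>
    rcases h2 with ⟨h2, h2'⟩ | ⟨h2, h2'⟩ | ⟨h2, h2'⟩ <;>
    rcases h3 with ⟨h3, h3'⟩ | ⟨h3, h3'⟩ | ⟨h3, h3'⟩ <;>
    rcases h4 with ⟨h4, h4'⟩ | ⟨h4, h4'⟩ | ⟨h4, h4'⟩ <;>
    first
    | (exfalso; linarith)
    | (left; constructor <;> linarith)
    | (right; constructor <;> linarith)
  · rintro (⟨h, h'⟩ | ⟨h, h'⟩) <;>
    rcases h1 with ⟨h1, h1'⟩ | ⟨h1, h1'⟩ | ⟨h1, h1'⟩ <;>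
    rcases h2 with ⟨h2, h2'⟩ | ⟨h2, h2'⟩ | ⟨h2, h2'⟩ <;>
    rcases h3 with ⟨h3, h3'⟩ | ⟨h3, h3'⟩ | ⟨h3, h3'⟩ <;>
    rcases h4 with ⟨h4, h4'⟩ | ⟨h4, h4'⟩ | ⟨h4, h4'⟩ <;>
    linarith

end VF

/-- the determinant on the projective line -/
def dt : Option K → Option K → K
  | none, none => 0
  | none, some _ => 1
  | some _, none => 1
  | some x, some y => x + y

/-- The quartet relation `a b | c d` for four distinct points. -/
def D (a b c d : Option K) : Prop :=
  (a ≠ b ∧ a ≠ c ∧ a ≠ d ∧ b ≠ c ∧ b ≠ d ∧ c ≠ d) ∧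
    V.v (dt a c * dt b d) < V.v (dt a b * dt c d)

/-- The group of all permutations preserving the quartet relation. -/
def G : Subgroup (Equiv.Perm (Option K)) where
  carrier := {g | ∀ a b c d, D V a b c d ↔ D V (g a) (g b) (g c) (g d)}
  mul_mem' := by
    intro g h hg hh a b c d
    rw [hh a b c d, hg]
    rfl
  one_mem' := fun a b c d => Iff.rfl
  inv_mem' := by
    intro g hg a b c d
    have := hg (g⁻¹ a) (g⁻¹ b) (g⁻¹ c) (g⁻¹ d)
    simp only [Equiv.Perm.coe_inv, Equiv.apply_symm_apply] at this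
    exact this.symm

include V in
theorem dt_ne {a b : Option K} (h : a ≠ b) : dt a b ≠ 0 := by
  rcases a with _ | x <;> rcases b with _ | y
  · exact absurd rfl h
  · exact one_ne_zero
  · exact one_ne_zero
  · exact V.add_ne (fun e => h (by rw [e]))

theorem dt_comm (a b : Option K) : dt a b = dt b a := by
  rcases a with _ | x <;> rcases b with _ | y <;> simp [dt, add_comm]

include V in
theorem plucker (a b c d : Option K) :
    dt a b * dt c d + dt a c * dt b d + dt a d * dt b c = 0 := by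
  have h2 : (2 : K) = 0 := by
    have := V.two 1
    rwa [one_add_one_eq_two] at this
  rcases a with _ | a <;> rcases b with _ | b <;> rcases c with _ | c <;> rcases d with _ | d <;>
    simp only [dt] <;> ring_nf <;> simp [h2]

/-- exactly one of the three relations holds -/
theorem D_tri {a b c d : Option K} (h : a ≠ b ∧ a ≠ c ∧ a ≠ d ∧ b ≠ c ∧ b ≠ d ∧ c ≠ d) :
    D V a b c d ∨ D V a c b d ∨ D V a d b c := by
  obtain ⟨hab, hac, had, hbc, hbd, hcd⟩ := h
  have hp := plucker V a b c d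
  have e : dt a d * dt b c = dt a b * dt c d + dt a c * dt b d := by
    have := V.two (dt a d * dt b c)
    exact (add_right_cancel (hp.trans this.symm)).symm
  have h1 : dt a b * dt c d ≠ 0 := mul_ne_zero (dt_ne V hab) (dt_ne V hcd)
  have h2 : dt a c * dt b d ≠ 0 := mul_ne_zero (dt_ne V hac) (dt_ne V hbd)
  have h3 : dt a d * dt b c ≠ 0 := mul_ne_zero (dt_ne V had) (dt_ne V hbc)
  rcases V.tri h1 h2 (by rw [← e]; exact h3) with h | h | h
  · right; left
    exact ⟨⟨hac, hab, had, hbc.symm, hcd, hbd⟩, h.1⟩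
  · left
    exact ⟨⟨hab, hac, had, hbc, hbd, hcd⟩, h.1⟩
  · right; right
    refine ⟨⟨had, hab, hac, hbd.symm, hcd.symm, hbc⟩, ?_⟩
    rw [e, dt_comm d c]
    exact h.2

theorem D_asymm {a b c d : Option K} (h : D V a b c d) : ¬ D V a c b d :=
  fun h' => lt_asymm h.2 h'.2

theorem mem_G_of_dt (g : Equiv.Perm (Option K)) (μ : Option K → K) (κ : K) (hκ : κ ≠ 0)
    (hμ : ∀ a, μ a ≠ 0) (h : ∀ a b, dt (g a) (g b) = κ * (μ a * μ b) * dt a b) : g ∈ G V := by
  intro a b c d
  have key : ∀ a b c d : Option K, a ≠ b → c ≠ d → V.v (dt (g a) (g b) * dt (g c) (g d)) =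
      V.v (dt a b * dt c d) + V.v ((κ * κ) * (μ a * μ b * μ c * μ d)) := by
    intro a b c d hab hcd
    rw [← V.v_mul _ _ (mul_ne_zero (dt_ne V hab) (dt_ne V hcd))
      (mul_ne_zero (mul_ne_zero hκ hκ) (mul_ne_zero (mul_ne_zero (mul_ne_zero (hμ a) (hμ b)) (hμ c))
        (hμ d))), h, h]
    congr 1
    ring
  constructor
  · rintro ⟨⟨hab, hac, had, hbc, hbd, hcd⟩, hlt⟩
    refine ⟨⟨g.injective.ne hab, g.injective.ne hac, g.injective.ne had, g.injective.ne hbc,
      g.injective.ne hbd, g.injective.ne hcd⟩, ?_⟩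
    rw [key a c b d hac hbd, key a b c d hab hcd]
    have : μ a * μ c * μ b * μ d = μ a * μ b * μ c * μ d := by ring
    rw [this]
    linarith
  · rintro ⟨⟨hab, hac, had, hbc, hbd, hcd⟩, hlt⟩
    have hab := fun e => hab (congrArg g e)
    have hac := fun e => hac (congrArg g e)
    have had := fun e => had (congrArg g e)
    have hbc := fun e => hbc (congrArg g e)
    have hbd := fun e => hbd (congrArg g e)
    have hcd := fun e => hcd (congrArg g e)
    refine ⟨⟨hab, hac, had, hbc, hbd, hcd⟩, ?_⟩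
    rw [key a c b d hac hbd, key a b c d hab hcd] at hlt
    have : μ a * μ c * μ b * μ d = μ a * μ b * μ c * μ d := by ring
    rw [this] at hlt
    linarith

/-- a bijection of `K` preserving the relation `y, z` are closer to each other than to `x` -/
theorem mem_G_of_C (h : K ≃ K) (hC : ∀ x y z : K, x ≠ y → x ≠ z → y ≠ z →
    (V.v (x + z) < V.v (y + z) ↔ V.v (h x + h z) < V.v (h y + h z))) :
    (h.optionCongr : Equiv.Perm (Option K)) ∈ G V := by
  have hs : ∀ x y z : K, x ≠ y → x ≠ z → y ≠ z →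
    (V.v (x + y) < V.v (y + z) ↔ V.v (h x + h y) < V.v (h y + h z)) := by
    intro x y z h1 h2 h3
    have := hC x z y h2 h1 h3.symm
    rwa [add_comm z y, add_comm (h z) (h y)] at this
  intro a b c d
  have hne : ∀ a b : Option K, a ≠ b ↔ h.optionCongr a ≠ h.optionCongr b := fun a b =>
    (h.optionCongr.injective.ne_iff).symm
  unfold D
  rw [← hne a b, ← hne a c, ← hne a d, ← hne b c, ← hne b d, ← hne c d]
  refine and_congr_right ?_
  rintro ⟨hab, hac, had, hbc, hbd, hcd⟩
  rcases a with _ | a <;> rcases b with _ | b <;> rcases c with _ | c <;> rcases d with _ | d <;>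
    simp only [ne_eq, not_true_eq_false, Option.some.injEq, reduceCtorEq, not_false_eq_true] at * <;>
    simp only [Equiv.optionCongr_apply, Option.map_none, Option.map_some, dt, one_mul, mul_one]
  · exact hC b c d hbc hbd hcd
  · exact hs a c d hac had hcd
  · have := hC d a b (Ne.symm had) (Ne.symm hbd) hab
    rwa [add_comm d b, add_comm (h d) (h b)] at this
  · have := hC c b a (Ne.symm hbc) (Ne.symm hac) (Ne.symm hab)
    rwa [add_comm c a, add_comm (h c) (h a), add_comm b a, add_comm (h b) (h a)] at this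
  · rw [V.quad hab hac had hbc hbd hcd, V.quad (h.injective.ne hab) (h.injective.ne hac)
      (h.injective.ne had) (h.injective.ne hbc) (h.injective.ne hbd) (h.injective.ne hcd)]
    have e1 := hC c b a (Ne.symm hbc) (Ne.symm hac) (Ne.symm hab)
    have e2 := hC d b a (Ne.symm hbd) (Ne.symm had) (Ne.symm hab)
    have e3 := hs a c d hac had hcd
    have e4 := hs b c d hbc hbd hcd
    rw [add_comm c a, add_comm (h c) (h a), add_comm b a, add_comm (h b) (h a)] at e1
    rw [add_comm d a, add_comm (h d) (h a), add_comm b a, add_comm (h b) (h a)] at e2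
    rw [e1, e2, e3, e4]

end Pool.Agent.J4.H12.Boron
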