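import Mathlib
import Pool.Agent.J4.H12.Boron1

/-!
Elements of the group preserving the quartet relation; 3-transitivity and 5-homogeneity.
-/

set_option autoImplicit false

namespace Pool.Agent.J4.H12.Boron

variable {K : Type} [Field K] (V : VF K)

include V

/-- translation -/
def T (a : K) : Equiv.Perm (Option K) where
  toFun := Option.map (fun x => x + a)
  invFun := Option.map (fun x => x + a)
  left_inv := by
    intro x
    rcases x with _ | x
    · rfl
    · simp only [Option.map_some, V.add_cancel]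
  right_inv := by
    intro x
    rcases x with _ | x
    · rfl
    · simp only [Option.map_some, V.add_cancel]

theorem T_none (a : K) : T V a none = none := rfl

theorem T_some (a x : K) : T V a (some x) = some (x + a) := rfl

theorem T_mem (a : K) : T V a ∈ G V := by
  refine mem_G_of_dt V (T V a) (fun _ => 1) 1 one_ne_zero (fun _ => one_ne_zero) ?_
  intro x y
  rcases x with _ | x <;> rcases y with _ | y <;> simp only [T_none, T_some, dt, one_mul]
  have : x + a + (y + a) = x + y + (a + a) := by ring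
  rw [this, V.two, add_zero]

omit V in
/-- multiplication -/
def M (u : K) (hu : u ≠ 0) : Equiv.Perm (Option K) := (Equiv.mulRight₀ u hu).optionCongr

omit V in
theorem M_none (u : K) (hu : u ≠ 0) : M u hu none = none := rfl

omit V in
theorem M_some (u : K) (hu : u ≠ 0) (x : K) : M u hu (some x) = some (x * u) := rfl

theorem M_mem (u : K) (hu : u ≠ 0) : M u hu ∈ G V := by
  refine mem_G_of_dt V (M u hu) (fun x => x.elim u⁻¹ (fun _ => 1)) u hu ?_ ?_
  · intro x
    rcases x with _ | x
    · exact inv_ne_zero hu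
    · exact one_ne_zero
  intro x y
  rcases x with _ | x <;> rcases y with _ | y <;>
    simp only [M_none, M_some, dt, one_mul, mul_one, mul_zero, Option.elim]
  · rw [mul_inv_cancel₀ hu]
  · rw [mul_inv_cancel₀ hu]
  · ring

omit V in
open Classical in
/-- inversion, as a function -/
noncomputable def invFn : Option K → Option K
  | none => some 0
  | some x => if x = 0 then none else some x⁻¹

omit V in
theorem invFn_invFn (x : Option K) : invFn (invFn x) = x := by
  rcases x with _ | x
  · simp [invFn]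
  · by_cases hx : x = 0
    · simp [invFn, hx]
    · simp [invFn, hx]

omit V in
/-- inversion -/
noncomputable def I : Equiv.Perm (Option K) where
  toFun := invFn
  invFun := invFn
  left_inv := invFn_invFn
  right_inv := invFn_invFn

omit V in
theorem I_none : I (none : Option K) = some 0 := rfl

omit V in
theorem I_zero : I (some 0 : Option K) = none := by
  show invFn (some 0) = none
  simp [invFn]

omit V in
theorem I_some {x : K} (hx : x ≠ 0) : I (some x) = some x⁻¹ := by
  show invFn (some x) = _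
  simp [invFn, hx]

theorem I_mem : (I : Equiv.Perm (Option K)) ∈ G V := by
  classical
  refine mem_G_of_dt V I (fun x => x.elim 1 (fun y => if y = 0 then 1 else y⁻¹)) 1 one_ne_zero
    ?_ ?_
  · intro x
    rcases x with _ | x
    · exact one_ne_zero
    · by_cases hx : x = 0
      · simp [hx]
      · simp [hx]
  intro x y
  rcases x with _ | x <;> rcases y with _ | y
  · simp [I_none, dt, V.two]
  · by_cases hy : y = 0
    · subst hy
      simp [I_none, I_zero, dt]
    · simp [I_none, I_some hy, dt, hy]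
  · by_cases hx : x = 0
    · subst hx
      simp [I_none, I_zero, dt]
    · simp [I_none, I_some hx, dt, hx]
  · by_cases hx : x = 0 <;> by_cases hy : y = 0
    · subst hx
      subst hy
      simp [I_zero, dt]
    · subst hx
      simp [I_zero, I_some hy, dt, hy]
    · subst hy
      simp [I_zero, I_some hx, dt, hx]
    · simp only [I_some hx, I_some hy, dt, Option.elim, if_neg hx, if_neg hy, one_mul]
      field_simp
      ring

open Classical in
/-- the map `x ↦ x + e` on the ball of `e`, as a function -/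
noncomputable def jFn (e : K) (x : K) : K := if x = 0 ∨ V.v e ≤ V.v x then x + e else x

theorem jFn_mem {e x : K} (he : e ≠ 0) (hx : x = 0 ∨ V.v e ≤ V.v x) :
    x + e = 0 ∨ V.v e ≤ V.v (x + e) := by
  by_cases h : x + e = 0
  · exact Or.inl h
  · right
    rcases hx with rfl | hx
    · rw [zero_add]
    · by_cases hx0 : x = 0
      · rw [hx0, zero_add]
      rcases V.tri hx0 he h with h1 | h1 | h1
      · rw [h1.2]; exact hx
      · rw [h1.2]
      · rw [← h1.1]; exact h1.2.le

theorem jFn_jFn {e : K} (he : e ≠ 0) (x : K) : jFn V e (jFn V e x) = x := by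
  by_cases hx : x = 0 ∨ V.v e ≤ V.v x
  · have h1 : jFn V e x = x + e := by simp only [jFn, if_pos hx]
    rw [h1]
    simp only [jFn, if_pos (jFn_mem V he hx)]
    exact V.add_cancel x e
  · have h1 : jFn V e x = x := by simp only [jFn, if_neg hx]
    rw [h1, h1]

/-- the local translation, on the affine line -/
noncomputable def j (e : K) (he : e ≠ 0) : K ≃ K where
  toFun := jFn V e
  invFun := jFn V e
  left_inv := jFn_jFn V he
  right_inv := jFn_jFn V he

theorem v_add_out {e x y : K} (he : e ≠ 0) (hx : x = 0 ∨ V.v e ≤ V.v x)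
    (hy : ¬ (y = 0 ∨ V.v e ≤ V.v y)) : V.v (x + y) = V.v y := by
  push Not at hy
  rcases hx with rfl | hx
  · rw [zero_add]
  · by_cases hx0 : x = 0
    · rw [hx0, zero_add]
    rw [add_comm]
    exact V.v_lt y x hy.1 hx0 (lt_of_lt_of_le hy.2 hx)

theorem j_isom {e : K} (he : e ≠ 0) (x y : K) : V.v (j V e he x + j V e he y) = V.v (x + y) := by
  show V.v (jFn V e x + jFn V e y) = V.v (x + y)
  by_cases hx : x = 0 ∨ V.v e ≤ V.v x <;> by_cases hy : y = 0 ∨ V.v e ≤ V.v y
  · simp only [jFn, if_pos hx, if_pos hy]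
    have : x + e + (y + e) = x + y + (e + e) := by ring
    rw [this, V.two, add_zero]
  · simp only [jFn, if_pos hx, if_neg hy]
    rw [v_add_out V he (jFn_mem V he hx) hy, v_add_out V he hx hy]
  · simp only [jFn, if_neg hx, if_pos hy]
    rw [add_comm, v_add_out V he (jFn_mem V he hy) hx, add_comm x y, v_add_out V he hy hx]
  · simp only [jFn, if_neg hx, if_neg hy]

/-- the local translation -/
noncomputable def J (e : K) (he : e ≠ 0) : Equiv.Perm (Option K) := (j V e he).optionCongr

theorem J_mem (e : K) (he : e ≠ 0) : J V e he ∈ G V := by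
  refine mem_G_of_C V (j V e he) ?_
  intro x y z _ _ _
  rw [j_isom, j_isom]

theorem J_none (e : K) (he : e ≠ 0) : J V e he none = none := rfl

theorem J_in (e : K) (he : e ≠ 0) {x : K} (hx : x = 0 ∨ V.v e ≤ V.v x) :
    J V e he (some x) = some (x + e) := by
  show some (jFn V e x) = _
  simp only [jFn, if_pos hx]

theorem J_out (e : K) (he : e ≠ 0) {x : K} (hx : ¬ (x = 0 ∨ V.v e ≤ V.v x)) :
    J V e he (some x) = some x := by
  show some (jFn V e x) = _
  simp only [jFn, if_neg hx]

/-- local scaling -/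
theorem exists_scale (c : ℚ) (hc : 0 < c) : ∃ σ : K ≃ K, ∃ g ∈ G V, σ 0 = 0 ∧
    (∀ x y, x ≠ y → V.v (σ x + σ y) = c * V.v (x + y)) ∧ g none = none ∧
    (∀ x : K, (x = 0 ∨ 0 < V.v x) → g (some x) = some (σ x)) ∧
    (∀ x : K, ¬ (x = 0 ∨ 0 < V.v x) → g (some x) = some x) := by
  classical
  obtain ⟨σ, hσ0, hσ⟩ := V.sc c hc
  have hσ0' : ∀ x, σ x = 0 ↔ x = 0 := by
    intro x
    constructor
    · intro h
      exact σ.injective (h.trans hσ0.symm)
    · rintro rfl
      exact hσ0
  have hv : ∀ x : K, x ≠ 0 → V.v (σ x) = c * V.v x := by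
    intro x hx
    have := hσ x 0 hx
    rwa [hσ0, add_zero, add_zero] at this
  have hB : ∀ x : K, (x = 0 ∨ 0 < V.v x) ↔ (σ x = 0 ∨ 0 < V.v (σ x)) := by
    intro x
    by_cases hx : x = 0
    · simp [hx, hσ0]
    · rw [hv x hx, hσ0']
      simp only [hx, false_or]
      exact (mul_pos_iff_of_pos_left hc).symm
  have hB' : ∀ x : K, (x = 0 ∨ 0 < V.v x) ↔ (σ.symm x = 0 ∨ 0 < V.v (σ.symm x)) := by
    intro x
    have := hB (σ.symm x)
    rw [Equiv.apply_symm_apply] at this
    exact this.symm
  let f : K ≃ K :=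
    { toFun := fun x => if (x = 0 ∨ 0 < V.v x) then σ x else x
      invFun := fun x => if (x = 0 ∨ 0 < V.v x) then σ.symm x else x
      left_inv := by
        intro x
        by_cases hx : x = 0 ∨ 0 < V.v x
        · simp only [if_pos hx, if_pos ((hB x).mp hx), Equiv.symm_apply_apply]
        · simp only [if_neg hx]
      right_inv := by
        intro x
        by_cases hx : x = 0 ∨ 0 < V.v x
        · simp only [if_pos hx, if_pos ((hB' x).mp hx), Equiv.apply_symm_apply]
        · simp only [if_neg hx] }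
  have f1 : ∀ x : K, (x = 0 ∨ 0 < V.v x) → f x = σ x := fun x hx => by
    show (if (x = 0 ∨ 0 < V.v x) then σ x else x) = σ x
    rw [if_pos hx]
  have f2 : ∀ x : K, ¬ (x = 0 ∨ 0 < V.v x) → f x = x := fun x hx => by
    show (if (x = 0 ∨ 0 < V.v x) then σ x else x) = x
    rw [if_neg hx]
  have hout : ∀ x y : K, (x = 0 ∨ 0 < V.v x) → ¬ (y = 0 ∨ 0 < V.v y) →
      V.v (x + y) = V.v y := by
    intro x y hx hy
    push Not at hy
    rcases hx with rfl | hx
    · rw [zero_add]
    · by_cases hx0 : x = 0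
      · rw [hx0, zero_add]
      rw [add_comm]
      exact V.v_lt y x hy.1 hx0 (lt_of_le_of_lt hy.2 hx)
  have hin : ∀ x y : K, x ≠ y → (x = 0 ∨ 0 < V.v x) → (y = 0 ∨ 0 < V.v y) → 0 < V.v (x + y) := by
    intro x y hxy hx hy
    by_cases hx0 : x = 0
    · rw [hx0, zero_add]
      rcases hy with hy | hy
      · exact absurd (hx0.trans hy.symm) hxy
      · exact hy
    by_cases hy0 : y = 0
    · rw [hy0, add_zero]
      rcases hx with hx | hx
      · exact absurd hx hx0
      · exact hx
    replace hx := hx.resolve_left hx0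
    replace hy := hy.resolve_left hy0
    rcases V.tri hx0 hy0 (V.add_ne hxy) with h | h | h
    · rw [h.2]; exact hx
    · rw [h.2]; exact hy
    · exact hx.trans h.2
  refine ⟨σ, f.optionCongr, ?_, hσ0, hσ, rfl, fun x hx => ?_, fun x hx => ?_⟩
  · refine mem_G_of_C V f ?_
    intro x y z hxy hxz hyz
    by_cases hx : x = 0 ∨ 0 < V.v x <;> by_cases hy : y = 0 ∨ 0 < V.v y <;>
      by_cases hz : z = 0 ∨ 0 < V.v z
    · rw [f1 x hx, f1 y hy, f1 z hz, hσ x z hxz, hσ y z hyz]
      exact (mul_lt_mul_iff_right₀ hc).symm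
    · rw [f1 x hx, f1 y hy, f2 z hz, hout x z hx hz, hout y z hy hz,
        hout (σ x) z ((hB x).mp hx) hz, hout (σ y) z ((hB y).mp hy) hz]
    · rw [f1 x hx, f2 y hy, f1 z hz, hσ x z hxz]
      rw [add_comm y z, add_comm y (σ z), hout z y hz hy, hout (σ z) y ((hB z).mp hz) hy]
      have h1 := hin x z hxz hx hz
      have h2 : V.v y ≤ 0 := by push Not at hy; exact hy.2
      have h3 : 0 < c * V.v (x + z) := mul_pos hc h1
      constructor
      · intro h; linarith
      · intro h; linarith
    · rw [f1 x hx, f2 y hy, f2 z hz, hout x z hx hz, hout (σ x) z ((hB x).mp hx) hz]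
    · rw [f2 x hx, f1 y hy, f1 z hz, hσ y z hyz]
      rw [add_comm x z, add_comm x (σ z), hout z x hz hx, hout (σ z) x ((hB z).mp hz) hx]
      have h1 := hin y z hyz hy hz
      have h2 : V.v x ≤ 0 := by push Not at hx; exact hx.2
      have h3 : 0 < c * V.v (y + z) := mul_pos hc h1
      constructor
      · intro h; linarith
      · intro h; linarith
    · rw [f2 x hx, f1 y hy, f2 z hz, hout y z hy hz, hout (σ y) z ((hB y).mp hy) hz]
    · rw [f2 x hx, f2 y hy, f1 z hz, add_comm x z, add_comm x (σ z), add_comm y z,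
        add_comm y (σ z), hout z x hz hx, hout (σ z) x ((hB z).mp hz) hx, hout z y hz hy,
        hout (σ z) y ((hB z).mp hz) hy]
    · rw [f2 x hx, f2 y hy, f2 z hz]
  · show some (f x) = _
    rw [f1 x hx]
  · show some (f x) = _
    rw [f2 x hx]

/-- Lemma A1 -/
theorem A1 (l : K) (hl : l ≠ 0) (hv : 0 < V.v l) : ∃ g ∈ G V, g none = none ∧
    g (some 0) = some 0 ∧ (∀ x : K, ¬ (x = 0 ∨ 0 < V.v x) → g (some x) = some x) ∧
    g (some l) = some V.t := by
  obtain ⟨σ, g, hg, hσ0, hσ, g0, g1, g2⟩ := exists_scale V (1 / V.v l) (by positivity)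
  have hs : V.v (σ l) = 1 := by
    have := hσ l 0 hl
    rw [hσ0, add_zero, add_zero] at this
    rw [this]
    field_simp
  have hs0 : σ l ≠ 0 := fun h => hl (σ.injective (h.trans hσ0.symm))
  by_cases hst : σ l = V.t
  · exact ⟨g, hg, g0, by rw [g1 0 (Or.inl rfl), hσ0], g2, by rw [g1 l (Or.inr hv), hst]⟩
  · have he : σ l + V.t ≠ 0 := V.add_ne hst
    have hve : 1 < V.v (σ l + V.t) := by
      have := V.v_eq (σ l) V.t hs0 V.t_ne he (by rw [hs, V.vt])
      rwa [hs] at this
    refine ⟨T V V.t * J V (σ l + V.t) he * T V V.t * g, ?_, ?_, ?_, ?_, ?_⟩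
    · exact (G V).mul_mem ((G V).mul_mem ((G V).mul_mem (T_mem V _) (J_mem V _ _)) (T_mem V _)) hg
    · simp only [Equiv.Perm.mul_apply, g0, T_none, J_none]
    · simp only [Equiv.Perm.mul_apply, g1 0 (Or.inl rfl), hσ0, T_some, zero_add]
      rw [J_out, T_some, V.two]
      push Not
      exact ⟨V.t_ne, by rw [V.vt]; exact hve⟩
    · intro x hx
      simp only [Equiv.Perm.mul_apply, g2 x hx, T_some]
      have hx' := hx
      push Not at hx'
      have hxt : V.v (x + V.t) = V.v x :=
        V.v_lt x V.t hx'.1 V.t_ne (by rw [V.vt]; linarith [hx'.2])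
      rw [J_out, T_some, V.add_cancel]
      push Not
      constructor
      · apply V.add_ne
        rintro rfl
        rw [V.vt] at hx'
        linarith [hx'.2]
      · rw [hxt]; linarith [hx'.2]
    · simp only [Equiv.Perm.mul_apply, g1 l (Or.inr hv), T_some]
      rw [J_in V _ he (Or.inr le_rfl), T_some, V.two, zero_add]

/-- Lemma A -/
theorem lemA (l m : K) (hl : l ≠ 0) (hv : 0 < V.v l) (hm : m ≠ 1) (hw : 0 < V.v (m + 1)) :
    ∃ g ∈ G V, g none = none ∧ g (some 0) = some 0 ∧ g (some 1) = some 1 ∧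
    g (some l) = some V.t ∧ g (some m) = some (V.t + 1) := by
  obtain ⟨g, hg, g0, g1, g2, g3⟩ := A1 V l hl hv
  obtain ⟨h, hh, h0, h1, h2, h3⟩ := A1 V (m + 1) (V.add_ne hm) hw
  have n1 : ¬ ((1 : K) = 0 ∨ 0 < V.v 1) := by
    rw [V.v_one]
    simp
  have hm0 : m ≠ 0 := by
    rintro rfl
    rw [zero_add, V.v_one] at hw
    exact lt_irrefl _ hw
  have nm : ¬ (m = 0 ∨ 0 < V.v m) := by
    have e : m = (m + 1) + 1 := (V.add_cancel m 1).symm
    have : V.v m = 0 := by
      have h4 := V.v_lt 1 (m + 1) one_ne_zero (V.add_ne hm) (by rw [V.v_one]; exact hw)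
      rw [V.v_one, add_comm, ← e] at h4
      exact h4
    rw [this]
    simp [hm0]
  have nt : ¬ (V.t + 1 = 0 ∨ 0 < V.v (V.t + 1)) := by
    have h4 := V.v_lt 1 V.t one_ne_zero V.t_ne (by rw [V.v_one, V.vt]; exact one_pos)
    rw [add_comm 1 V.t, V.v_one] at h4
    rw [h4]
    simp only [lt_self_iff_false, or_false]
    apply V.add_ne
    intro h5
    have := V.vt
    rw [h5, V.v_one] at this
    norm_num at this
  refine ⟨T V 1 * h * T V 1 * g, ?_, ?_, ?_, ?_, ?_, ?_⟩
  · exact (G V).mul_mem ((G V).mul_mem ((G V).mul_mem (T_mem V _) hh) (T_mem V _)) hg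
  · simp only [Equiv.Perm.mul_apply, g0, T_none, h0]
  · simp only [Equiv.Perm.mul_apply, g1, T_some, zero_add]
    rw [h2 1 n1, T_some, V.two]
  · simp only [Equiv.Perm.mul_apply, g2 1 n1, T_some]
    rw [V.two, h1, T_some, zero_add]
  · simp only [Equiv.Perm.mul_apply, g3, T_some]
    rw [h2 _ nt, T_some, V.add_cancel]
  · simp only [Equiv.Perm.mul_apply, g2 m nm, T_some]
    rw [h3, T_some]

/-- 3-transitivity, in a basic form -/
theorem three (a b c : Option K) (hab : a ≠ b) (hac : a ≠ c) (hbc : b ≠ c) :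
    ∃ g ∈ G V, g a = none ∧ g b = some 0 ∧ g c = some 1 := by
  have h1 : ∃ g ∈ G V, g a = none := by
    rcases a with _ | x
    · exact ⟨1, (G V).one_mem, rfl⟩
    · refine ⟨I * T V x, (G V).mul_mem (I_mem V) (T_mem V x), ?_⟩
      simp only [Equiv.Perm.mul_apply, T_some, V.two, I_zero]
  obtain ⟨g, hg, ga⟩ := h1
  obtain ⟨y, hy⟩ : ∃ y, g b = some y := by
    rcases h : g b with _ | y
    · exact absurd (g.injective (ga.trans h.symm)) hab
    · exact ⟨y, rfl⟩
  obtain ⟨z, hz⟩ : ∃ y, g c = some y := by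
    rcases h : g c with _ | y
    · exact absurd (g.injective (ga.trans h.symm)) hac
    · exact ⟨y, rfl⟩
  have hzy : z + y ≠ 0 := by
    apply V.add_ne
    rintro rfl
    exact hbc (g.injective (hy.trans hz.symm))
  refine ⟨M (z + y)⁻¹ (inv_ne_zero hzy) * T V y * g, ?_, ?_, ?_, ?_⟩
  · exact (G V).mul_mem ((G V).mul_mem (M_mem V _ _) (T_mem V _)) hg
  · simp only [Equiv.Perm.mul_apply, ga, T_none, M_none]
  · simp only [Equiv.Perm.mul_apply, hy, T_some, M_some, V.two, zero_mul]
  · simp only [Equiv.Perm.mul_apply, hz, T_some, M_some]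
    rw [mul_inv_cancel₀ hzy]

end Pool.Agent.J4.H12.Boron
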