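import Mathlib
import Pool.Agent.J4.H12.Boron2

/-!
5-homogeneity, and the relations which are not preserved.
-/

set_option autoImplicit false

namespace Pool.Agent.J4.H12.Boron

variable {K : Type} [Field K] (V : VF K)

/-- the base set of five points -/
def P0 : Set (Option K) := {none, some 0, some 1, some V.t, some (V.t + 1)}

/-- sets which can be mapped to the base set -/
def Good (s : Set (Option K)) : Prop := ∃ g ∈ G V, g '' s = P0 V

theorem Good.of_map {g : Equiv.Perm (Option K)} (hg : g ∈ G V) {s : Set (Option K)}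
    (h : Good V (g '' s)) : Good V s := by
  obtain ⟨f, hf, he⟩ := h
  refine ⟨f * g, (G V).mul_mem hf hg, ?_⟩
  rw [← he, ← Set.image_comp]
  rfl

theorem good_of_D {a b c d e : Option K} (h1 : D V a c b d) (h2 : D V a b c e) :
    Good V {a, b, c, d, e} := by
  have hac := h1.1.1
  have hab := h1.1.2.1
  have had := h1.1.2.2.1
  have hae := h2.1.2.2.1
  have hbc := h2.1.2.2.2.1
  obtain ⟨g, hg, ga, gb, gc⟩ := three V a b c hab hac hbc
  obtain ⟨l, hl⟩ : ∃ y, g d = some y := by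
    rcases h : g d with _ | y
    · exact absurd (g.injective (ga.trans h.symm)) had
    · exact ⟨y, rfl⟩
  obtain ⟨m, hm⟩ : ∃ y, g e = some y := by
    rcases h : g e with _ | y
    · exact absurd (g.injective (ga.trans h.symm)) hae
    · exact ⟨y, rfl⟩
  have k1 := (hg a c b d).mp h1
  have k2 := (hg a b c e).mp h2
  rw [ga, gb, gc, hl] at k1
  rw [ga, gb, gc, hm] at k2
  obtain ⟨⟨-, -, -, -, n1, n2⟩, k1⟩ := k1
  obtain ⟨⟨-, -, -, -, n3, n4⟩, k2⟩ := k2
  simp only [dt, one_mul, zero_add] at k1 k2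
  have hl1 : (1 : K) ≠ l := fun h => n1 (by rw [h])
  have hl0 : (0 : K) ≠ l := fun h => n2 (by rw [h])
  have hm0 : (0 : K) ≠ m := fun h => n3 (by rw [h])
  have hm1 : (1 : K) ≠ m := fun h => n4 (by rw [h])
  have v1 := V.v_one
  have pl : 0 < V.v l := by
    rcases V.tri one_ne_zero hl0.symm (V.add_ne hl1) with h | h | h
    · rw [← v1]; exact h.1
    · exfalso; linarith [h.1, h.2]
    · exfalso; linarith [h.1, h.2]
  have pm : 0 < V.v (m + 1) := by
    rw [add_comm]
    rcases V.tri one_ne_zero hm0.symm (V.add_ne hm1) with h | h | h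
    · exfalso; linarith [h.1, h.2]
    · exfalso; linarith [h.1, h.2]
    · rw [← v1]; exact h.2
  obtain ⟨f, hf, f0, f1, f2, f3, f4⟩ := lemA V l m hl0.symm pl hm1.symm pm
  refine ⟨f * g, (G V).mul_mem hf hg, ?_⟩
  simp only [Set.image_insert_eq, Set.image_singleton, Equiv.Perm.mul_apply, ga, gb, gc, hl, hm,
    f0, f1, f2, f3, f4, P0]

theorem good_xyzw {x y z w : K} (hxy : x ≠ y) (hxz : x ≠ z) (hxw : x ≠ w) (hyz : y ≠ z)
    (hyw : y ≠ w) (h1 : V.v (x + y) < V.v (y + z)) (h2 : V.v (y + w) < V.v (x + y)) :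
    Good V {some x, some y, none, some z, some w} := by
  refine good_of_D V ⟨⟨?_, ?_, ?_, ?_, ?_, ?_⟩, ?_⟩ ⟨⟨?_, ?_, ?_, ?_, ?_, ?_⟩, ?_⟩
  all_goals first
    | (simp only [dt, one_mul, mul_one]; assumption)
    | (simp only [ne_eq, Option.some.injEq, reduceCtorEq, not_false_eq_true]; done)
    | (simp only [ne_eq, Option.some.injEq]; assumption)

theorem good_tri {p q r w : K} (hpq : p ≠ q) (hpr : p ≠ r) (hqr : q ≠ r) (hpw : p ≠ w)
    (hqw : q ≠ w) (hrw : r ≠ w) (ep : V.v (p + w) = 0) (eq : V.v (q + w) = 0)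
    (er : V.v (r + w) = 0) (l1 : 0 < V.v (p + q)) (l2 : 0 < V.v (p + r)) (l3 : 0 < V.v (q + r)) :
    Good V {none, some p, some q, some r, some w} := by
  rcases V.tri3 hpq hpr hqr with ⟨h, -⟩ | ⟨h, -⟩ | ⟨h0, h⟩
  · have := good_xyzw V hpq hpr hpw hqr hqw h (by rw [eq]; exact l1)
    convert this using 1
    ext u; simp only [Set.mem_insert_iff, Set.mem_singleton_iff]; tauto
  · have := good_xyzw V hqr.symm hpr.symm hrw hpq.symm hqw
      (by rwa [add_comm r q, add_comm q p]) (by rw [eq, add_comm]; exact l3)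
    convert this using 1
    ext u; simp only [Set.mem_insert_iff, Set.mem_singleton_iff]; tauto
  · have := good_xyzw V hpq.symm hqr hqw hpr hpw
      (by rwa [add_comm q p]) (by rw [ep, add_comm]; exact l1)
    convert this using 1
    ext u; simp only [Set.mem_insert_iff, Set.mem_singleton_iff]; tauto

theorem v_add_one_of_pos {x : K} (hx0 : x ≠ 0) (h : 0 < V.v x) : V.v (x + 1) = 0 := by
  have h4 := V.v_lt 1 x one_ne_zero hx0 (by rw [V.v_one]; exact h)
  rwa [V.v_one, add_comm] at h4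

theorem v_add_one_of_neg {x : K} (hx0 : x ≠ 0) (h : V.v x < 0) : V.v (x + 1) = V.v x :=
  V.v_lt x 1 hx0 one_ne_zero (by rw [V.v_one]; exact h)

theorem v_add_pos {x y : K} (hx : x ≠ 0) (hy : y ≠ 0) (hxy : x ≠ y) (h1 : 0 < V.v x)
    (h2 : 0 < V.v y) : 0 < V.v (x + y) := by
  rcases V.tri hx hy (V.add_ne hxy) with h | h | h
  · rw [h.2]; exact h1
  · rw [h.2]; exact h2
  · exact h1.trans h.2

theorem types {x : K} (hx0 : x ≠ 0) (hx1 : x ≠ 1) :
    0 < V.v x ∨ (V.v x = 0 ∧ 0 < V.v (x + 1)) ∨ V.v x < 0 := by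
  rcases lt_trichotomy (V.v x) 0 with h | h | h
  · exact Or.inr (Or.inr h)
  · right; left
    refine ⟨h, ?_⟩
    have := V.v_eq x 1 hx0 one_ne_zero (V.add_ne hx1) (by rw [h, V.v_one])
    rwa [h] at this
  · exact Or.inl h

theorem good00 {l m : K} (hl0 : l ≠ 0) (hl1 : l ≠ 1) (hm0 : m ≠ 0) (hm1 : m ≠ 1) (hlm : l ≠ m)
    (h1 : 0 < V.v l) (h2 : 0 < V.v m) : Good V {none, some 0, some 1, some l, some m} := by
  have := good_tri V hl0.symm hm0.symm hlm zero_ne_one hl1 hm1 (by rw [zero_add, V.v_one])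
    (v_add_one_of_pos V hl0 h1) (v_add_one_of_pos V hm0 h2) (by rwa [zero_add])
    (by rwa [zero_add]) (v_add_pos V hl0 hm0 hlm h1 h2)
  convert this using 1
  ext u; simp only [Set.mem_insert_iff, Set.mem_singleton_iff]; tauto

theorem good11 {l m : K} (hl0 : l ≠ 0) (hl1 : l ≠ 1) (hm0 : m ≠ 0) (hm1 : m ≠ 1) (hlm : l ≠ m)
    (e1 : V.v l = 0) (e2 : V.v m = 0)
    (h1 : 0 < V.v (l + 1)) (h2 : 0 < V.v (m + 1)) :
    Good V {none, some 0, some 1, some l, some m} := by
  have h3 : 0 < V.v (l + m) := by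
    have := v_add_pos V (V.add_ne hl1) (V.add_ne hm1) (fun h => hlm (add_right_cancel h)) h1 h2
    have e : l + 1 + (m + 1) = l + m + (1 + 1) := by ring
    rwa [e, V.two, add_zero] at this
  have := good_tri V hl1.symm hm1.symm hlm one_ne_zero hl0 hm0 (by rw [add_zero, V.v_one])
    (by rwa [add_zero]) (by rwa [add_zero]) (by rwa [add_comm])
    (by rwa [add_comm]) h3
  convert this using 1
  ext u; simp only [Set.mem_insert_iff, Set.mem_singleton_iff]; tauto

theorem good01 {l m : K} (hl0 : l ≠ 0) (hl1 : l ≠ 1) (hm0 : m ≠ 0) (hm1 : m ≠ 1)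
    (h1 : 0 < V.v l) (e2 : V.v m = 0) (h2 : 0 < V.v (m + 1)) :
    Good V {none, some 0, some 1, some l, some m} := by
  refine good_of_D V ⟨⟨?_, ?_, ?_, ?_, ?_, ?_⟩, ?_⟩ ⟨⟨?_, ?_, ?_, ?_, ?_, ?_⟩, ?_⟩
  · simp
  · simp
  · simp
  · simp
  · simpa using hl1.symm
  · simpa using hl0.symm
  · simp only [dt, one_mul, zero_add]
    rw [add_comm, v_add_one_of_pos V hl0 h1]
    exact h1
  · simp
  · simp
  · simp
  · simp
  · simpa using hm0.symm
  · simpa using hm1.symm
  · simp only [dt, one_mul, zero_add]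
    rw [e2, add_comm]
    exact h2

theorem good0i {l m : K} (hl0 : l ≠ 0) (hl1 : l ≠ 1) (hm0 : m ≠ 0) (hm1 : m ≠ 1)
    (h1 : 0 < V.v l) (h2 : V.v m < 0) :
    Good V {none, some 0, some 1, some l, some m} := by
  have := good_xyzw V (x := 1) (y := 0) (z := l) (w := m) one_ne_zero hl1.symm hm1.symm hl0.symm
    hm0.symm (by rwa [add_zero, zero_add, V.v_one]) (by rwa [add_zero, zero_add, V.v_one])
  convert this using 1
  ext u; simp only [Set.mem_insert_iff, Set.mem_singleton_iff]; tauto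

theorem good1i {l m : K} (hl0 : l ≠ 0) (hl1 : l ≠ 1) (hm0 : m ≠ 0) (hm1 : m ≠ 1)
    (h1 : 0 < V.v (l + 1)) (h2 : V.v m < 0) :
    Good V {none, some 0, some 1, some l, some m} := by
  have := good_xyzw V (x := 0) (y := 1) (z := l) (w := m) zero_ne_one hl0.symm hm0.symm hl1.symm
    hm1.symm (by rwa [zero_add, V.v_one, add_comm])
    (by rwa [zero_add, V.v_one, add_comm, v_add_one_of_neg V hm0 h2])
  convert this using 1
  ext u; simp only [Set.mem_insert_iff, Set.mem_singleton_iff]; tauto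

theorem goodii {l m : K} (hl0 : l ≠ 0) (hl1 : l ≠ 1) (hm0 : m ≠ 0) (hm1 : m ≠ 1) (hlm : l ≠ m)
    (h1 : V.v l < 0) (h2 : V.v m < 0) :
    Good V {none, some 0, some 1, some l, some m} := by
  apply Good.of_map V (I_mem V)
  have := good00 V (inv_ne_zero hl0) (fun h => hl1 (inv_eq_one.mp h)) (inv_ne_zero hm0)
    (fun h => hm1 (inv_eq_one.mp h)) (fun h => hlm (inv_injective h))
    (by rw [V.v_inv hl0]; linarith) (by rw [V.v_inv hm0]; linarith)
  convert this using 1
  simp only [Set.image_insert_eq, Set.image_singleton, I_none, I_zero, I_some hl0, I_some hm0,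
    I_some one_ne_zero, inv_one]
  ext u; simp only [Set.mem_insert_iff, Set.mem_singleton_iff]; tauto

theorem good_swap {l m : K} (h : Good V {none, some 0, some 1, some l, some m}) :
    Good V {none, some 0, some 1, some m, some l} := by
  convert h using 1
  ext u; simp only [Set.mem_insert_iff, Set.mem_singleton_iff]; tauto

theorem good_base {l m : K} (hl0 : l ≠ 0) (hl1 : l ≠ 1) (hm0 : m ≠ 0) (hm1 : m ≠ 1)
    (hlm : l ≠ m) : Good V {none, some 0, some 1, some l, some m} := by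
  rcases types V hl0 hl1 with h1 | ⟨e1, h1⟩ | h1 <;>
    rcases types V hm0 hm1 with h2 | ⟨e2, h2⟩ | h2
  · exact good00 V hl0 hl1 hm0 hm1 hlm h1 h2
  · exact good01 V hl0 hl1 hm0 hm1 h1 e2 h2
  · exact good0i V hl0 hl1 hm0 hm1 h1 h2
  · exact good_swap V (good01 V hm0 hm1 hl0 hl1 h2 e1 h1)
  · exact good11 V hl0 hl1 hm0 hm1 hlm e1 e2 h1 h2
  · exact good1i V hl0 hl1 hm0 hm1 h1 h2
  · exact good_swap V (good0i V hm0 hm1 hl0 hl1 h2 h1)
  · exact good_swap V (good1i V hm0 hm1 hl0 hl1 h2 h1)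
  · exact goodii V hl0 hl1 hm0 hm1 hlm h1 h2

theorem good_five {a b c d e : Option K} (hab : a ≠ b) (hac : a ≠ c) (had : a ≠ d) (hae : a ≠ e)
    (hbc : b ≠ c) (hbd : b ≠ d) (hbe : b ≠ e) (hcd : c ≠ d) (hce : c ≠ e) (hde : d ≠ e) :
    Good V {a, b, c, d, e} := by
  obtain ⟨g, hg, ga, gb, gc⟩ := three V a b c hab hac hbc
  obtain ⟨l, hl⟩ : ∃ y, g d = some y := by
    rcases h : g d with _ | y
    · exact absurd (g.injective (ga.trans h.symm)) had
    · exact ⟨y, rfl⟩
  obtain ⟨m, hm⟩ : ∃ y, g e = some y := by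
    rcases h : g e with _ | y
    · exact absurd (g.injective (ga.trans h.symm)) hae
    · exact ⟨y, rfl⟩
  apply Good.of_map V hg
  simp only [Set.image_insert_eq, Set.image_singleton, ga, gb, gc, hl, hm]
  apply good_base
  · rintro rfl; exact hbd (g.injective (gb.trans hl.symm))
  · rintro rfl; exact hcd (g.injective (gc.trans hl.symm))
  · rintro rfl; exact hbe (g.injective (gb.trans hm.symm))
  · rintro rfl; exact hce (g.injective (gc.trans hm.symm))
  · rintro rfl; exact hde (g.injective (hl.trans hm.symm))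

/-- the group is transitive on 5-element subsets -/
theorem homog (s u : Finset (Option K)) (hs : s.card = 5) (hu : u.card = 5) :
    ∃ g ∈ G V, g '' (s : Set (Option K)) = (u : Set (Option K)) := by
  classical
  have key : ∀ s : Finset (Option K), s.card = 5 → Good V (s : Set (Option K)) := by
    intro s hs
    obtain ⟨a, s1, ha, rfl, h1⟩ := Finset.card_eq_succ.mp hs
    obtain ⟨b, s2, hb, rfl, h2⟩ := Finset.card_eq_succ.mp h1
    obtain ⟨c, d, e, hcd, hce, hde, rfl⟩ := Finset.card_eq_three.mp h2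
    simp only [Finset.mem_insert, Finset.mem_singleton, not_or] at ha hb
    have := good_five V ha.1 ha.2.1 ha.2.2.1 ha.2.2.2 hb.1 hb.2.1 hb.2.2 hcd hce hde
    convert this using 1
    push_cast
    rfl
  obtain ⟨g, hg, e1⟩ := key s hs
  obtain ⟨h, hh, e2⟩ := key u hu
  refine ⟨h⁻¹ * g, (G V).mul_mem ((G V).inv_mem hh) hg, ?_⟩
  have : ((h⁻¹ * g : Equiv.Perm (Option K)) : Option K → Option K) = (h⁻¹ : Equiv.Perm _) ∘ g := rfl
  rw [this, Set.image_comp, e1, ← e2, ← Set.image_comp]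
  have : ((h⁻¹ : Equiv.Perm (Option K)) : Option K → Option K) ∘ h = id := by
    ext x : 1
    simp
  rw [this, Set.image_id]

/-- 3-transitivity -/
theorem trans3 (a b c a' b' c' : Option K) (hab : a ≠ b) (hac : a ≠ c) (hbc : b ≠ c)
    (hab' : a' ≠ b') (hac' : a' ≠ c') (hbc' : b' ≠ c') :
    ∃ g ∈ G V, g a = a' ∧ g b = b' ∧ g c = c' := by
  obtain ⟨g, hg, ga, gb, gc⟩ := three V a b c hab hac hbc
  obtain ⟨h, hh, ha, hb, hc⟩ := three V a' b' c' hab' hac' hbc'
  refine ⟨h⁻¹ * g, (G V).mul_mem ((G V).inv_mem hh) hg, ?_, ?_, ?_⟩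
  · rw [Equiv.Perm.mul_apply, ga, ← ha]
    simp
  · rw [Equiv.Perm.mul_apply, gb, ← hb]
    simp
  · rw [Equiv.Perm.mul_apply, gc, ← hc]
    simp

theorem t_ne_one : V.t ≠ 1 := by
  intro h5
  have := V.vt
  rw [h5, V.v_one] at this
  norm_num at this

/-- the group is not 4-transitive -/
theorem not4 : ¬ ∃ g ∈ G V, g none = none ∧ g (some 1) = some 0 ∧ g (some 0) = some 1 ∧
    g (some V.t) = some V.t := by
  rintro ⟨g, hg, g0, g1, g2, g3⟩
  have n1 := t_ne_one V
  have n2 := V.t_ne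
  have e : V.v (1 + V.t) = 0 := by
    rw [add_comm]
    exact v_add_one_of_pos V n2 (by rw [V.vt]; exact one_pos)
  have h : D V none (some 1) (some 0) (some V.t) := by
    refine ⟨⟨by simp, by simp, by simp, by simp, ?_, ?_⟩, ?_⟩
    · simpa using n1.symm
    · simpa using n2.symm
    · simp only [dt, one_mul, zero_add]
      rw [e, V.vt]
      exact one_pos
  have h' := (hg _ _ _ _).mp h
  rw [g0, g1, g2, g3] at h'
  have := h'.2
  simp only [dt, one_mul, zero_add] at this
  rw [e, V.vt] at this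
  norm_num at this

/-- an element of the group fixing three points and swapping two others -/
theorem exists_swap : ∃ g ∈ G V, g none = none ∧ g (some 1) = some 1 ∧
    g (some (V.t + 1)) = some (V.t + 1) ∧ g (some 0) = some V.t ∧ g (some V.t) = some 0 := by
  have n2 := V.t_ne
  refine ⟨J V V.t n2, J_mem V _ _, rfl, ?_, ?_, ?_, ?_⟩
  · apply J_out
    rw [V.vt, V.v_one]
    simp
  · apply J_out
    rw [V.vt, v_add_one_of_pos V n2 (by rw [V.vt]; exact one_pos)]
    push Not
    exact ⟨V.add_ne (t_ne_one V), by norm_num⟩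
  · rw [J_in V _ n2 (Or.inl rfl), zero_add]
  · rw [J_in V _ n2 (Or.inr le_rfl), V.two]

end Pool.Agent.J4.H12.Boron
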