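import Mathlib
import Pool.Agent.J4.H12.Boron1

/-!
The field of Hahn series over the field of two elements with rational exponents.
-/

set_option autoImplicit false

namespace Pool.Agent.J4.H12.Boron

/-- the field -/
abbrev HK : Type := HahnSeries ℚ (ZMod 2)

theorem hk_two (x : HK) : x + x = 0 := by
  ext a
  rw [HahnSeries.coeff_add, HahnSeries.coeff_zero]
  generalize x.coeff a = u
  revert u
  decide

theorem hk_le {x y : HK} (hxy : x + y ≠ 0) : min x.order y.order ≤ (x + y).order :=
  HahnSeries.min_order_le_order_add hxy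

theorem zmod2 (u : ZMod 2) (hu : u ≠ 0) : u = 1 := by
  revert hu
  revert u
  decide

theorem hk_coeff {x : HK} (hx : x ≠ 0) : x.coeff x.order = 1 :=
  zmod2 _ (fun h => hx (HahnSeries.coeff_order_eq_zero.mp h))

theorem hk_lt {x y : HK} (hx : x ≠ 0) (hy : y ≠ 0) (h : x.order < y.order) :
    (x + y).order = x.order := by
  have hc : (x + y).coeff x.order = 1 := by
    rw [HahnSeries.coeff_add, hk_coeff hx, HahnSeries.coeff_eq_zero_of_lt_order h, add_zero]
  have hne : x + y ≠ 0 := by
    intro h0
    rw [h0, HahnSeries.coeff_zero] at hc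
    exact zero_ne_one hc
  apply le_antisymm
  · apply HahnSeries.order_le_of_coeff_ne_zero
    rw [hc]
    exact one_ne_zero
  · have := hk_le hne
    rwa [min_eq_left h.le] at this

theorem hk_eq {x y : HK} (hx : x ≠ 0) (hy : y ≠ 0) (hxy : x + y ≠ 0) (h : x.order = y.order) :
    x.order < (x + y).order := by
  have h1 := hk_le hxy
  rw [← h, min_self] at h1
  apply lt_of_le_of_ne h1
  intro h2
  have h3 := hk_coeff hxy
  rw [← h2, HahnSeries.coeff_add, hk_coeff hx, h, hk_coeff hy] at h3
  revert h3
  decide

/-- scaling of the exponents -/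
noncomputable def scaleEmb (c : ℚ) (hc : 0 < c) : ℚ ↪o ℚ :=
  (OrderIso.mulLeft₀ c hc).toOrderEmbedding

theorem hk_embDomain_embDomain (f g : ℚ ↪o ℚ) (h : ∀ a, g (f a) = a) (h' : ∀ a, f (g a) = a)
    (x : HK) : HahnSeries.embDomain g (HahnSeries.embDomain f x) = x := by
  ext a
  have : a = g (f a) := (h a).symm
  rw [this, HahnSeries.embDomain_coeff, HahnSeries.embDomain_coeff, h]

/-- scaling of the exponents, as a bijection of the field -/
noncomputable def scaleHK (c : ℚ) (hc : 0 < c) : HK ≃ HK where
  toFun := HahnSeries.embDomain (scaleEmb c hc)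
  invFun := HahnSeries.embDomain (scaleEmb c⁻¹ (inv_pos.mpr hc))
  left_inv := by
    apply hk_embDomain_embDomain
    · intro a
      show c⁻¹ * (c * a) = a
      field_simp
    · intro a
      show c * (c⁻¹ * a) = a
      field_simp
  right_inv := by
    apply hk_embDomain_embDomain
    · intro a
      show c * (c⁻¹ * a) = a
      field_simp
    · intro a
      show c⁻¹ * (c * a) = a
      field_simp

theorem hk_order_embDomain (f : ℚ ↪o ℚ) {x : HK} (hx : x ≠ 0) :
    (HahnSeries.embDomain f x : HK).order = f x.order := by
  have hne : HahnSeries.embDomain f x ≠ 0 := by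
    intro h
    apply hx
    apply HahnSeries.embDomain_injective (f := f)
    rw [h, HahnSeries.embDomain_zero]
  have h1 : (HahnSeries.embDomain f x).orderTop = WithTop.map f x.orderTop :=
    HahnSeries.orderTop_embDomain
  rw [← HahnSeries.order_eq_orderTop_of_ne_zero hne,
    ← HahnSeries.order_eq_orderTop_of_ne_zero hx, WithTop.map_coe] at h1
  exact_mod_cast h1

/-- The structure for the Hahn series field. -/
noncomputable def hkVF : VF HK where
  v := fun x => x.order
  v_mul := fun x y hx hy => HahnSeries.order_mul hx hy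
  v_lt := fun x y hx hy h => hk_lt hx hy h
  v_eq := fun x y hx hy hxy h => hk_eq hx hy hxy h
  two := hk_two
  t := HahnSeries.single 1 1
  t_ne := by
    intro h
    have := congrArg (fun z => HahnSeries.coeff z 1) h
    simp at this
  vt := HahnSeries.order_single one_ne_zero
  sc := by
    intro c hc
    refine ⟨scaleHK c hc, HahnSeries.embDomain_zero, ?_⟩
    intro x y hxy
    show (HahnSeries.embDomain (scaleEmb c hc) x + HahnSeries.embDomain (scaleEmb c hc) y).order = _
    rw [← HahnSeries.embDomain_add, hk_order_embDomain]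
    · rfl
    · intro h
      apply hxy
      exact add_right_cancel (h.trans (hk_two y).symm)

end Pool.Agent.J4.H12.Boron
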