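import Mathlib
import Pool.Agent.Y898.MTC

/-!
Bracket polynomials without constant term are near to integers on a union of blocks of every long
sequence of integers, uniformly in the coefficients.
-/

set_option autoImplicit false
set_option maxHeartbeats 1000000

namespace Pool.Agent.J4.H12.BK

open Finset

/-- `g n` is at distance less than `ε` from an integer -/
def Small (ε : ℝ) (g : ℤ → ℝ) (n : ℤ) : Prop := |g n - round (g n)| < ε

theorem Small.mono {ε ε' : ℝ} {g : ℤ → ℝ} {n : ℤ} (h : Small ε g n) (hε : ε ≤ ε') : Small ε' g n :=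
  lt_of_lt_of_le h hε

theorem small_of {ε x : ℝ} (z : ℤ) (h : |x - z| < ε) : |x - round x| < ε :=
  lt_of_le_of_lt (round_le x z) h

/-- functions of degree at most `d` built in at most `s` steps -/
inductive P : ℕ → ℕ → (ℤ → ℝ) → Prop
  | zero (d s : ℕ) : P d s (fun _ => 0)
  | var (s : ℕ) : P 1 s (fun n => (n : ℝ))
  | smul {d s : ℕ} {g : ℤ → ℝ} (a : ℝ) : P d s g → P d (s + 1) (fun n => a * g n)
  | add {d s : ℕ} {g h : ℤ → ℝ} : P d s g → P d s h → P d (s + 1) (fun n => g n + h n)
  | mul {d e s : ℕ} {g h : ℤ → ℝ} : P (d + 1) s g → P (e + 1) s h →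
      P (d + e + 2) (s + 1) (fun n => g n * h n)
  | near {d s : ℕ} {g : ℤ → ℝ} : P d s g → P d (s + 1) (fun n => (round (g n) : ℝ))
  | mono {d d' s s' : ℕ} {g : ℤ → ℝ} : P d s g → d ≤ d' → s ≤ s' → P d' s' g

theorem P.eq_zero {d s : ℕ} {g : ℤ → ℝ} (h : P d s g) : d = 0 → g = fun _ => 0 := by
  induction h with
  | zero => intro _; rfl
  | var => intro h; exact absurd h one_ne_zero
  | smul a _ ih => intro h; rw [ih h]; simp
  | add _ _ ih1 ih2 => intro h; rw [ih1 h, ih2 h]; simp
  | mul => intro h; omega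
  | near _ ih => intro h; rw [ih h]; simp
  | mono _ h1 _ ih => intro h; exact ih (by omega)

theorem P.mul' {d e s : ℕ} {g h : ℤ → ℝ} (hg : P d s g) (hh : P e s h) :
    P (d + e) (s + 1) (fun n => g n * h n) := by
  rcases Nat.eq_zero_or_pos d with h0 | h0
  · rw [hg.eq_zero h0]
    simp only [zero_mul]
    exact P.zero _ _
  rcases Nat.eq_zero_or_pos e with h1 | h1
  · rw [hh.eq_zero h1]
    simp only [mul_zero]
    exact P.zero _ _
  obtain ⟨d', rfl⟩ : ∃ d', d = d' + 1 := ⟨d - 1, by omega⟩
  obtain ⟨e', rfl⟩ : ∃ e', e = e' + 1 := ⟨e - 1, by omega⟩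
  exact (P.mul hg hh).mono (by omega) le_rfl

theorem round_three {a b c : ℝ} (ha : |a - round a| < 1 / 8) (hb : |b - round b| < 1 / 8)
    (hc : |c - round c| < 1 / 8) : round (a + b + c) = round a + round b + round c := by
  rw [round_eq_iff, Set.mem_Ico]
  rw [abs_lt] at ha hb hc
  push_cast
  constructor <;> linarith [ha.1, ha.2, hb.1, hb.2, hc.1, hc.2]

/-- **Structure.** The difference `g (n + m) - g n - g m` is, for fixed `n`, a function of `m` of
smaller degree, if some functions of smaller size are small at `n` and at `m` and some functions of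
smaller degree are small at `m`. -/
theorem structure_lemma {d s : ℕ} {g : ℤ → ℝ} (h : P d s g) :
    ∃ Hs : List (ℤ → ℝ), Hs.length ≤ 2 ^ s ∧ (∀ h ∈ Hs, ∃ s', s' < s ∧ P d s' h) ∧
      ∀ n : ℤ, (∀ h ∈ Hs, Small (1 / 8) h n) →
        ∃ (g' : ℤ → ℝ) (L : List (ℤ → ℝ)), P (d - 1) (10 * s) g' ∧ L.length ≤ 2 ^ s ∧
          (∀ q ∈ L, P (d - 1) (10 * s) q) ∧
          ∀ m : ℤ, (∀ h ∈ Hs, Small (1 / 8) h m) → (∀ q ∈ L, Small (1 / 8) q m) →
            g (n + m) = g n + g m + g' m := by
  induction h with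
  | zero d s =>
    exact ⟨[], by simp, by simp, fun n _ => ⟨fun _ => 0, [], P.zero _ _, by simp, by simp,
      fun m _ _ => by simp⟩⟩
  | var s =>
    exact ⟨[], by simp, by simp, fun n _ => ⟨fun _ => 0, [], P.zero _ _, by simp, by simp,
      fun m _ _ => by push_cast; ring⟩⟩
  | @smul d s g a hg ih =>
    obtain ⟨Hs, hlen, hHs, h⟩ := ih
    refine ⟨Hs, hlen.trans (Nat.pow_le_pow_right (by norm_num) (Nat.le_succ s)),
      fun h' hh' => ?_, fun n hn => ?_⟩
    · obtain ⟨s', h1, h2⟩ := hHs h' hh'
      exact ⟨s', by omega, h2⟩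
    · obtain ⟨g', L, hg', hL, hL', hid⟩ := h n hn
      refine ⟨fun m => a * g' m, L, (hg'.smul a).mono le_rfl (by omega),
        hL.trans (Nat.pow_le_pow_right (by norm_num) (Nat.le_succ s)),
        fun q hq => (hL' q hq).mono le_rfl (by omega), fun m hm hm' => ?_⟩
      beta_reduce
      rw [hid m hm hm']
      ring
  | @add d s g1 g2 hg1 hg2 ih1 ih2 =>
    obtain ⟨H1, hl1, hH1, h1⟩ := ih1
    obtain ⟨H2, hl2, hH2, h2⟩ := ih2
    refine ⟨H1 ++ H2, by rw [List.length_append, pow_succ]; omega, fun h hh => ?_, fun n hn => ?_⟩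
    · rcases List.mem_append.1 hh with hh | hh
      · obtain ⟨s', h3, h4⟩ := hH1 h hh
        exact ⟨s', by omega, h4⟩
      · obtain ⟨s', h3, h4⟩ := hH2 h hh
        exact ⟨s', by omega, h4⟩
    · obtain ⟨g1', L1, a1, b1, c1, e1⟩ := h1 n (fun h hh => hn h (List.mem_append_left _ hh))
      obtain ⟨g2', L2, a2, b2, c2, e2⟩ := h2 n (fun h hh => hn h (List.mem_append_right _ hh))
      refine ⟨fun m => g1' m + g2' m, L1 ++ L2, (a1.add a2).mono le_rfl (by omega), by
        rw [List.length_append, pow_succ]; omega, fun q hq => ?_, fun m hm hm' => ?_⟩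
      · rcases List.mem_append.1 hq with hq | hq
        · exact (c1 q hq).mono le_rfl (by omega)
        · exact (c2 q hq).mono le_rfl (by omega)
      · beta_reduce
        rw [e1 m (fun h hh => hm h (List.mem_append_left _ hh))
          (fun q hq => hm' q (List.mem_append_left _ hq)),
          e2 m (fun h hh => hm h (List.mem_append_right _ hh))
          (fun q hq => hm' q (List.mem_append_right _ hq))]
        ring
  | @mul d e s g1 g2 hg1 hg2 ih1 ih2 =>
    obtain ⟨H1, hl1, hH1, h1⟩ := ih1
    obtain ⟨H2, hl2, hH2, h2⟩ := ih2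
    refine ⟨H1 ++ H2, by rw [List.length_append, pow_succ]; omega, fun h hh => ?_, fun n hn => ?_⟩
    · rcases List.mem_append.1 hh with hh | hh
      · obtain ⟨s', h3, h4⟩ := hH1 h hh
        exact ⟨s', by omega, h4.mono (by omega) le_rfl⟩
      · obtain ⟨s', h3, h4⟩ := hH2 h hh
        exact ⟨s', by omega, h4.mono (by omega) le_rfl⟩
    · obtain ⟨g1', L1, a1, b1, c1, e1⟩ := h1 n (fun h hh => hn h (List.mem_append_left _ hh))
      obtain ⟨g2', L2, a2, b2, c2, e2⟩ := h2 n (fun h hh => hn h (List.mem_append_right _ hh))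
      simp only [Nat.add_sub_cancel] at a1 a2 c1 c2
      have t1 : P (d + e + 2 - 1) (10 * s + 1) (fun m => g1 n * g2 m) :=
        ((hg2.mono le_rfl (by omega : s ≤ 10 * s)).smul (g1 n)).mono (by omega) le_rfl
      have t2 : P (d + e + 2 - 1) (10 * s + 1) (fun m => g2 n * g1 m) :=
        ((hg1.mono le_rfl (by omega : s ≤ 10 * s)).smul (g2 n)).mono (by omega) le_rfl
      have t3 : P (d + e + 2 - 1) (10 * s + 1) (fun m => g1 n * g2' m) :=
        (a2.smul (g1 n)).mono (by omega) le_rfl
      have t4 : P (d + e + 2 - 1) (10 * s + 1) (fun m => g2 n * g1' m) :=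
        (a1.smul (g2 n)).mono (by omega) le_rfl
      have t5 : P (d + e + 2 - 1) (10 * s + 1) (fun m => g1 m * g2' m) :=
        ((hg1.mono le_rfl (by omega : s ≤ 10 * s)).mul' a2).mono (by omega) le_rfl
      have t6 : P (d + e + 2 - 1) (10 * s + 1) (fun m => g1' m * g2 m) :=
        (a1.mul' (hg2.mono le_rfl (by omega : s ≤ 10 * s))).mono (by omega) le_rfl
      have t7 : P (d + e + 2 - 1) (10 * s + 1) (fun m => g1' m * g2' m) :=
        (a1.mul' a2).mono (by omega) le_rfl
      have t12 := t1.add t2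
      have t34 := t3.add t4
      have t56 := t5.add t6
      have t1234 := t12.add t34
      have t567 := t56.add (t7.mono le_rfl (Nat.le_succ _))
      have tt := t1234.add t567
      refine ⟨_, L1 ++ L2, tt.mono le_rfl (by omega), by
        rw [List.length_append, pow_succ]; omega, fun q hq => ?_, fun m hm hm' => ?_⟩
      · rcases List.mem_append.1 hq with hq | hq
        · exact (c1 q hq).mono (by omega) (by omega)
        · exact (c2 q hq).mono (by omega) (by omega)
      · beta_reduce
        rw [e1 m (fun h hh => hm h (List.mem_append_left _ hh))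
          (fun q hq => hm' q (List.mem_append_left _ hq)),
          e2 m (fun h hh => hm h (List.mem_append_right _ hh))
          (fun q hq => hm' q (List.mem_append_right _ hq))]
        ring
  | @near d s g hg ih =>
    obtain ⟨Hs, hlen, hHs, h⟩ := ih
    refine ⟨g :: Hs, ?_, fun h' hh' => ?_, fun n hn => ?_⟩
    · rw [List.length_cons, pow_succ]
      have := Nat.one_le_two_pow (n := s)
      omega
    · rcases List.mem_cons.1 hh' with rfl | hh'
      · exact ⟨s, by omega, hg⟩
      · obtain ⟨s', h1, h2⟩ := hHs h' hh'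
        exact ⟨s', by omega, h2⟩
    · obtain ⟨g', L, hg', hL, hL', hid⟩ := h n (fun h hh => hn h (List.mem_cons_of_mem _ hh))
      refine ⟨fun m => (round (g' m) : ℝ), g' :: L, (hg'.near).mono le_rfl (by omega), ?_,
        fun q hq => ?_, fun m hm hm' => ?_⟩
      · rw [List.length_cons, pow_succ]
        have := Nat.one_le_two_pow (n := s)
        omega
      · rcases List.mem_cons.1 hq with rfl | hq
        · exact hg'.mono le_rfl (by omega)
        · exact (hL' q hq).mono le_rfl (by omega)
      · beta_reduce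
        rw [hid m (fun h hh => hm h (List.mem_cons_of_mem _ hh))
          (fun q hq => hm' q (List.mem_cons_of_mem _ hq))]
        rw [round_three (hn g List.mem_cons_self) (hm g List.mem_cons_self)
          (hm' g' List.mem_cons_self)]
        push_cast
        ring
  | @mono d d' s s' g hg hd hs ih =>
    obtain ⟨Hs, hlen, hHs, h⟩ := ih
    refine ⟨Hs, hlen.trans (Nat.pow_le_pow_right (by norm_num) hs),
      fun h' hh' => ?_, fun n hn => ?_⟩
    · obtain ⟨s'', h1, h2⟩ := hHs h' hh'
      exact ⟨s'', by omega, h2.mono hd le_rfl⟩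
    · obtain ⟨g', L, hg', hL, hL', hid⟩ := h n hn
      exact ⟨g', L, hg'.mono (by omega) (by omega),
        hL.trans (Nat.pow_le_pow_right (by norm_num) hs),
        fun q hq => (hL' q hq).mono (by omega) (by omega), hid⟩

end Pool.Agent.J4.H12.BK
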