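import Mathlib
import Pool.Agent.J4.H12.Bracket1

/-!
Bracket polynomials without constant term are near to integers on a union of blocks of every long
sequence of integers, uniformly in the coefficients: the induction.
-/

set_option autoImplicit false
set_option maxHeartbeats 1000000

namespace Pool.Agent.J4.H12.BK

open Finset

/-- `β 0 < β 1 < … < β (m - 1)` are nonempty subsets of `{0, …, r - 1}` -/
def Chain (r m : ℕ) (β : ℕ → Finset ℕ) : Prop :=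
  (∀ i < m, (β i).Nonempty ∧ β i ⊆ range r) ∧ ∀ i j, i < j → j < m → ∀ x ∈ β i, ∀ y ∈ β j, x < y

theorem Chain.sum {r m : ℕ} {β : ℕ → Finset ℕ} (h : Chain r m β) (y : ℕ → ℤ) {I : Finset ℕ}
    (hI : I ⊆ range m) : ∑ x ∈ I.biUnion β, y x = ∑ i ∈ I, ∑ x ∈ β i, y x := by
  rw [sum_biUnion]
  intro i hi j hj hij
  rw [Function.onFun, Finset.disjoint_left]
  intro z hz hz'
  have h1 := mem_range.1 (hI hi)
  have h2 := mem_range.1 (hI hj)
  rcases lt_or_gt_of_ne hij with hlt | hlt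
  · exact absurd (h.2 i j hlt h2 z hz z hz') (lt_irrefl _)
  · exact absurd (h.2 j i hlt h1 z hz' z hz) (lt_irrefl _)

theorem Chain.union_nonempty {r m : ℕ} {β : ℕ → Finset ℕ} (h : Chain r m β) {I : Finset ℕ}
    (hI : I ⊆ range m) (hn : I.Nonempty) : (I.biUnion β).Nonempty := by
  obtain ⟨i, hi⟩ := hn
  obtain ⟨x, hx⟩ := (h.1 i (mem_range.1 (hI hi))).1
  exact ⟨x, mem_biUnion.2 ⟨i, hi, hx⟩⟩

theorem Chain.union_subset {r m : ℕ} {β : ℕ → Finset ℕ} (h : Chain r m β) {I : Finset ℕ}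
    (hI : I ⊆ range m) : I.biUnion β ⊆ range r := by
  intro x hx
  obtain ⟨i, hi, hx⟩ := mem_biUnion.1 hx
  exact (h.1 i (mem_range.1 (hI hi))).2 hx

theorem Chain.le {r m m' : ℕ} {β : ℕ → Finset ℕ} (h : Chain r m β) (hm : m' ≤ m) :
    Chain r m' β :=
  ⟨fun i hi => h.1 i (by omega), fun i j hij hj => h.2 i j hij (by omega)⟩

theorem folk (m ρ : ℕ) : ∃ r : ℕ, ∀ χ : Finset ℕ → Fin ρ, ∃ β : ℕ → Finset ℕ, Chain r m β ∧
    ∃ col, ∀ I : Finset ℕ, I ⊆ range m → I.Nonempty → χ (I.biUnion β) = col := by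
  classical
  obtain ⟨r, hr⟩ := Pool.Agent.Y898.MTC.mt_col 1 m ρ
  refine ⟨r, fun χ => ?_⟩
  obtain ⟨β, hβ, col, hcol⟩ := hr (fun t => χ (t 0))
  refine ⟨fun i => if h : i < m then β ⟨i, h⟩ else ∅, ⟨fun i hi => ?_, fun i j hij hj => ?_⟩,
    col, fun I hI hn => ?_⟩
  · simp only [hi, dif_pos]
    exact hβ.1 ⟨i, hi⟩
  · have hi : i < m := by omega
    simp only [hi, hj, dif_pos]
    exact hβ.2 ⟨i, hi⟩ ⟨j, hj⟩ (by simpa [Fin.lt_def] using hij)
  · have h1 := hcol (fun _ => univ.filter (fun j : Fin m => (j : ℕ) ∈ I)) (by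
      intro _
      obtain ⟨i, hi⟩ := hn
      exact ⟨⟨i, mem_range.1 (hI hi)⟩, by simp [hi]⟩) (by
      intro l l' hll
      exact absurd hll (by rw [Subsingleton.elim l l']; exact lt_irrefl _))
    rw [← h1]
    congr 1
    ext x
    simp only [mem_biUnion, mem_filter, mem_univ, true_and]
    constructor
    · rintro ⟨i, hi, hx⟩
      have him := mem_range.1 (hI hi)
      simp only [him, dif_pos] at hx
      exact ⟨⟨i, him⟩, hi, hx⟩
    · rintro ⟨j, hj, hx⟩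
      refine ⟨j, hj, ?_⟩
      simp only [j.2, dif_pos]
      exact hx

/-- every function of a class is small on a union of blocks of every long sequence -/
def TT (C : (ℤ → ℝ) → Prop) : Prop := ∀ ε : ℝ, 0 < ε → ∀ N : ℕ, ∃ r : ℕ,
  ∀ G : List (ℤ → ℝ), G.length ≤ N → (∀ g ∈ G, C g) → ∀ y : ℕ → ℤ,
    ∃ α : Finset ℕ, α ⊆ range r ∧ α.Nonempty ∧ ∀ g ∈ G, Small ε g (∑ i ∈ α, y i)

/-- the same for all unions of a chain -/
theorem TT.chain {C : (ℤ → ℝ) → Prop} (h : TT C) : ∀ ε : ℝ, 0 < ε → ∀ N m : ℕ, ∃ r : ℕ,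
    ∀ G : List (ℤ → ℝ), G.length ≤ N → (∀ g ∈ G, C g) → ∀ y : ℕ → ℤ,
    ∃ β : ℕ → Finset ℕ, Chain r m β ∧ ∀ I : Finset ℕ, I ⊆ range m → I.Nonempty →
      ∀ g ∈ G, Small ε g (∑ i ∈ I.biUnion β, y i) := by
  classical
  intro ε hε N m
  obtain ⟨r₁, hr₁⟩ := h ε hε N
  obtain ⟨r, hr⟩ := folk (max m r₁) 2
  refine ⟨r, fun G hG hC y => ?_⟩
  obtain ⟨β, hβ, col, hcol⟩ := hr (fun α => if ∀ g ∈ G, Small ε g (∑ i ∈ α, y i) then 1 else 0)
  obtain ⟨α, hα, hn, hs⟩ := hr₁ G hG hC (fun j => ∑ x ∈ β j, y x)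
  have hα' : α ⊆ range (max m r₁) := hα.trans (range_subset_range.2 (le_max_right _ _))
  have h1 : col = 1 := by
    rw [← hcol α hα' hn, if_pos]
    intro g hg
    rw [hβ.sum y hα']
    exact hs g hg
  refine ⟨β, hβ.le (le_max_left _ _), fun I hI hIn => ?_⟩
  have h2 := hcol I (hI.trans (range_subset_range.2 (le_max_left _ _))) hIn
  rw [h1] at h2
  by_contra hno
  rw [if_neg hno] at h2
  exact absurd h2 (by decide)

theorem close_of_box {Q : ℕ} (hQ : 0 < Q) {a b : ℝ}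
    (h : ⌊(Q : ℝ) * Int.fract a⌋₊ = ⌊(Q : ℝ) * Int.fract b⌋₊) :
    |a - b - ((⌊a⌋ - ⌊b⌋ : ℤ) : ℝ)| < 1 / Q := by
  have hQ' : (0 : ℝ) < Q := by exact_mod_cast hQ
  have h1 := Nat.floor_le (mul_nonneg hQ'.le (Int.fract_nonneg a))
  have h2 := Nat.lt_floor_add_one ((Q : ℝ) * Int.fract a)
  have h3 := Nat.floor_le (mul_nonneg hQ'.le (Int.fract_nonneg b))
  have h4 := Nat.lt_floor_add_one ((Q : ℝ) * Int.fract b)
  rw [h] at h1 h2
  have h5 : a - b - ((⌊a⌋ - ⌊b⌋ : ℤ) : ℝ) = Int.fract a - Int.fract b := by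
    rw [Int.fract, Int.fract]
    push_cast
    ring
  rw [h5, abs_lt, lt_div_iff₀ hQ', neg_lt, neg_sub, lt_div_iff₀ hQ']
  constructor <;> nlinarith

theorem step {d s : ℕ} (hd : ∀ s, TT (P d s)) (hs : TT (fun h => ∃ s', s' < s ∧ P (d + 1) s' h)) :
    TT (P (d + 1) s) := by
  classical
  intro ε hε N
  obtain ⟨Q, hQ⟩ : ∃ Q : ℕ, Q = ⌈8 / ε⌉₊ + 1 := ⟨_, rfl⟩
  have hQ0 : 0 < Q := by omega
  have hQε : 1 / (Q : ℝ) ≤ ε / 8 := by
    have h1 : 8 / ε ≤ Q := by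
      rw [hQ]
      push_cast
      linarith [Nat.le_ceil (8 / ε)]
    have hQ' : (0 : ℝ) < Q := by exact_mod_cast hQ0
    rw [div_le_iff₀ hε] at h1
    rw [div_le_iff₀ hQ']
    linarith
  obtain ⟨rd, hrd⟩ := hd (10 * s) (min (ε / 4) (1 / 8)) (by positivity) (N * (2 ^ s + 1))
  obtain ⟨r₂, hr₂⟩ := folk (rd + 1) (Fintype.card (Fin N → Fin Q))
  obtain ⟨r, hr⟩ := hs.chain (1 / 8) (by norm_num) (N * 2 ^ s) r₂
  refine ⟨r, fun G hG hP y => ?_⟩
  have hst := fun g : {g // g ∈ G} => structure_lemma (hP g.1 g.2)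
  choose Hs hHl hHs hder using hst
  -- the sub-functions
  obtain ⟨HH, hHH⟩ : ∃ HH : List (ℤ → ℝ), HH = G.attach.flatMap Hs := ⟨_, rfl⟩
  have hHHl : HH.length ≤ N * 2 ^ s := by
    rw [hHH, List.length_flatMap]
    have h1 : (List.map (fun a => (Hs a).length) G.attach).sum ≤
        (List.map (fun _ => 2 ^ s) G.attach).sum :=
      List.sum_le_sum fun g _ => hHl g
    refine h1.trans ?_
    rw [List.map_const', List.sum_replicate, List.length_attach, smul_eq_mul]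
    exact Nat.mul_le_mul_right _ hG
  have hHHC : ∀ h ∈ HH, ∃ s', s' < s ∧ P (d + 1) s' h := by
    intro h hh
    rw [hHH, List.mem_flatMap] at hh
    obtain ⟨g, -, hg⟩ := hh
    exact hHs g h hg
  obtain ⟨β, hβ, hβs⟩ := hr HH hHHl hHHC y
  -- the boxes
  obtain ⟨y₁, hy₁⟩ : ∃ y₁ : ℕ → ℤ, y₁ = fun j => ∑ x ∈ β j, y x := ⟨_, rfl⟩
  obtain ⟨e, -⟩ : ∃ e : (Fin N → Fin Q) ≃ Fin (Fintype.card (Fin N → Fin Q)), True :=
    ⟨Fintype.equivFin _, trivial⟩
  have hbox : ∀ t : ℝ, ⌊(Q : ℝ) * Int.fract t⌋₊ < Q := by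
    intro t
    rw [Nat.floor_lt (mul_nonneg (Nat.cast_nonneg _) (Int.fract_nonneg _))]
    have h1 := Int.fract_lt_one t
    have h2 : (0 : ℝ) < Q := by exact_mod_cast hQ0
    nlinarith
  obtain ⟨γ, hγ, col, hcol⟩ := hr₂ (fun α => e (fun i : Fin N =>
    ⟨⌊(Q : ℝ) * Int.fract ((G.getD i (fun _ => 0)) (∑ j ∈ α, y₁ j))⌋₊, hbox _⟩))
  obtain ⟨y₂, hy₂⟩ : ∃ y₂ : ℕ → ℤ, y₂ = fun j => ∑ x ∈ γ j, y₁ x := ⟨_, rfl⟩
  have hsame : ∀ I J : Finset ℕ, I ⊆ range (rd + 1) → J ⊆ range (rd + 1) → I.Nonempty →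
      J.Nonempty → ∀ g ∈ G, |g (∑ j ∈ I, y₂ j) - g (∑ j ∈ J, y₂ j) -
        ((⌊g (∑ j ∈ I, y₂ j)⌋ - ⌊g (∑ j ∈ J, y₂ j)⌋ : ℤ) : ℝ)| < 1 / Q := by
    intro I J hI hJ hIn hJn g hg
    have h1 := (hcol I hI hIn).trans (hcol J hJ hJn).symm
    have h2 := e.injective h1
    obtain ⟨i, hi, hig⟩ := List.getElem_of_mem hg
    have h3 := congrArg Fin.val (congrFun h2 ⟨i, by omega⟩)
    simp only [List.getD_eq_getElem _ _ hi, hig] at h3
    rw [hγ.sum y₁ hI, hγ.sum y₁ hJ] at h3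
    rw [hy₂]
    exact close_of_box hQ0 h3
  -- sums are sums over unions of the first chain
  have hsumeq : ∀ I : Finset ℕ, I ⊆ range (rd + 1) →
      ∑ j ∈ I, y₂ j = ∑ x ∈ (I.biUnion γ).biUnion β, y x := by
    intro I hI
    rw [hβ.sum y (hγ.union_subset hI)]
    have h1 := hγ.sum y₁ hI
    rw [hy₂]
    rw [← h1, hy₁]
  have hsum : ∀ I : Finset ℕ, I ⊆ range (rd + 1) → I.Nonempty →
      ∀ h ∈ HH, Small (1 / 8) h (∑ j ∈ I, y₂ j) := by
    intro I hI hIn h hh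
    rw [hsumeq I hI]
    exact hβs (I.biUnion γ) (hγ.union_subset hI) (hγ.union_nonempty hI hIn) h hh
  have h0 : ({0} : Finset ℕ) ⊆ range (rd + 1) := by
    rw [singleton_subset_iff, mem_range]; omega
  have hHmem : ∀ (g : {g // g ∈ G}), ∀ h ∈ Hs g, h ∈ HH := by
    intro g h hh
    rw [hHH, List.mem_flatMap]
    exact ⟨g, List.mem_attach _ _, hh⟩
  obtain ⟨n, hn⟩ : ∃ n : ℤ, n = ∑ j ∈ ({0} : Finset ℕ), y₂ j := ⟨_, rfl⟩
  have hder' := fun g : {g // g ∈ G} => hder g n (fun h hh => by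
    rw [hn]
    exact hsum {0} h0 (singleton_nonempty _) h (hHmem g h hh))
  choose gd L ha hb hc hid using hder'
  obtain ⟨DD, hDD⟩ : ∃ DD : List (ℤ → ℝ), DD = G.attach.flatMap (fun g => gd g :: L g) := ⟨_, rfl⟩
  have hDDl : DD.length ≤ N * (2 ^ s + 1) := by
    rw [hDD, List.length_flatMap]
    have h1 : (List.map (fun a => (gd a :: L a).length) G.attach).sum ≤
        (List.map (fun _ => 2 ^ s + 1) G.attach).sum :=
      List.sum_le_sum fun g _ => by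
        rw [List.length_cons]
        exact Nat.succ_le_succ (hb g)
    refine h1.trans ?_
    rw [List.map_const', List.sum_replicate, List.length_attach, smul_eq_mul]
    exact Nat.mul_le_mul_right _ hG
  have hDDmem : ∀ (g : {g // g ∈ G}), ∀ q ∈ gd g :: L g, q ∈ DD := by
    intro g q hq
    rw [hDD, List.mem_flatMap]
    exact ⟨g, List.mem_attach _ _, hq⟩
  obtain ⟨α, hα, hαn, hαs⟩ := hrd DD hDDl (by
    intro q hq
    rw [hDD, List.mem_flatMap] at hq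
    obtain ⟨g, -, hq⟩ := hq
    rcases List.mem_cons.1 hq with rfl | hq
    · exact ha g
    · exact hc g q hq) (fun j => y₂ (j + 1))
  obtain ⟨J, hJ⟩ : ∃ J : Finset ℕ, J = α.image (fun j => j + 1) := ⟨_, rfl⟩
  have hJsub : J ⊆ range (rd + 1) := by
    intro x hx
    rw [hJ, mem_image] at hx
    obtain ⟨i, hi, rfl⟩ := hx
    have := mem_range.1 (hα hi)
    exact mem_range.2 (by omega)
  have hJn : J.Nonempty := by
    rw [hJ]
    exact hαn.image _
  have h0J : 0 ∉ J := by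
    rw [hJ, mem_image]
    rintro ⟨i, -, hi⟩
    omega
  obtain ⟨m, hm⟩ : ∃ m : ℤ, m = ∑ j ∈ J, y₂ j := ⟨_, rfl⟩
  have hm' : ∑ i ∈ α, y₂ (i + 1) = m := by
    rw [hm, hJ, sum_image (fun a _ b _ hab => by simpa using hab)]
  have hnm : n + m = ∑ j ∈ insert 0 J, y₂ j := by
    rw [sum_insert h0J, hn, hm, sum_singleton]
  have hIns : insert 0 J ⊆ range (rd + 1) := by
    rw [insert_subset_iff]
    exact ⟨by rw [mem_range]; omega, hJsub⟩
  refine ⟨(({0} : Finset ℕ).biUnion γ).biUnion β, hβ.union_subset (hγ.union_subset h0),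
    hβ.union_nonempty (hγ.union_subset h0) (hγ.union_nonempty h0 (singleton_nonempty _)),
    fun g hg => ?_⟩
  rw [← hsumeq {0} h0, ← hn]
  have hid' := hid ⟨g, hg⟩ m (fun h hh => by
    rw [hm]
    exact hsum J hJsub hJn h (hHmem _ h hh)) (fun q hq => by
    have h1 := hαs q (hDDmem ⟨g, hg⟩ q (List.mem_cons_of_mem _ hq))
    rw [hm'] at h1
    exact h1.mono (min_le_right _ _))
  simp only at hid'
  have h1 := hαs (gd ⟨g, hg⟩) (hDDmem ⟨g, hg⟩ _ List.mem_cons_self)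
  rw [hm'] at h1
  have h2 : |gd ⟨g, hg⟩ m - round (gd ⟨g, hg⟩ m)| < ε / 4 := lt_of_lt_of_le h1 (min_le_left _ _)
  have h3 := hsame (insert 0 J) J hIns hJsub (insert_nonempty _ _) hJn g hg
  rw [← hnm, ← hm] at h3
  refine small_of ((⌊g (n + m)⌋ - ⌊g m⌋) - round (gd ⟨g, hg⟩ m)) ?_
  have h4 : g n - (((⌊g (n + m)⌋ - ⌊g m⌋) - round (gd ⟨g, hg⟩ m) : ℤ) : ℝ) =
      (g (n + m) - g m - ((⌊g (n + m)⌋ - ⌊g m⌋ : ℤ) : ℝ)) -
        (gd ⟨g, hg⟩ m - round (gd ⟨g, hg⟩ m)) := by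
    rw [hid']
    push_cast
    ring
  rw [h4]
  refine lt_of_le_of_lt (abs_sub _ _) ?_
  linarith

theorem TT.of_imp {C C' : (ℤ → ℝ) → Prop} (h : TT C) (h' : ∀ g, C' g → C g) : TT C' := by
  intro ε hε N
  obtain ⟨r, hr⟩ := h ε hε N
  exact ⟨r, fun G hG hC y => hr G hG (fun g hg => h' g (hC g hg)) y⟩

/-- **Bracket polynomials** without constant term are near to integers on a union of blocks of every
sequence of `r` integers; `r` does not depend on the coefficients. -/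
theorem all (d : ℕ) : ∀ s, TT (P d s) := by
  induction d with
  | zero =>
    intro s ε hε N
    refine ⟨1, fun G _ hC y => ⟨{0}, by simp, singleton_nonempty _, fun g hg => ?_⟩⟩
    rw [(hC g hg).eq_zero rfl]
    unfold Small
    simpa using hε
  | succ d ih =>
    intro s
    induction s using Nat.strong_induction_on with
    | _ s ihs =>
      refine step ih ?_
      rcases Nat.eq_zero_or_pos s with h0 | h0
      · intro ε hε N
        refine ⟨1, fun G _ hC y => ⟨{0}, by simp, singleton_nonempty _, fun g hg => ?_⟩⟩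
        obtain ⟨s', h1, -⟩ := hC g hg
        omega
      · refine (ihs (s - 1) (by omega)).of_imp ?_
        rintro g ⟨s', h1, h2⟩
        exact h2.mono le_rfl (by omega)

end Pool.Agent.J4.H12.BK
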