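import Mathlib
import Pool.Agent.Y613.PJ.Pet

/-!
Monochromatic sets of multiples by values of monomials with polynomial exponents: a finite
multiplicative form of the polynomial Hales-Jewett theorem.
-/

set_option autoImplicit false

namespace Pool.Agent.J4.H12.GG

open Finset
open Pool.Agent.Y613.PJ

/-- the polynomial Hales-Jewett theorem with arbitrary letters on all shapes -/
theorem phj (D : ℕ) (hD : 1 ≤ D) (Λ κ : Type) [Finite Λ] [Nonempty Λ] [Finite κ] :
    ∃ (ι : Type) (_ : Finite ι), ∀ χ : Board D ι Λ → κ, ∃ (a : Board D ι Λ) (γ : Set ι),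
      γ.Nonempty ∧ ∀ v : Finset (Fin D) → Λ, χ (move a γ v) = χ a := by
  classical
  obtain ⟨t₀⟩ := ‹Nonempty Λ›
  obtain ⟨ι, hι, h⟩ := pet D _ Λ κ (fun _ => t₀) (fun _ => Set.univ) rfl
  refine ⟨ι, hι, fun χ => ?_⟩
  obtain ⟨a, γ, h1, -, h3⟩ := h χ
  refine ⟨a, γ, h1, fun v => h3 v ⟨D, hD, le_rfl, fun J hJ => ?_, v, Set.mem_univ _, fun _ _ => rfl⟩⟩
  have := Finset.card_le_univ J
  rw [Fintype.card_fin] at this
  omega

section Count

variable {D : ℕ} {ι : Type} [Fintype ι] [DecidableEq ι]

open Classical in
/-- the number of the cells of a given shape with entries in `γ` -/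
theorem card_cells (γ : Set ι) (J : Finset (Fin D)) :
    #(univ.filter fun x : Cell D ι => shape x = J ∧ In γ x) = γ.ncard ^ #J := by
  have h1 : (univ.filter fun x : Cell D ι => shape x = J ∧ In γ x) =
      Fintype.piFinset (fun i => if i ∈ J then (univ.filter (fun y => y ∈ γ)).image some
        else ({none} : Finset (Option ι))) := by
    ext x
    rw [mem_filter, Fintype.mem_piFinset]
    constructor
    · rintro ⟨-, rfl, h⟩ i
      rcases hx : x i with _ | y
      · have h2 : i ∉ shape x := by
          rw [mem_shape]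
          rintro ⟨y, hy⟩
          rw [hx] at hy
          cases hy
        rw [if_neg h2]
        simp
      · have h2 : i ∈ shape x := mem_shape.2 ⟨y, hx⟩
        rw [if_pos h2, mem_image]
        exact ⟨y, by
          rw [mem_filter]
          exact ⟨mem_univ _, h i y (by rw [hx]; rfl)⟩, rfl⟩
    · intro h
      refine ⟨mem_univ _, ?_, ?_⟩
      · ext i
        rw [mem_shape]
        have h2 := h i
        split_ifs at h2 with h3
        · obtain ⟨y, -, hy⟩ := mem_image.1 h2
          exact ⟨fun _ => h3, fun _ => ⟨y, hy.symm⟩⟩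
        · rw [mem_singleton] at h2
          rw [h2]
          constructor
          · rintro ⟨y, hy⟩
            cases hy
          · intro h4
            exact absurd h4 h3
      · intro i y hy
        have h2 := h i
        have hy' : x i = some y := hy
        rw [hy'] at h2
        split_ifs at h2 with h3
        · obtain ⟨z, hz, hzy⟩ := mem_image.1 h2
          cases hzy
          exact (mem_filter.1 hz).2
        · simp at h2
  rw [h1, Fintype.card_piFinset]
  have h2 : ∀ i : Fin D, #(if i ∈ J then (univ.filter (fun y => y ∈ γ)).image some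
        else ({none} : Finset (Option ι))) = if i ∈ J then γ.ncard else 1 := by
    intro i
    split_ifs
    · rw [card_image_of_injective _ (Option.some_injective _), Set.ncard_eq_toFinset_card']
      congr 1
      ext y
      simp
    · exact card_singleton _
  rw [prod_congr rfl fun i _ => h2 i, prod_ite, prod_const, prod_const_one, mul_one]
  congr 2
  ext i
  simp

open Classical in
/-- the product of the letters of the live cells -/
theorem prod_live (γ : Set ι) (g : Finset (Fin D) → ℚ) :
    ∏ x : Cell D ι, (if Live γ x then g (shape x) else 1) =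
      ∏ J : Finset (Fin D), (if J = ∅ then 1 else g J ^ (γ.ncard ^ #J)) := by
  rw [← prod_fiberwise_of_maps_to (s := (univ : Finset (Cell D ι)))
    (t := (univ : Finset (Finset (Fin D)))) (g := fun x => shape x) (fun x _ => mem_univ _)]
  refine prod_congr rfl fun J _ => ?_
  split_ifs with hJ
  · refine prod_eq_one fun x hx => ?_
    rw [mem_filter] at hx
    rw [if_neg]
    rintro ⟨h1, -⟩
    rw [hx.2, hJ] at h1
    exact not_nonempty_empty h1
  · have h1 : ∀ x ∈ univ.filter (fun x : Cell D ι => shape x = J),
        (if Live γ x then g (shape x) else 1) = if In γ x then g J else 1 := by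
      intro x hx
      rw [mem_filter] at hx
      have h2 : Live γ x ↔ In γ x := by
        unfold Live
        rw [hx.2]
        exact ⟨fun h => h.2, fun h => ⟨nonempty_iff_ne_empty.2 hJ, h⟩⟩
      rw [hx.2]
      by_cases h3 : In γ x
      · rw [if_pos (h2.2 h3), if_pos h3]
      · rw [if_neg (fun h => h3 (h2.1 h)), if_neg h3]
    rw [prod_congr rfl h1, prod_ite, prod_const, prod_const_one, mul_one, filter_filter,
      card_cells]

end Count

/-- the direction with the letter `u i` on the initial segment with the largest element `i` -/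
noncomputable def dir {D : ℕ} {Λ : Type} (one : Λ) (u : Fin D → Λ) : Finset (Fin D) → Λ :=
  Function.extend (fun i : Fin D => Finset.Iic i) u (fun _ => one)

theorem iic_inj {D : ℕ} : Function.Injective (fun i : Fin D => Finset.Iic i) := by
  intro i j h
  have h1 : i ∈ Finset.Iic j := by
    have : i ∈ Finset.Iic i := Finset.mem_Iic.2 le_rfl
    rw [show Finset.Iic i = Finset.Iic j from h] at this
    exact this
  have h2 : j ∈ Finset.Iic i := by
    have : j ∈ Finset.Iic j := Finset.mem_Iic.2 le_rfl
    rw [← show Finset.Iic i = Finset.Iic j from h] at this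
    exact this
  exact le_antisymm (Finset.mem_Iic.1 h1) (Finset.mem_Iic.1 h2)

theorem prod_dir {D : ℕ} {Λ : Type} (one : Λ) (val : Λ → ℚ) (hone : val one = 1)
    (u : Fin D → Λ) (s : ℕ) :
    ∏ J : Finset (Fin D), (if J = ∅ then 1 else val (dir one u J) ^ (s ^ #J)) =
      ∏ i : Fin D, val (u i) ^ (s ^ ((i : ℕ) + 1)) := by
  classical
  have h1 : ∏ J : Finset (Fin D), (if J = ∅ then 1 else val (dir one u J) ^ (s ^ #J)) =
      ∏ J ∈ (univ : Finset (Fin D)).image (fun i : Fin D => Finset.Iic i),
        (if J = ∅ then 1 else val (dir one u J) ^ (s ^ #J)) := by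
    symm
    refine prod_subset (subset_univ _) fun J _ hJ => ?_
    split_ifs
    · rfl
    · have h2 : dir one u J = one := by
        unfold dir
        rw [Function.extend_apply']
        rintro ⟨i, hi⟩
        exact hJ (mem_image.2 ⟨i, mem_univ _, hi⟩)
      rw [h2, hone, one_pow]
  rw [h1, prod_image (fun i _ j _ h => iic_inj h)]
  refine prod_congr rfl fun i _ => ?_
  have h3 : Finset.Iic i ≠ ∅ := by
    intro h
    have : i ∈ Finset.Iic i := Finset.mem_Iic.2 le_rfl
    rw [h] at this
    simp at this
  rw [if_neg h3, Fin.card_Iic]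
  unfold dir
  rw [iic_inj.extend_apply]

/-- **Multiplicative form.** For a finite set of positive rationals (in `Λ`, with the values `val`,
`one` being `1`) there are finitely many dilations `P a` by natural numbers such that for every
colouring of them there are `s` and `t` with all `t ∏ u_i ^ (s ^ (i+1))` among them and of one
colour. -/
theorem mult (D : ℕ) (hD : 1 ≤ D) (Λ κ : Type) [Finite Λ] [Finite κ] (one : Λ) (val : Λ → ℚ)
    (hone : val one = 1) (hval : ∀ v, 0 < val v) :
    ∃ (A : Type) (_ : Fintype A) (P : A → ℕ) (M : ℕ), (∀ a, 0 < P a ∧ P a ≤ M) ∧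
      ∀ χ : A → κ, ∃ (a₀ : A) (s : ℕ), 1 ≤ s ∧ s ≤ M ∧ ∀ u : Fin D → Λ, ∃ a : A,
        χ a = χ a₀ ∧ (P a : ℚ) = P a₀ * ∏ i : Fin D, val (u i) ^ (s ^ ((i : ℕ) + 1)) := by
  classical
  have : Nonempty Λ := ⟨one⟩
  obtain ⟨ι, hι, h⟩ := phj D hD Λ κ
  have := Fintype.ofFinite ι
  have := Fintype.ofFinite Λ
  -- common denominator
  obtain ⟨N, hN⟩ : ∃ N : ℕ, N = ∏ v : Λ, (val v).den := ⟨_, rfl⟩
  have hN0 : 0 < N := by
    rw [hN]
    exact prod_pos fun v _ => (val v).den_pos
  have hnn : ∀ v : Λ, ∃ n : ℕ, 0 < n ∧ (n : ℚ) = N * val v := by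
    intro v
    obtain ⟨q, hq⟩ : (val v).den ∣ N := by
      rw [hN]
      exact dvd_prod_of_mem _ (mem_univ v)
    have hnum : 0 < (val v).num := Rat.num_pos.2 (hval v)
    have hq0 : 0 < q := by
      rcases Nat.eq_zero_or_pos q with h0 | h0
      · rw [h0, mul_zero] at hq
        omega
      · exact h0
    refine ⟨q * (val v).num.toNat, Nat.mul_pos hq0 (by omega), ?_⟩
    have h1 : (((val v).num.toNat : ℕ) : ℚ) = ((val v).num : ℚ) := by
      have : (((val v).num.toNat : ℕ) : ℤ) = (val v).num := Int.toNat_of_nonneg hnum.le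
      exact_mod_cast this
    rw [hq]
    push_cast
    rw [h1]
    have h2 := Rat.num_div_den (val v)
    have h3 : ((val v).den : ℚ) ≠ 0 := by
      have := (val v).den_pos
      positivity
    have h4 := (div_eq_iff h3).1 h2
    rw [h4]
    ring
  choose nn hnn0 hnnv using hnn
  obtain ⟨P, hP⟩ : ∃ P : Board D ι Λ → ℕ, P = fun a => ∏ x : Cell D ι, nn (a x) := ⟨_, rfl⟩
  have hP0 : ∀ a, 0 < P a := by
    intro a
    rw [hP]
    exact prod_pos fun x _ => hnn0 _
  refine ⟨Board D ι Λ, inferInstance, P, (∑ a, P a) + Fintype.card ι, fun a => ⟨hP0 a, ?_⟩,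
    fun χ => ?_⟩
  · have := single_le_sum (f := P) (fun a _ => Nat.zero_le _) (mem_univ a)
    omega
  obtain ⟨a, γ, hγ, hmono⟩ := h χ
  have hval1 : ∀ v : Finset (Fin D) → Λ, (P (move a γ v) : ℚ) =
      P (move a γ (fun _ => one)) * ∏ x : Cell D ι, (if Live γ x then val (v (shape x)) else 1) := by
    intro v
    rw [hP]
    simp only
    push_cast
    rw [← prod_mul_distrib]
    refine prod_congr rfl fun x _ => ?_
    unfold move
    split_ifs with hx
    · rw [hnnv, hnnv, hone]
      ring
    · rw [mul_one]
  refine ⟨move a γ (fun _ => one), γ.ncard, ?_, ?_, fun u => ⟨move a γ (dir one u), ?_, ?_⟩⟩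
  · exact (Set.ncard_pos (Set.toFinite _)).2 hγ
  · have h1 : γ.ncard ≤ Fintype.card ι := by
      rw [← Nat.card_eq_fintype_card, ← Set.ncard_univ]
      exact Set.ncard_le_ncard (Set.subset_univ _) (Set.toFinite _)
    omega
  · rw [hmono, hmono]
  · rw [hval1, prod_live γ (fun J => val (dir one u J)), prod_dir one val hone]

end Pool.Agent.J4.H12.GG
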