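import Mathlib
import Pool.Agent.J4.H12.Bracket2
import Pool.Agent.J4.H12.GeoGaps1

/-!
Bracket polynomials along a chain on which their brackets are small are set polynomials.
-/

set_option autoImplicit false
set_option maxHeartbeats 1000000
set_option linter.unusedSectionVars false

namespace Pool.Agent.J4.H12.BK

open Finset

variable {ι : Type} [DecidableEq ι]

/-- the coefficients of a function of sets -/
noncomputable def mob (F : Finset ι → ℝ) : Finset ι → ℝ :=
  Finset.strongInduction (fun S ih => F S - ∑ T ∈ S.ssubsets.attach, ih T.1 (mem_ssubsets.1 T.2))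

theorem mob_eq (F : Finset ι → ℝ) (S : Finset ι) :
    mob F S = F S - ∑ T ∈ S.ssubsets, mob F T := by
  unfold mob
  rw [Finset.strongInduction_eq]
  congr 1
  exact sum_attach S.ssubsets (fun T => mob F T)

theorem sum_powerset_eq (u : Finset ι → ℝ) (S : Finset ι) :
    ∑ T ∈ S.powerset, u T = ∑ T ∈ S.ssubsets, u T + u S := by
  rw [ssubsets, sum_erase_add _ _ (mem_powerset_self S)]

theorem sum_mob (F : Finset ι → ℝ) (S : Finset ι) : ∑ T ∈ S.powerset, mob F T = F S := by
  rw [sum_powerset_eq, mob_eq F S]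
  ring

theorem mob_bound (F : Finset ι → ℝ) (δ : ℝ) (hδ : 0 ≤ δ) (hF : ∀ T, |F T| ≤ δ) (l : ℕ) :
    ∀ S : Finset ι, #S ≤ l → |mob F S| ≤ δ * (2 ^ l + 1) ^ #S := by
  intro S
  induction S using Finset.strongInduction with
  | H S ih =>
    intro hS
    rw [mob_eq]
    have h1 : |∑ T ∈ S.ssubsets, mob F T| ≤ ∑ T ∈ S.ssubsets, δ * (2 ^ l + 1) ^ (#S - 1) := by
      refine (abs_sum_le_sum_abs _ _).trans (sum_le_sum fun T hT => ?_)
      have hT' := mem_ssubsets.1 hT
      have hc := card_lt_card hT'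
      refine (ih T hT' (by omega)).trans ?_
      refine mul_le_mul_of_nonneg_left ?_ hδ
      exact pow_le_pow_right₀ (by linarith [pow_pos (show (0:ℝ) < 2 by norm_num) l]) (by omega)
    rw [sum_const, nsmul_eq_mul] at h1
    rcases Nat.eq_zero_or_pos #S with h0 | h0
    · rw [card_eq_zero] at h0
      rw [h0, card_empty, pow_zero, mul_one]
      have h2 : (∅ : Finset ι).ssubsets = ∅ := by
        rw [ssubsets, powerset_empty]
        rfl
      rw [h2, sum_empty, sub_zero]
      exact hF ∅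
    have h2 : (#S.ssubsets : ℝ) ≤ 2 ^ l := by
      have h3 : #S.ssubsets ≤ 2 ^ #S := by
        rw [← card_powerset]
        exact card_le_card (erase_subset _ _)
      have h4 : 2 ^ #S ≤ 2 ^ l := Nat.pow_le_pow_right (by norm_num) hS
      exact_mod_cast h3.trans h4
    have hq : (0 : ℝ) ≤ δ * (2 ^ l + 1) ^ (#S - 1) := by positivity
    have h5 : δ ≤ δ * (2 ^ l + 1) ^ (#S - 1) := by
      refine le_mul_of_one_le_right hδ ?_
      exact one_le_pow₀ (by linarith [pow_pos (show (0:ℝ) < 2 by norm_num) l])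
    calc |F S - ∑ T ∈ S.ssubsets, mob F T| ≤ |F S| + |∑ T ∈ S.ssubsets, mob F T| := abs_sub _ _
      _ ≤ δ * (2 ^ l + 1) ^ (#S - 1) + 2 ^ l * (δ * (2 ^ l + 1) ^ (#S - 1)) := by
        refine add_le_add ((hF S).trans h5) (h1.trans ?_)
        exact mul_le_mul_of_nonneg_right h2 hq
      _ = δ * (2 ^ l + 1) ^ (#S - 1 + 1) := by rw [pow_succ]; ring
      _ = δ * (2 ^ l + 1) ^ #S := by rw [Nat.sub_add_cancel h0]

/-- functions of sets of degree at most `d` which vanish at the empty set -/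
def SP (d : ℕ) (F : Finset ι → ℝ) : Prop :=
  ∃ u : Finset ι → ℝ, u ∅ = 0 ∧ (∀ S, d < #S → u S = 0) ∧ ∀ T, F T = ∑ S ∈ T.powerset, u S

theorem SP.zero (d : ℕ) : SP (ι := ι) d (fun _ => 0) := ⟨fun _ => 0, rfl, fun _ _ => rfl, by simp⟩

theorem SP.congr {d : ℕ} {F G : Finset ι → ℝ} (h : SP d F) (hFG : ∀ T, G T = F T) : SP d G := by
  obtain ⟨u, h1, h2, h3⟩ := h
  exact ⟨u, h1, h2, fun T => by rw [hFG, h3]⟩

theorem SP.mono {d d' : ℕ} {F : Finset ι → ℝ} (h : SP d F) (hd : d ≤ d') : SP d' F := by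
  obtain ⟨u, h1, h2, h3⟩ := h
  exact ⟨u, h1, fun S hS => h2 S (by omega), h3⟩

theorem SP.smul {d : ℕ} {F : Finset ι → ℝ} (a : ℝ) (h : SP d F) : SP d (fun T => a * F T) := by
  obtain ⟨u, h1, h2, h3⟩ := h
  refine ⟨fun S => a * u S, by simp [h1], fun S hS => by simp [h2 S hS], fun T => ?_⟩
  beta_reduce
  rw [h3, mul_sum]

theorem SP.add {d : ℕ} {F G : Finset ι → ℝ} (h : SP d F) (h' : SP d G) :
    SP d (fun T => F T + G T) := by
  obtain ⟨u, h1, h2, h3⟩ := h
  obtain ⟨v, g1, g2, g3⟩ := h'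
  refine ⟨fun S => u S + v S, by simp [h1, g1], fun S hS => by simp [h2 S hS, g2 S hS], fun T => ?_⟩
  beta_reduce
  rw [h3, g3, sum_add_distrib]

theorem SP.mul {d e : ℕ} {F G : Finset ι → ℝ} (h : SP d F) (h' : SP e G) :
    SP (d + e) (fun T => F T * G T) := by
  obtain ⟨u, h1, h2, h3⟩ := h
  obtain ⟨v, g1, g2, g3⟩ := h'
  refine ⟨fun S => ∑ p ∈ (S.powerset ×ˢ S.powerset).filter (fun p => p.1 ∪ p.2 = S),
    u p.1 * v p.2, ?_, fun S hS => ?_, fun T => ?_⟩
  · refine sum_eq_zero fun p hp => ?_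
    rw [mem_filter, mem_product, mem_powerset, subset_empty] at hp
    rw [hp.1.1, h1, zero_mul]
  · refine sum_eq_zero fun p hp => ?_
    rw [mem_filter] at hp
    have h4 : #S ≤ #p.1 + #p.2 := by
      rw [← hp.2]
      exact card_union_le _ _
    rcases Nat.lt_or_ge d #p.1 with h5 | h5
    · rw [h2 _ h5, zero_mul]
    · rw [g2 _ (by omega), mul_zero]
  · beta_reduce
    rw [h3, g3, sum_mul_sum, ← sum_product']
    rw [← sum_fiberwise_of_maps_to (s := T.powerset ×ˢ T.powerset) (t := T.powerset)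
      (g := fun p => p.1 ∪ p.2)]
    · refine sum_congr rfl fun S hS => sum_congr ?_ fun _ _ => rfl
      ext p
      rw [mem_powerset] at hS
      simp only [mem_filter, mem_product, mem_powerset]
      constructor
      · rintro ⟨-, h4⟩
        exact ⟨⟨by rw [← h4]; exact subset_union_left, by rw [← h4]; exact subset_union_right⟩, h4⟩
      · rintro ⟨⟨h4, h5⟩, h6⟩
        exact ⟨⟨h4.trans hS, h5.trans hS⟩, h6⟩
    · intro p hp
      rw [mem_product, mem_powerset, mem_powerset] at hp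
      exact mem_powerset.2 (union_subset hp.1 hp.2)

/-- the smallness needed for `l` blocks -/
noncomputable def del (l : ℕ) : ℝ := 1 / (2 * (2 ^ l + 1) ^ l)

theorem del_pos (l : ℕ) : 0 < del l := by
  unfold del
  positivity

theorem SP.near [Fintype ι] {d : ℕ} {F : Finset ι → ℝ} (h : SP d F)
    (hs : ∀ T, |F T - round (F T)| ≤ del (Fintype.card ι)) :
    SP d (fun T => (round (F T) : ℝ)) := by
  obtain ⟨u, h1, h2, h3⟩ := h
  obtain ⟨E, hE⟩ : ∃ E : Finset ι → ℝ, E = fun T => (round (F T) : ℝ) - F T := ⟨_, rfl⟩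
  obtain ⟨w, hw⟩ : ∃ w : Finset ι → ℝ, w = fun S => u S + mob E S := ⟨_, rfl⟩
  have hsum : ∀ T, (round (F T) : ℝ) = ∑ S ∈ T.powerset, w S := by
    intro T
    rw [hw, sum_add_distrib, ← h3, sum_mob, hE]
    ring
  have hint : ∀ S, ∃ z : ℤ, w S = z := by
    intro S
    induction S using Finset.strongInduction with
    | H S ih =>
      have h4 := hsum S
      rw [sum_powerset_eq] at h4
      choose z hz using ih
      refine ⟨round (F S) - ∑ T ∈ S.ssubsets.attach, z T.1 (mem_ssubsets.1 T.2), ?_⟩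
      push_cast
      rw [h4, ← sum_attach S.ssubsets w]
      have h5 : ∑ T ∈ S.ssubsets.attach, w T.1 =
          ∑ T ∈ S.ssubsets.attach, ((z T.1 (mem_ssubsets.1 T.2) : ℤ) : ℝ) :=
        sum_congr rfl fun T _ => hz T.1 (mem_ssubsets.1 T.2)
      rw [h5]
      ring
  have hEb : ∀ T, |E T| ≤ del (Fintype.card ι) := by
    intro T
    rw [hE]
    simp only
    rw [abs_sub_comm]
    exact hs T
  have hmob : ∀ S, |mob E S| < 1 := by
    intro S
    have h4 := mob_bound E (del (Fintype.card ι)) (del_pos _).le hEb (Fintype.card ι) S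
      (card_le_univ S)
    refine lt_of_le_of_lt h4 ?_
    have h5 : ((2 : ℝ) ^ (Fintype.card ι) + 1) ^ #S ≤ (2 ^ (Fintype.card ι) + 1) ^ Fintype.card ι :=
      pow_le_pow_right₀ (by linarith [pow_pos (show (0:ℝ) < 2 by norm_num) (Fintype.card ι)])
        (card_le_univ S)
    have h6 : (0 : ℝ) < (2 ^ (Fintype.card ι) + 1) ^ Fintype.card ι := by positivity
    calc del (Fintype.card ι) * (2 ^ Fintype.card ι + 1) ^ #S
        ≤ del (Fintype.card ι) * (2 ^ Fintype.card ι + 1) ^ Fintype.card ι :=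
          mul_le_mul_of_nonneg_left h5 (del_pos _).le
      _ = 1 / 2 := by
          unfold del
          field_simp
      _ < 1 := by norm_num
  refine ⟨w, ?_, fun S hS => ?_, hsum⟩
  · have h4 := hsum ∅
    rw [powerset_empty, sum_singleton] at h4
    rw [← h4, h3, powerset_empty, sum_singleton, h1, round_zero, Int.cast_zero]
  · obtain ⟨z, hz⟩ := hint S
    have h4 : |w S| < 1 := by
      rw [hw]
      simp only [h2 S hS, zero_add]
      exact hmob S
    rw [hz] at h4 ⊢
    have h5 : |z| < 1 := by exact_mod_cast h4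
    rw [Int.abs_lt_one_iff] at h5
    rw [h5, Int.cast_zero]

theorem SP.int {d : ℕ} {F : Finset ι → ℤ} (h : SP d (fun T => (F T : ℝ))) :
    ∃ v : Finset ι → ℤ, v ∅ = 0 ∧ (∀ S, d < #S → v S = 0) ∧ ∀ T, F T = ∑ S ∈ T.powerset, v S := by
  obtain ⟨u, h1, h2, h3⟩ := h
  beta_reduce at h3
  have hint : ∀ S, ∃ z : ℤ, u S = z := by
    intro S
    induction S using Finset.strongInduction with
    | H S ih =>
      have h4 := h3 S
      rw [sum_powerset_eq] at h4
      choose z hz using ih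
      refine ⟨F S - ∑ T ∈ S.ssubsets.attach, z T.1 (mem_ssubsets.1 T.2), ?_⟩
      push_cast
      rw [h4, ← sum_attach S.ssubsets u]
      have h5 : ∑ T ∈ S.ssubsets.attach, u T.1 =
          ∑ T ∈ S.ssubsets.attach, ((z T.1 (mem_ssubsets.1 T.2) : ℤ) : ℝ) :=
        sum_congr rfl fun T _ => hz T.1 (mem_ssubsets.1 T.2)
      rw [h5]
      ring
  choose v hv using hint
  refine ⟨v, ?_, fun S hS => ?_, fun T => ?_⟩
  · have h4 := hv ∅
    rw [h1] at h4
    exact_mod_cast h4.symm
  · have h4 := hv S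
    rw [h2 S hS] at h4
    exact_mod_cast h4.symm
  · have h4 := h3 T
    rw [sum_congr rfl fun S _ => hv S] at h4
    exact_mod_cast h4

/-- **Structure on chains.** -/
theorem sp_of_small {d s : ℕ} {g : ℤ → ℝ} (h : P d s g) :
    ∃ Hs : List (ℤ → ℝ), Hs.length ≤ 2 ^ s ∧ (∀ h ∈ Hs, P d s h) ∧
      ∀ (ι : Type) [Fintype ι] [DecidableEq ι] (z : ι → ℤ),
        (∀ h ∈ Hs, ∀ T : Finset ι, T.Nonempty → Small (del (Fintype.card ι)) h (∑ i ∈ T, z i)) →
        SP d (fun T : Finset ι => g (∑ i ∈ T, z i)) := by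
  induction h with
  | zero d s => exact ⟨[], by simp, by simp, fun ι _ _ z _ => SP.zero d⟩
  | var s =>
    refine ⟨[], by simp, by simp, fun ι _ _ z _ =>
      ⟨fun S => if #S = 1 then ((∑ i ∈ S, z i : ℤ) : ℝ) else 0, by simp, fun S hS => ?_,
        fun T => ?_⟩⟩
    · beta_reduce
      rw [if_neg (by omega)]
    · beta_reduce
      rw [← sum_filter]
      have h1 : (T.powerset.filter fun S => #S = 1) = T.image (fun i => ({i} : Finset ι)) := by
        ext S
        rw [mem_filter, mem_powerset, mem_image, card_eq_one]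
        constructor
        · rintro ⟨h1, a, rfl⟩
          exact ⟨a, singleton_subset_iff.1 h1, rfl⟩
        · rintro ⟨a, ha, rfl⟩
          exact ⟨singleton_subset_iff.2 ha, a, rfl⟩
      rw [h1, sum_image (fun a _ b _ hab => by simpa using hab)]
      push_cast
      simp
  | @smul d s g a hg ih =>
    obtain ⟨Hs, hl, hH, h⟩ := ih
    exact ⟨Hs, hl.trans (Nat.pow_le_pow_right (by norm_num) (Nat.le_succ s)),
      fun q hq => (hH q hq).mono le_rfl (Nat.le_succ s), fun ι _ _ z hz => (h ι z hz).smul a⟩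
  | @add d s g1 g2 hg1 hg2 ih1 ih2 =>
    obtain ⟨H1, hl1, hH1, h1⟩ := ih1
    obtain ⟨H2, hl2, hH2, h2⟩ := ih2
    refine ⟨H1 ++ H2, by rw [List.length_append, pow_succ]; omega, fun h hh => ?_,
      fun ι _ _ z hz => ?_⟩
    · rcases List.mem_append.1 hh with hh | hh
      · exact (hH1 h hh).mono le_rfl (Nat.le_succ s)
      · exact (hH2 h hh).mono le_rfl (Nat.le_succ s)
    · exact (h1 ι z fun h hh => hz h (List.mem_append_left _ hh)).add
        (h2 ι z fun h hh => hz h (List.mem_append_right _ hh))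
  | @mul d e s g1 g2 hg1 hg2 ih1 ih2 =>
    obtain ⟨H1, hl1, hH1, h1⟩ := ih1
    obtain ⟨H2, hl2, hH2, h2⟩ := ih2
    refine ⟨H1 ++ H2, by rw [List.length_append, pow_succ]; omega, fun h hh => ?_,
      fun ι _ _ z hz => ?_⟩
    · rcases List.mem_append.1 hh with hh | hh
      · exact (hH1 h hh).mono (by omega) (Nat.le_succ s)
      · exact (hH2 h hh).mono (by omega) (Nat.le_succ s)
    · exact ((h1 ι z fun h hh => hz h (List.mem_append_left _ hh)).mul
        (h2 ι z fun h hh => hz h (List.mem_append_right _ hh))).mono (by omega)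
  | @near d s g hg ih =>
    obtain ⟨Hs, hl, hH, h⟩ := ih
    refine ⟨g :: Hs, ?_, fun q hq => ?_, fun ι _ _ z hz => ?_⟩
    · rw [List.length_cons, pow_succ]
      have := Nat.one_le_two_pow (n := s)
      omega
    · rcases List.mem_cons.1 hq with rfl | hq
      · exact hg.mono le_rfl (Nat.le_succ s)
      · exact (hH q hq).mono le_rfl (Nat.le_succ s)
    · have h1 := h ι z fun h hh => hz h (List.mem_cons_of_mem _ hh)
      refine h1.near fun T => ?_
      rcases T.eq_empty_or_nonempty with rfl | hT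
      · obtain ⟨u, g1, -, g3⟩ := h1
        have h4 := g3 ∅
        rw [powerset_empty, sum_singleton, g1] at h4
        beta_reduce at h4
        rw [h4, round_zero, Int.cast_zero, sub_zero, abs_zero]
        exact (del_pos _).le
      · exact (hz g List.mem_cons_self T hT).le
  | @mono d d' s s' g hg hd hs ih =>
    obtain ⟨Hs, hl, hH, h⟩ := ih
    exact ⟨Hs, hl.trans (Nat.pow_le_pow_right (by norm_num) hs),
      fun q hq => (hH q hq).mono hd hs, fun ι _ _ z hz => (h ι z hz).mono hd⟩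

end Pool.Agent.J4.H12.BK
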