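import Mathlib
import Pool.Agent.J4.H12.Bracket3
import Pool.Agent.Y898.MTC

/-!
Van der Waerden's theorem for bracket polynomials, with uniform constants.
-/

set_option autoImplicit false
set_option maxHeartbeats 1000000

namespace Pool.Agent.J4.H12.BK

open Finset
open Pool.Agent.Y613.PJ (Cell Board shape Live In move mem_shape)
open Pool.Agent.TH709.RGap (Dense box mem_box)

theorem exists_cell {ι : Type} (D : ℕ) (S : Finset ι) : ∃ x : Cell D ι, S.Nonempty → #S ≤ D →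
    ∀ γ : Set ι, Live γ x ↔ ∀ i ∈ S, i ∈ γ := by
  classical
  by_cases hS : S.Nonempty ∧ #S ≤ D
  swap
  · exact ⟨fun _ => none, fun h1 h2 => absurd ⟨h1, h2⟩ hS⟩
  obtain ⟨hn, hc⟩ := hS
  have f : Fin #S ≃ S := (Finset.equivFin S).symm
  refine ⟨fun i => if h : (i : ℕ) < #S then some (f ⟨i, h⟩).1 else none, fun _ _ γ => ?_⟩
  have hpos : 0 < #S := card_pos.2 hn
  constructor
  · rintro ⟨-, h⟩ i hi
    obtain ⟨t, ht⟩ := f.surjective ⟨i, hi⟩
    refine h ⟨t, by have := t.2; omega⟩ i ?_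
    have h1 : (t : ℕ) < #S := t.2
    simp only [Option.mem_def, h1, dif_pos, Option.some_inj]
    have h2 : (⟨(t : ℕ), h1⟩ : Fin #S) = t := rfl
    rw [h2, ht]
  · intro h
    refine ⟨⟨⟨0, by omega⟩, ?_⟩, fun i y hy => ?_⟩
    · rw [mem_shape]
      simp only [hpos, dif_pos]
      exact ⟨_, rfl⟩
    · rw [Option.mem_def] at hy
      beta_reduce at hy
      split_ifs at hy with h1
      rw [Option.some_inj] at hy
      rw [← hy]
      exact h _ (f ⟨i, h1⟩).2

/-- **Van der Waerden's theorem for bracket polynomials.** -/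
theorem vdw (D s Nq N e K : ℕ) (ε : ℝ) (hε : 0 < ε) : ∃ (r : ℕ) (η : ℝ), 0 < η ∧
    ∀ Q : List (ℤ → ℝ), Q.length ≤ Nq → (∀ q ∈ Q, P D s q) →
    ∀ G : Fin N → ℤ → (Fin e → ℤ), (∀ j i, P D s (fun n => (G j n i : ℝ))) →
    ∀ (Ψ : (Fin e → ℤ) → Fin K) (y : ℕ → ℤ), ∃ α : Finset ℕ, α ⊆ range r ∧ α.Nonempty ∧
      (∀ q ∈ Q, Small ε q (∑ i ∈ α, y i)) ∧
      Dense {a : Fin e → ℤ | ∀ j, Ψ (a + G j (∑ i ∈ α, y i)) = Ψ a} η := by
  classical
  obtain ⟨ι, hι, hphj⟩ := Pool.Agent.J4.H12.GG.phj (D + 1) (by omega) (Option (Fin N)) (Fin K)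
  have := Fintype.ofFinite ι
  obtain ⟨l, hl⟩ : ∃ l, l = Fintype.card ι := ⟨_, rfl⟩
  obtain ⟨r, hr⟩ := (all D s).chain (min ε (del l)) (lt_min hε (del_pos l))
    (Nq + N * e * 2 ^ s) l
  obtain ⟨M, hM⟩ : ∃ M : ℕ, M = Fintype.card (Board (D + 1) ι (Option (Fin N))) + 1 := ⟨_, rfl⟩
  obtain ⟨T, hT⟩ : ∃ T : ℕ, T = Fintype.card ((range r).powerset : Finset (Finset ℕ)) := ⟨_, rfl⟩
  have hT0 : 0 < T := by
    rw [hT]
    have : Nonempty ((range r).powerset : Finset (Finset ℕ)) := ⟨⟨∅, by simp⟩⟩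
    exact Fintype.card_pos
  have hM0 : 0 < M := by omega
  refine ⟨r, 1 / (2 * M * T), by positivity, fun Q hQ hQP G hG Ψ y => ?_⟩
  -- the brackets
  have hst := fun p : Fin N × Fin e => sp_of_small (hG p.1 p.2)
  choose Hs hHl hHs hSP using hst
  obtain ⟨HH, hHH⟩ : ∃ HH : List (ℤ → ℝ), HH = Q ++ (univ : Finset (Fin N × Fin e)).toList.flatMap Hs :=
    ⟨_, rfl⟩
  have hHHl : HH.length ≤ Nq + N * e * 2 ^ s := by
    rw [hHH, List.length_append, List.length_flatMap]
    refine add_le_add hQ ?_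
    have h1 : (List.map (fun a => (Hs a).length) (univ : Finset (Fin N × Fin e)).toList).sum ≤
        (List.map (fun _ => 2 ^ s) (univ : Finset (Fin N × Fin e)).toList).sum :=
      List.sum_le_sum fun g _ => hHl g
    refine h1.trans ?_
    rw [List.map_const', List.sum_replicate, length_toList, smul_eq_mul, card_univ,
      Fintype.card_prod, Fintype.card_fin, Fintype.card_fin]
  have hHHC : ∀ h ∈ HH, P D s h := by
    intro h hh
    rw [hHH, List.mem_append, List.mem_flatMap] at hh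
    rcases hh with hh | ⟨g, -, hg⟩
    · exact hQP h hh
    · exact hHs g h hg
  have hHmem : ∀ p, ∀ h ∈ Hs p, h ∈ HH := by
    intro p h hh
    rw [hHH, List.mem_append, List.mem_flatMap]
    exact Or.inr ⟨p, mem_toList.2 (mem_univ _), hh⟩
  obtain ⟨β, hβ, hβs⟩ := hr HH hHHl hHHC y
  obtain ⟨f, -⟩ : ∃ f : ι ≃ Fin l, True := by
    rw [hl]
    exact ⟨Fintype.equivFin ι, trivial⟩
  obtain ⟨z, hz⟩ : ∃ z : ι → ℤ, z = fun i => ∑ x ∈ β (f i), y x := ⟨_, rfl⟩
  obtain ⟨A, hA⟩ : ∃ A : Finset ι → Finset ℕ, A = fun T =>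
      (T.image (fun i => (f i : ℕ))).biUnion β := ⟨_, rfl⟩
  have hsub : ∀ T : Finset ι, T.image (fun i => (f i : ℕ)) ⊆ range l := by
    intro T x hx
    obtain ⟨i, -, rfl⟩ := mem_image.1 hx
    exact mem_range.2 (f i).2
  have hAsum : ∀ T : Finset ι, ∑ x ∈ A T, y x = ∑ i ∈ T, z i := by
    intro T
    rw [hA, hz]
    simp only
    rw [hβ.sum y (hsub T), sum_image]
    intro a _ b _ hab
    exact f.injective (Fin.ext hab)
  have hAn : ∀ T : Finset ι, T.Nonempty → (A T).Nonempty := by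
    intro T hT
    rw [hA]
    exact hβ.union_nonempty (hsub T) (hT.image _)
  have hAr : ∀ T : Finset ι, A T ⊆ range r := by
    intro T
    rw [hA]
    exact hβ.union_subset (hsub T)
  have hsm : ∀ T : Finset ι, T.Nonempty → ∀ h ∈ HH, Small (min ε (del l)) h (∑ i ∈ T, z i) := by
    intro T hT h hh
    rw [← hAsum T, hA]
    exact hβs _ (hsub T) (hT.image _) h hh
  have hint : ∀ p : Fin N × Fin e, ∃ v : Finset ι → ℤ, v ∅ = 0 ∧ (∀ S, D < #S → v S = 0) ∧
      ∀ T, G p.1 (∑ i ∈ T, z i) p.2 = ∑ S ∈ T.powerset, v S := by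
    intro p
    refine SP.int (F := fun T => G p.1 (∑ i ∈ T, z i) p.2) (hSP p ι z fun h hh T hT => ?_)
    rw [← hl]
    exact (hsm T hT h (hHmem p h hh)).mono (min_le_right _ _)
  choose v hv0 hvD hvsum using hint
  choose cell hcell using fun S : Finset ι => exists_cell (D + 1) S
  obtain ⟨U, hU⟩ : ∃ U : Option (Fin N) → Finset ι → (Fin e → ℤ), U = fun o S i =>
      o.elim 0 (fun j => v (j, i) S) := ⟨_, rfl⟩
  obtain ⟨W, hW⟩ : ∃ W : Finset (Finset ι), W = univ.filter (fun S => S.Nonempty ∧ #S ≤ D + 1) :=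
    ⟨_, rfl⟩
  obtain ⟨Φ, hΦ⟩ : ∃ Φ : Board (D + 1) ι (Option (Fin N)) → (Fin e → ℤ), Φ = fun a =>
      ∑ S ∈ W, U (a (cell S)) S := ⟨_, rfl⟩
  have hlive : ∀ S ∈ W, ∀ γ : Set ι, Live γ (cell S) ↔ S ⊆ univ.filter (fun i => i ∈ γ) := by
    intro S hS γ
    rw [hW, mem_filter] at hS
    rw [hcell S hS.2.1 hS.2.2 γ]
    constructor
    · intro h i hi
      exact mem_filter.2 ⟨mem_univ _, h i hi⟩
    · intro h i hi
      exact (mem_filter.1 (h hi)).2
  have hmove : ∀ (a : Board (D + 1) ι (Option (Fin N))) (γ : Set ι) (j : Fin N),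
      Φ (move a γ (fun _ => some j)) = Φ (move a γ (fun _ => none)) +
        G j (∑ i ∈ univ.filter (fun i => i ∈ γ), z i) := by
    intro a γ j
    have h1 : G j (∑ i ∈ univ.filter (fun i => i ∈ γ), z i) =
        ∑ S ∈ W, if S ⊆ univ.filter (fun i => i ∈ γ) then (fun i => v (j, i) S) else 0 := by
      funext i
      have h2 := hvsum (j, i) (univ.filter (fun i => i ∈ γ))
      simp only at h2
      rw [h2, Finset.sum_apply]
      have h3 : ∀ S ∈ W, (if S ⊆ univ.filter (fun i => i ∈ γ) then (fun i => v (j, i) S) else 0) i =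
          if S ⊆ univ.filter (fun i => i ∈ γ) then v (j, i) S else 0 := by
        intro S _
        split_ifs <;> rfl
      rw [sum_congr rfl h3, ← sum_filter]
      symm
      refine sum_subset ?_ ?_
      · intro S hS
        exact mem_powerset.2 (mem_filter.1 hS).2
      · intro S hS hS'
        rw [mem_filter, hW, mem_filter] at hS'
        rcases S.eq_empty_or_nonempty with rfl | hSn
        · exact hv0 _
        · refine hvD _ _ ?_
          by_contra hle
          exact hS' ⟨⟨mem_univ _, hSn, by omega⟩, mem_powerset.1 hS⟩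
    rw [h1, hΦ]
    simp only
    rw [← sum_add_distrib]
    refine sum_congr rfl fun S hS => ?_
    unfold move
    by_cases h4 : Live γ (cell S)
    · rw [if_pos h4, if_pos h4, if_pos ((hlive S hS γ).1 h4), hU]
      funext i
      simp
    · rw [if_neg h4, if_neg h4, if_neg (fun h5 => h4 ((hlive S hS γ).2 h5)), add_zero]
  -- the cover
  obtain ⟨R, hR⟩ : ∃ R : ((range r).powerset : Finset (Finset ℕ)) → Set (Fin e → ℤ), R = fun t =>
      {a | t.1.Nonempty ∧ (∀ q ∈ Q, Small ε q (∑ i ∈ t.1, y i)) ∧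
        ∀ j, Ψ (a + G j (∑ i ∈ t.1, y i)) = Ψ a} := ⟨_, rfl⟩
  obtain ⟨t, ht⟩ := Pool.Agent.Y898.Den.dense_of_cover (univ.image Φ) M hM0
    (card_image_le.trans (by rw [card_univ, hM]; omega))
    ((range r).powerset : Finset (Finset ℕ)) T (le_of_eq hT.symm) R (by
      intro b
      obtain ⟨a, γ, hγ, hmono⟩ := hphj (fun a => Ψ (b + Φ a))
      have hne : (univ.filter (fun i => i ∈ γ)).Nonempty := by
        obtain ⟨i, hi⟩ := hγ
        exact ⟨i, mem_filter.2 ⟨mem_univ _, hi⟩⟩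
      refine ⟨Φ (move a γ (fun _ => none)), mem_image_of_mem _ (mem_univ _),
        ⟨A (univ.filter (fun i => i ∈ γ)), mem_powerset.2 (hAr _)⟩, ?_⟩
      rw [hR]
      refine ⟨hAn _ hne, fun q hq => ?_, fun j => ?_⟩
      · rw [hAsum]
        refine (hsm _ hne q ?_).mono (min_le_left _ _)
        rw [hHH]
        exact List.mem_append_left _ hq
      · rw [hAsum, add_assoc, ← hmove a γ j]
        exact (hmono _).trans (hmono _).symm)
  have hne : (R t).Nonempty := by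
    obtain ⟨N', hN', x, hx⟩ := ht 1
    by_contra hcon
    rw [Set.not_nonempty_iff_eq_empty] at hcon
    rw [hcon] at hx
    simp only [Set.mem_empty_iff_false, false_and, Set.ofPred_false, Set.ncard_empty,
      Nat.cast_zero] at hx
    have hN0 : (0 : ℝ) < N' := by exact_mod_cast hN'
    have hT0' : (0 : ℝ) < T := by exact_mod_cast hT0
    have hM0' : (0 : ℝ) < M := by exact_mod_cast hM0
    have : 0 < 1 / (2 * (M : ℝ) * T) * (N' : ℝ) ^ e := by positivity
    linarith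
  obtain ⟨a, ha⟩ := hne
  rw [hR] at ha ht
  refine ⟨t.1, mem_powerset.1 t.2, ha.1, ha.2.1, ?_⟩
  intro L
  obtain ⟨N', hN', x, hx⟩ := ht L
  refine ⟨N', hN', x, hx.trans ?_⟩
  rw [Nat.cast_le]
  refine Set.ncard_le_ncard ?_ ?_
  · rintro z ⟨hz1, hz2⟩
    exact ⟨hz1.2.2, hz2⟩
  · refine (finite_toSet (box x N')).subset ?_
    rintro z ⟨-, hz⟩
    rw [mem_coe, mem_box]
    exact hz

end Pool.Agent.J4.H12.BK
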