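import Mathlib
import Pool.Agent.J4.H12.Bracket4
import Pool.Agent.Y898.MTC

/-!
Bracket polynomials at the sums of consecutive gaps between primes next to a record gap.
-/

set_option autoImplicit false
set_option maxHeartbeats 1000000

namespace Pool.Agent.J4.H12.BK

open Finset Filter
open Pool.Agent.H256R2.SC (ff)
open Pool.Agent.Y898.PolyGaps (Cl cl_finite)
open Pool.Agent.TH709.RGap (Dense)

theorem gaps (D s Nq N e K m : ℕ) (ε : ℝ) (hε : 0 < ε) : ∃ η : ℝ, 0 < η ∧ ∃ c C : ℝ, 0 < c ∧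
    0 < C ∧ ∀ᶠ x : ℝ in atTop, ∀ H : ℝ, 1 ≤ H → H ≤ c * ff x →
    ∀ Q : List (ℤ → ℝ), Q.length ≤ Nq → (∀ q ∈ Q, P D s q) →
    ∀ G : Fin N → ℤ → (Fin e → ℤ), (∀ j i, P D s (fun n => (G j n i : ℝ))) →
    ∀ (Ψ : (Fin e → ℤ) → Fin K),
    x ^ (7 / 8 : ℝ) ≤ (Set.ncard (Cl c C x H m (fun v => ∀ I : Finset (Fin m), I.Nonempty →
      (∀ q ∈ Q, Small ε q (∑ i ∈ I, v i)) ∧
      Dense {a : Fin e → ℤ | ∀ j, Ψ (a + G j (∑ i ∈ I, v i)) = Ψ a} η)) : ℝ) := by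
  classical
  obtain ⟨r, η, hη, hr⟩ := vdw D s Nq N e K ε hε
  obtain ⟨c, C, hc, hC, hx⟩ := Pool.Agent.Y898.PolyGaps.gaps_of_blocks 1 m r
  refine ⟨η, hη, c, C, hc, hC, ?_⟩
  filter_upwards [hx] with x hxx H hH hHc Q hQ hQP G hG Ψ
  have h1 := hxx H hH hHc (fun u => (∀ q ∈ Q, Small ε q (u 0)) ∧
      Dense {a : Fin e → ℤ | ∀ j, Ψ (a + G j (u 0)) = Ψ a} η) (by
    intro B hB y hy
    obtain ⟨α, hα, hαn, h2, h3⟩ := hr Q hQ hQP G hG Ψ (fun n => ((B * y n : ℕ) : ℤ))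
    exact ⟨fun _ => α, ⟨fun _ => ⟨hαn, hα⟩, fun l l' hll => absurd hll (by
      rw [Subsingleton.elim l l']; exact lt_irrefl _)⟩, h2, h3⟩)
  refine h1.trans ?_
  rw [Nat.cast_le]
  refine Set.ncard_le_ncard ?_ (cl_finite _ _ _ _ _ _)
  rintro n ⟨g1, g2, g3, g4, g5⟩
  refine ⟨g1, g2, g3, g4, fun I hI => ?_⟩
  exact g5 (fun _ => I) (fun _ => hI) (fun l l' hll => absurd hll (by
    rw [Subsingleton.elim l l']; exact lt_irrefl _))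

end Pool.Agent.J4.H12.BK
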