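import Mathlib
import Pool.Agent.Y898.MTC
import Pool.Agent.J4.H12.GeoGaps1

/-!
Sums of consecutive gaps between primes next to a record gap: monochromatic multiples by monomials
with polynomial exponents.
-/

set_option autoImplicit false
set_option maxHeartbeats 4000000

namespace Pool.Agent.J4.H12.GG

open Finset Filter
open Pool.Agent.H256R2.SC (ff)
open Pool.Agent.Y898.PR (Inc)
open Pool.Agent.Y898.PolyGaps (Cl cl_finite)

/-- the indices between two positions -/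
def seg (K : ℕ) (p q : ℕ) : Finset (Fin K) := univ.filter (fun j : Fin K => p ≤ (j : ℕ) ∧ (j : ℕ) < q)

theorem mem_seg {K p q : ℕ} {j : Fin K} : j ∈ seg K p q ↔ p ≤ (j : ℕ) ∧ (j : ℕ) < q := by
  unfold seg
  rw [mem_filter]
  exact ⟨fun h => h.2, fun h => ⟨mem_univ _, h⟩⟩

theorem sum_seg {K : ℕ} (β : Fin K → ℕ) (w : ℕ → ℕ) (hw : ∀ j : Fin K, w j = β j) {p q : ℕ}
    (hq : q ≤ K) : ∑ j ∈ seg K p q, β j = ∑ j ∈ Ico p q, w j := by
  symm
  refine sum_bij' (fun x hx => (⟨x, by rw [mem_Ico] at hx; omega⟩ : Fin K)) (fun i _ => (i : ℕ))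
    ?_ ?_ ?_ ?_ ?_
  · intro x hx
    rw [mem_seg]
    exact mem_Ico.1 hx
  · intro i hi
    exact mem_Ico.2 (mem_seg.1 hi)
  · intro x hx
    rfl
  · intro i hi
    rfl
  · intro x hx
    exact hw ⟨x, by rw [mem_Ico] at hx; omega⟩

theorem main (D : ℕ) (hD : 1 ≤ D) (V : Finset ℚ) (hV : ∀ v ∈ V, 0 < v) (k m ρ : ℕ) :
    ∃ c C : ℝ, 0 < c ∧ 0 < C ∧ ∃ S : ℕ, ∀ᶠ x : ℝ in atTop, ∀ H : ℝ, 1 ≤ H → H ≤ c * ff x →
    ∀ χ : (Fin k → ℤ) → Fin ρ, ∃ s : ℕ, 1 ≤ s ∧ s ≤ S ∧
    x ^ (7 / 8 : ℝ) ≤ (Set.ncard (Cl c C x H m (fun v =>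
      ∃ col, ∀ u : Fin D → ℚ, (∀ i, u i ∈ V) → ∀ I : Fin k → Finset (Fin m),
        (∀ l, (I l).Nonempty) → (∀ l l', l < l' → ∀ i ∈ I l, ∀ j ∈ I l', i < j) →
        ∃ z : Fin k → ℤ, (∀ l, (z l : ℚ) =
          (∏ i, u i ^ (s ^ ((i : ℕ) + 1))) * ∑ i ∈ I l, (v i : ℚ)) ∧ χ z = col)) : ℝ) := by
  classical
  obtain ⟨A, instA, P, M, hP, hmult⟩ := mult D hD {v // v ∈ insert (1 : ℚ) V} (Fin ρ)
    ⟨1, mem_insert_self _ _⟩ (fun v => v.1) rfl (by
      rintro ⟨v, hv⟩
      rcases mem_insert.1 hv with h | h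
      · change 0 < v
        rw [h]; exact one_pos
      · exact hV v h)
  obtain ⟨K, hK⟩ := Pool.Agent.Y898.Engine2.engine2 m
  obtain ⟨r, hr⟩ := Pool.Agent.Y898.MTC.mt_col k K (Fintype.card (A → Fin ρ))
  obtain ⟨ce, hce, hx⟩ := hK r
  obtain ⟨e, -⟩ : ∃ e : (A → Fin ρ) ≃ Fin (Fintype.card (A → Fin ρ)), True :=
    ⟨Fintype.equivFin _, trivial⟩
  refine ⟨ce / (2 * (M + 1)), 2 * K.factorial * (M + 1) * (K * r + 1), by positivity, by positivity,
    M, ?_⟩
  filter_upwards [hx] with x hxx H hH hHc χ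
  have hff : 0 ≤ ff x := by
    by_contra hneg
    push Not at hneg
    have h1 : 0 < ce / (2 * ((M : ℝ) + 1)) := by positivity
    nlinarith
  obtain ⟨h0, hh0⟩ : ∃ h : ℕ, h = ⌈H⌉₊ := ⟨_, rfl⟩
  have hh1 : 1 ≤ h0 := by
    rw [hh0]
    exact Nat.one_le_iff_ne_zero.2 (Nat.pos_iff_ne_zero.1 (Nat.ceil_pos.2 (by linarith)))
  have hhH : H ≤ h0 := by
    rw [hh0]
    exact Nat.le_ceil H
  have hh2 : (h0 : ℝ) ≤ 2 * H := by
    have h1 := Nat.ceil_lt_add_one (a := H) (by linarith)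
    rw [← hh0] at h1
    linarith
  obtain ⟨β, hβ, colΨ, hcol⟩ := hr (fun α => e (fun a =>
    χ (fun l => ((K.factorial * (h0 * P a) * (α l).card : ℕ) : ℤ))))
  obtain ⟨a0, s, hs1, hsM, hu⟩ := hmult (e.symm colΨ)
  obtain ⟨h, hh⟩ : ∃ h : ℕ, h = h0 * P a0 := ⟨_, rfl⟩
  have hPM : (P a0 : ℝ) ≤ M := by exact_mod_cast (hP a0).2
  have hP1 : (1 : ℝ) ≤ P a0 := by exact_mod_cast (hP a0).1
  have hh3 : 1 ≤ h := by
    rw [hh]
    exact Nat.mul_pos hh1 (hP a0).1
  have hh4 : (h : ℝ) ≤ 2 * H * (M + 1) := by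
    rw [hh]
    push_cast
    have : (0 : ℝ) ≤ 2 * H := by linarith
    nlinarith
  have hh5 : (h : ℝ) ≤ ce * ff x := by
    have h1 : H * (2 * (M + 1)) ≤ ce * ff x := by
      have h2 : ce / (2 * ((M : ℝ) + 1)) * ff x * (2 * (M + 1)) = ce * ff x := by
        field_simp
      rw [← h2]
      exact mul_le_mul_of_nonneg_right hHc (by positivity)
    linarith
  have hh6 : H ≤ h := by
    rw [hh]
    push_cast
    nlinarith
  obtain ⟨w, hw⟩ : ∃ w : ℕ → ℕ, w = fun i => if hi : i < K then (β ⟨i, hi⟩).card else 1 :=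
    ⟨_, rfl⟩
  have hwβ : ∀ j : Fin K, w j = (β j).card := by
    intro j
    rw [hw]
    simp only [j.2, dif_pos]
  have hwr : ∀ i < K, 0 < w i ∧ w i ≤ r := by
    intro i hi
    have h1 := hwβ ⟨i, hi⟩
    simp only at h1
    rw [h1]
    refine ⟨card_pos.2 (hβ.1 _).1, ?_⟩
    have h2 := card_le_card (hβ.1 ⟨i, hi⟩).2
    rwa [card_range] at h2
  refine ⟨s, hs1, hsM, (hxx h hh3 hh5 w hwr).trans ?_⟩
  rw [Nat.cast_le, ← Set.ncard_coe_finset]
  refine Set.ncard_le_ncard ?_ (cl_finite _ _ _ _ _ _)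
  intro n hn
  rw [mem_coe, mem_filter] at hn
  obtain ⟨-, hn0, h1, h2, a, ha, hak, hgap⟩ := hn
  have hmono : ∀ i j, i ≤ j → j ≤ m → a i ≤ a j := by
    intro i j hij
    induction j, hij using Nat.le_induction with
    | base => exact fun _ => le_rfl
    | succ t ht ih =>
      intro hmk
      exact (ih (by omega)).trans (ha t (by omega)).le
  have hgapr : ∀ i < m, (Nat.nth Nat.Prime (n + i + 1) : ℝ) - Nat.nth Nat.Prime (n + i) =
      ((K.factorial * h * ∑ j ∈ Ico (a i) (a (i + 1)), w j : ℕ) : ℝ) := by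
    intro i hi
    rw [← hgap i hi, Nat.cast_sub (Nat.nth_monotone Nat.infinite_setOfPred_prime (Nat.le_succ _))]
  refine ⟨hn0, h1, ?_, fun i hi => ?_, e.symm colΨ a0, fun u hu' I hI hII => ?_⟩
  · refine le_trans ?_ h2
    refine mul_le_mul_of_nonneg_right ?_ hff
    rw [div_le_iff₀ (by positivity)]
    nlinarith [Nat.cast_nonneg (α := ℝ) M]
  · rw [hgapr i hi]
    have hK1 : (1 : ℝ) ≤ K.factorial := by exact_mod_cast Nat.factorial_pos K
    have hlow : 1 ≤ ∑ j ∈ Ico (a i) (a (i + 1)), w j := by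
      have h3 : ∑ j ∈ Ico (a i) (a (i + 1)), 1 ≤ ∑ j ∈ Ico (a i) (a (i + 1)), w j :=
        sum_le_sum fun j hj => (hwr j (by
          have h4 := (mem_Ico.1 hj).2
          have h5 := hmono (i + 1) m hi le_rfl
          omega)).1
      rw [sum_const, Nat.card_Ico, smul_eq_mul, mul_one] at h3
      have := ha i hi
      omega
    have hhigh : ∑ j ∈ Ico (a i) (a (i + 1)), w j ≤ K * r := by
      have h3 : ∑ j ∈ Ico (a i) (a (i + 1)), w j ≤ ∑ j ∈ Ico (a i) (a (i + 1)), r :=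
        sum_le_sum fun j hj => (hwr j (by
          have h4 := (mem_Ico.1 hj).2
          have h5 := hmono (i + 1) m hi le_rfl
          omega)).2
      refine h3.trans ?_
      rw [sum_const, Nat.card_Ico, smul_eq_mul]
      have h5 := hmono (i + 1) m hi le_rfl
      exact Nat.mul_le_mul_right _ (by omega)
    constructor
    · push_cast
      have h3 : (1 : ℝ) ≤ ∑ j ∈ Ico (a i) (a (i + 1)), (w j : ℝ) := by exact_mod_cast hlow
      calc H ≤ (1 : ℝ) * h * 1 := by linarith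
        _ ≤ (K.factorial : ℝ) * h * ∑ j ∈ Ico (a i) (a (i + 1)), (w j : ℝ) := by gcongr
    · push_cast
      have h3 : ∑ j ∈ Ico (a i) (a (i + 1)), (w j : ℝ) ≤ K * r := by exact_mod_cast hhigh
      calc (K.factorial : ℝ) * h * ∑ j ∈ Ico (a i) (a (i + 1)), (w j : ℝ)
          ≤ (K.factorial : ℝ) * (2 * H * (M + 1)) * (K * r + 1) := by
            gcongr
            linarith
        _ = 2 * K.factorial * (M + 1) * (K * r + 1) * H := by ring
  · -- the colours
    obtain ⟨a', hχ, hPa⟩ := hu (fun i => ⟨u i, mem_insert_of_mem (hu' i)⟩)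
    simp only at hPa
    obtain ⟨J, hJ⟩ : ∃ J : Fin k → Finset (Fin K), J = fun l =>
      (I l).biUnion (fun i : Fin m => seg K (a i) (a (i + 1))) := ⟨_, rfl⟩
    have hJmem : ∀ l j, j ∈ J l ↔ ∃ i ∈ I l, a i ≤ (j : ℕ) ∧ (j : ℕ) < a (i + 1) := by
      intro l j
      rw [hJ]
      simp only [mem_biUnion, mem_seg]
    have h3 := hcol J (by
      intro l
      obtain ⟨i, hi⟩ := hI l
      have h4 := ha i i.2
      have h5 := hmono i m i.2.le le_rfl
      exact ⟨⟨a i, by omega⟩, (hJmem l _).2 ⟨i, hi, le_rfl, h4⟩⟩) (by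
      intro l l' hll j hj j' hj'
      obtain ⟨i, hi, hi1, hi2⟩ := (hJmem l j).1 hj
      obtain ⟨i', hi', hi1', hi2'⟩ := (hJmem l' j').1 hj'
      have h4 := hII l l' hll i hi i' hi'
      have h5 := hmono (i + 1) i' (by
        have := Fin.lt_def.1 h4
        omega) i'.2.le
      rw [Fin.lt_def]
      omega)
    have h4 := congrFun ((Equiv.symm_apply_eq e).2 h3.symm) a'
    rw [hχ] at h4
    refine ⟨_, fun l => ?_, h4.symm⟩
    have h5 : ((J l).biUnion β).card = ∑ i ∈ I l, ∑ j ∈ Ico (a i) (a (i + 1)), w j := by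
      rw [card_biUnion, hJ]
      · simp only
        rw [sum_biUnion]
        · refine sum_congr rfl fun i _ => ?_
          refine sum_seg (fun j => (β j).card) w hwβ ?_
          have := hmono (i + 1) m i.2 le_rfl
          omega
        · intro i _ i' _ hii
          rw [Function.onFun, Finset.disjoint_left]
          intro z hz hz'
          have h6 := mem_seg.1 hz
          have h7 := mem_seg.1 hz'
          rcases lt_or_gt_of_ne hii with hlt | hlt
          · have h8 := hmono (i + 1) i' (by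
              have := Fin.lt_def.1 hlt
              omega) i'.2.le
            omega
          · have h8 := hmono (i' + 1) i (by
              have := Fin.lt_def.1 hlt
              omega) i.2.le
            omega
      · intro i _ i' _ hii
        rw [Function.onFun, Finset.disjoint_left]
        intro z hz hz'
        rcases lt_or_gt_of_ne hii with hlt | hlt
        · exact absurd (hβ.2 i i' hlt z hz z hz') (lt_irrefl _)
        · exact absurd (hβ.2 i' i hlt z hz' z hz) (lt_irrefl _)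
    have h6 : ∀ i ∈ I l, ((((Nat.nth Nat.Prime (n + i + 1) : ℤ) - Nat.nth Nat.Prime (n + i) : ℤ)) : ℚ)
        = (K.factorial : ℚ) * (h0 * P a0) * (∑ j ∈ Ico (a i) (a (i + 1)), w j : ℕ) := by
      intro i _
      rw [← Nat.cast_sub (Nat.nth_monotone Nat.infinite_setOfPred_prime (Nat.le_succ _)),
        hgap i i.2, hh]
      push_cast
      rfl
    rw [h5, sum_congr rfl h6, ← mul_sum]
    push_cast
    rw [hPa]
    ring

end Pool.Agent.J4.H12.GG
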