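import Mathlib

/-!
The canonical theorem of Taylor for finite unions, derived from a homogeneity property.
-/

set_option autoImplicit false

namespace Pool.Agent.J4.H12.TC

open Finset

/-- all elements of `A` are less than all elements of `B` -/
def Lt (A B : Finset ℕ) : Prop := ∀ a ∈ A, ∀ b ∈ B, a < b

variable {S : Type}

/-- increasing `k`-tuples of nonempty subsets of `range N` -/
def Inc (N : ℕ) {k : ℕ} (F : Fin k → Finset ℕ) : Prop :=
  (∀ l, (F l).Nonempty ∧ F l ⊆ range N) ∧ ∀ l l', l < l' → Lt (F l) (F l')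

/-- the equalities between the values at unions of the sets of an increasing tuple do not depend on
the tuple -/
def Hom (f : Finset ℕ → S) (k N : ℕ) : Prop :=
  ∀ F F' : Fin k → Finset ℕ, Inc N F → Inc N F' → ∀ P Q : Finset (Fin k), P.Nonempty → Q.Nonempty →
    (f (P.biUnion F) = f (Q.biUnion F) ↔ f (P.biUnion F') = f (Q.biUnion F'))

/-- the same for functions on the natural numbers -/
def IncN (n N : ℕ) (G : ℕ → Finset ℕ) : Prop :=
  (∀ i < n, (G i).Nonempty ∧ G i ⊆ range N) ∧ ∀ i j, i < j → j < n → Lt (G i) (G j)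

theorem ext_aux {k n N0 : ℕ} (hn : n ≤ k) (G : ℕ → Finset ℕ) (hG : IncN n N0 G) :
    Inc (N0 + k) (fun l : Fin k => if (l : ℕ) < n then G l else {N0 + (l : ℕ)}) := by
  constructor
  · intro l
    by_cases hl : (l : ℕ) < n
    · simp only [if_pos hl]
      refine ⟨(hG.1 l hl).1, (hG.1 l hl).2.trans (range_subset_range.2 (Nat.le_add_right _ _))⟩
    · simp only [if_neg hl]
      refine ⟨singleton_nonempty _, ?_⟩
      rw [singleton_subset_iff, mem_range]
      omega
  · intro l l' hll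
    have hll' : (l : ℕ) < l' := hll
    by_cases hl : (l : ℕ) < n
    · by_cases hl' : (l' : ℕ) < n
      · simp only [if_pos hl, if_pos hl']
        exact hG.2 _ _ hll' hl'
      · simp only [if_pos hl, if_neg hl']
        intro a ha b hb
        have := mem_range.1 ((hG.1 l hl).2 ha)
        rw [mem_singleton] at hb
        omega
    · have hl' : ¬ (l' : ℕ) < n := by omega
      simp only [if_neg hl, if_neg hl']
      intro a ha b hb
      rw [mem_singleton] at ha hb
      omega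

theorem union_aux {k n N0 : ℕ} (hn : n ≤ k) (G : ℕ → Finset ℕ) (P : Finset ℕ) (hP : P ⊆ range n) :
    (univ.filter (fun l : Fin k => (l : ℕ) ∈ P)).biUnion
      (fun l : Fin k => if (l : ℕ) < n then G l else {N0 + (l : ℕ)}) = P.biUnion G := by
  ext y
  simp only [mem_biUnion, mem_filter, mem_univ, true_and]
  constructor
  · rintro ⟨l, hl, hy⟩
    rw [if_pos (mem_range.1 (hP hl))] at hy
    exact ⟨l, hl, hy⟩
  · rintro ⟨i, hi, hy⟩
    have hin := mem_range.1 (hP hi)
    refine ⟨⟨i, lt_of_lt_of_le hin hn⟩, hi, ?_⟩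
    rw [if_pos hin]
    exact hy

theorem hom_ext {f : Finset ℕ → S} {k N N0 : ℕ} (h : Hom f k N) (hN : N0 + k ≤ N) {n : ℕ}
    (hn : n ≤ k) (G G' : ℕ → Finset ℕ) (hG : IncN n N0 G) (hG' : IncN n N0 G')
    (P Q : Finset ℕ) (hP : P.Nonempty) (hQ : Q.Nonempty) (hPn : P ⊆ range n) (hQn : Q ⊆ range n) :
    (f (P.biUnion G) = f (Q.biUnion G) ↔ f (P.biUnion G') = f (Q.biUnion G')) := by
  have hne : ∀ P : Finset ℕ, P.Nonempty → P ⊆ range n →
      (univ.filter (fun l : Fin k => (l : ℕ) ∈ P)).Nonempty := by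
    rintro P ⟨i, hi⟩ hPn
    exact ⟨⟨i, lt_of_lt_of_le (mem_range.1 (hPn hi)) hn⟩, by simp [hi]⟩
  have hmono : ∀ {F : Fin k → Finset ℕ}, Inc (N0 + k) F → Inc N F := by
    intro F hF
    exact ⟨fun l => ⟨(hF.1 l).1, (hF.1 l).2.trans (range_subset_range.2 hN)⟩, hF.2⟩
  have := h _ _ (hmono (ext_aux hn G hG)) (hmono (ext_aux hn G' hG')) _ _ (hne P hP hPn)
    (hne Q hQ hQn)
  rwa [union_aux hn G P hPn, union_aux hn G Q hQn, union_aux hn G' P hPn,
    union_aux hn G' Q hQn] at this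

/-- the sequence `A, B` -/
def two (A B : Finset ℕ) (i : ℕ) : Finset ℕ := if i = 0 then A else B

/-- the sequence `A, B, C` -/
def tri (A B C : Finset ℕ) (i : ℕ) : Finset ℕ := if i = 0 then A else if i = 1 then B else C

theorem incN_two {N : ℕ} {A B : Finset ℕ} (hA : A.Nonempty) (hB : B.Nonempty)
    (hA' : A ⊆ range N) (hB' : B ⊆ range N) (hAB : Lt A B) : IncN 2 N (two A B) := by
  constructor
  · intro i hi
    interval_cases i
    · exact ⟨hA, hA'⟩
    · exact ⟨hB, hB'⟩
  · intro i j hij hj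
    have h1 : i = 0 := by omega
    have h2 : j = 1 := by omega
    subst h1; subst h2
    exact hAB

theorem incN_tri {N : ℕ} {A B C : Finset ℕ} (hA : A.Nonempty) (hB : B.Nonempty) (hC : C.Nonempty)
    (hA' : A ⊆ range N) (hB' : B ⊆ range N) (hC' : C ⊆ range N) (hAB : Lt A B) (hBC : Lt B C) :
    IncN 3 N (tri A B C) := by
  have hAC : Lt A C := by
    intro a ha c hc
    obtain ⟨b, hb⟩ := hB
    exact (hAB a ha b hb).trans (hBC b hb c hc)
  constructor
  · intro i hi
    interval_cases i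
    · exact ⟨hA, hA'⟩
    · exact ⟨hB, hB'⟩
    · exact ⟨hC, hC'⟩
  · intro i j hij hj
    interval_cases j
    · omega
    · have h1 : i = 0 := by omega
      subst h1
      exact hAB
    · interval_cases i
      · exact hAC
      · exact hBC

/-- pairs `A < B` of nonempty subsets of `range N` -/
def Pr (N : ℕ) (A B : Finset ℕ) : Prop :=
  A.Nonempty ∧ B.Nonempty ∧ A ⊆ range N ∧ B ⊆ range N ∧ Lt A B

/-- triples `A < B < C` of nonempty subsets of `range N` -/
def Tr (N : ℕ) (A B C : Finset ℕ) : Prop := Pr N A B ∧ Pr N B C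

section small

variable {f : Finset ℕ → S} {k N N0 : ℕ} (h : Hom f k N) (hN : N0 + k ≤ N)

include h hN

theorem u1 (hk : 2 ≤ k) {A B A' B' : Finset ℕ} (p : Pr N0 A B) (p' : Pr N0 A' B') :
    f A = f B ↔ f A' = f B' := by
  have := hom_ext h hN hk (two A B) (two A' B') (incN_two p.1 p.2.1 p.2.2.1 p.2.2.2.1 p.2.2.2.2)
    (incN_two p'.1 p'.2.1 p'.2.2.1 p'.2.2.2.1 p'.2.2.2.2) {0} {1} (by simp) (by simp)
    (by decide) (by decide)
  simpa [two] using this

theorem u2 (hk : 2 ≤ k) {A B A' B' : Finset ℕ} (p : Pr N0 A B) (p' : Pr N0 A' B') :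
    f (A ∪ B) = f A ↔ f (A' ∪ B') = f A' := by
  have := hom_ext h hN hk (two A B) (two A' B') (incN_two p.1 p.2.1 p.2.2.1 p.2.2.2.1 p.2.2.2.2)
    (incN_two p'.1 p'.2.1 p'.2.2.1 p'.2.2.2.1 p'.2.2.2.2) {0, 1} {0} (by simp) (by simp)
    (by decide) (by decide)
  simpa [two, biUnion_insert] using this

theorem u3 (hk : 2 ≤ k) {A B A' B' : Finset ℕ} (p : Pr N0 A B) (p' : Pr N0 A' B') :
    f (A ∪ B) = f B ↔ f (A' ∪ B') = f B' := by
  have := hom_ext h hN hk (two A B) (two A' B') (incN_two p.1 p.2.1 p.2.2.1 p.2.2.2.1 p.2.2.2.2)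
    (incN_two p'.1 p'.2.1 p'.2.2.1 p'.2.2.2.1 p'.2.2.2.2) {0, 1} {1} (by simp) (by simp)
    (by decide) (by decide)
  simpa [two, biUnion_insert] using this

theorem u4 (hk : 3 ≤ k) {A B C A' B' C' : Finset ℕ} (p : Tr N0 A B C) (p' : Tr N0 A' B' C') :
    f (A ∪ (B ∪ C)) = f (A ∪ C) ↔ f (A' ∪ (B' ∪ C')) = f (A' ∪ C') := by
  obtain ⟨⟨a1, a2, a3, a4, a5⟩, ⟨-, b2, -, b4, b5⟩⟩ := p
  obtain ⟨⟨a1', a2', a3', a4', a5'⟩, ⟨-, b2', -, b4', b5'⟩⟩ := p'
  have := hom_ext h hN hk (tri A B C) (tri A' B' C') (incN_tri a1 a2 b2 a3 a4 b4 a5 b5)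
    (incN_tri a1' a2' b2' a3' a4' b4' a5' b5') {0, 1, 2} {0, 2} (by simp) (by simp)
    (by decide) (by decide)
  simpa [tri, biUnion_insert] using this

/-- Consequences of an equality `f I = f J` when `x ∈ I \ J`. -/
theorem key {m : ℕ} (hmk : m ≤ k) (hmN : 3 * m + 3 ≤ N0) {I J : Finset ℕ} (hI : I ⊆ range m)
    (hJ : J ⊆ range m) (hJn : J.Nonempty) {x : ℕ} (hx : x ∈ I) (hxJ : x ∉ J) (hf : f I = f J) :
    ∃ X Y B C : Finset ℕ, X ⊆ range N0 ∧ Y ⊆ range N0 ∧ Pr N0 B C ∧ Lt X B ∧ Lt C Y ∧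
      f (X ∪ (B ∪ Y)) = f (X ∪ (B ∪ (C ∪ Y))) ∧ f (X ∪ (C ∪ Y)) = f (X ∪ (B ∪ Y)) ∧
      ((∀ i ∈ I, x ≤ i) → X = ∅) ∧ ((∀ i ∈ I, i ≤ x) → Y = ∅) := by
  have hIn : I.Nonempty := ⟨x, hx⟩
  have hxm := mem_range.1 (hI hx)
  let G : ℕ → Finset ℕ := fun i => {i}
  let G1 : ℕ → Finset ℕ := fun i => {3 * i + 1}
  let G2 : ℕ → Finset ℕ := fun i => if i = x then {3 * x + 1, 3 * x + 2} else {3 * i + 1}
  let G3 : ℕ → Finset ℕ := fun i => if i = x then {3 * x + 2} else {3 * i + 1}
  have hG : IncN m N0 G := by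
    constructor
    · intro i hi
      refine ⟨singleton_nonempty _, ?_⟩
      rw [singleton_subset_iff, mem_range]
      omega
    · intro i j hij hj a ha b hb
      rw [mem_singleton] at ha hb
      omega
  have hG1 : IncN m N0 G1 := by
    constructor
    · intro i hi
      refine ⟨singleton_nonempty _, ?_⟩
      rw [singleton_subset_iff, mem_range]
      omega
    · intro i j hij hj a ha b hb
      rw [mem_singleton] at ha hb
      omega
  have m2 : ∀ i a, a ∈ G2 i → a = 3 * i + 1 ∨ a = 3 * i + 2 := by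
    intro i a ha
    by_cases hi : i = x
    · simp only [G2, if_pos hi, mem_insert, mem_singleton] at ha
      rw [hi]; exact ha
    · simp only [G2, if_neg hi, mem_singleton] at ha
      exact Or.inl ha
  have m3 : ∀ i a, a ∈ G3 i → a = 3 * i + 1 ∨ a = 3 * i + 2 := by
    intro i a ha
    by_cases hi : i = x
    · simp only [G3, if_pos hi, mem_singleton] at ha
      rw [hi]; exact Or.inr ha
    · simp only [G3, if_neg hi, mem_singleton] at ha
      exact Or.inl ha
  have hG2 : IncN m N0 G2 := by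
    constructor
    · intro i hi
      refine ⟨?_, ?_⟩
      · by_cases hi : i = x
        · simp only [G2, if_pos hi]; exact insert_nonempty _ _
        · simp only [G2, if_neg hi]; exact singleton_nonempty _
      · intro a ha
        rw [mem_range]
        rcases m2 i a ha with h | h <;> omega
    · intro i j hij hj a ha b hb
      rcases m2 i a ha with h | h <;> rcases m2 j b hb with h' | h' <;> omega
  have hG3 : IncN m N0 G3 := by
    constructor
    · intro i hi
      refine ⟨?_, ?_⟩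
      · by_cases hi : i = x
        · simp only [G3, if_pos hi]; exact singleton_nonempty _
        · simp only [G3, if_neg hi]; exact singleton_nonempty _
      · intro a ha
        rw [mem_range]
        rcases m3 i a ha with h | h <;> omega
    · intro i j hij hj a ha b hb
      rcases m3 i a ha with h | h <;> rcases m3 j b hb with h' | h' <;> omega
  have e0 : ∀ P : Finset ℕ, P.biUnion G = P := fun P => biUnion_singleton_eq_self
  have t1 := (hom_ext h hN hmk G G1 hG hG1 I J hIn hJn hI hJ).mp (by rw [e0, e0]; exact hf)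
  have t2 := (hom_ext h hN hmk G G2 hG hG2 I J hIn hJn hI hJ).mp (by rw [e0, e0]; exact hf)
  have t3 := (hom_ext h hN hmk G G3 hG hG3 I J hIn hJn hI hJ).mp (by rw [e0, e0]; exact hf)
  have j2 : J.biUnion G2 = J.biUnion G1 := by
    apply biUnion_congr rfl
    intro i hi
    have : i ≠ x := fun e => hxJ (e ▸ hi)
    simp only [G2, G1, if_neg this]
  have j3 : J.biUnion G3 = J.biUnion G1 := by
    apply biUnion_congr rfl
    intro i hi
    have : i ≠ x := fun e => hxJ (e ▸ hi)
    simp only [G3, G1, if_neg this]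
  set X : Finset ℕ := (I.filter (fun i => i < x)).biUnion G1 with hX
  set Y : Finset ℕ := (I.filter (fun i => x < i)).biUnion G1 with hY
  have i1 : I.biUnion G1 = X ∪ ({3 * x + 1} ∪ Y) := by
    ext a
    simp only [hX, hY, G1, mem_biUnion, mem_union, mem_filter, mem_singleton]
    constructor
    · rintro ⟨i, hi, rfl⟩
      rcases lt_trichotomy i x with h | h | h
      · exact Or.inl ⟨i, ⟨hi, h⟩, rfl⟩
      · subst h; exact Or.inr (Or.inl rfl)
      · exact Or.inr (Or.inr ⟨i, ⟨hi, h⟩, rfl⟩)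
    · rintro (⟨i, ⟨hi, -⟩, rfl⟩ | rfl | ⟨i, ⟨hi, -⟩, rfl⟩)
      · exact ⟨i, hi, rfl⟩
      · exact ⟨x, hx, rfl⟩
      · exact ⟨i, hi, rfl⟩
  have i2 : I.biUnion G2 = X ∪ ({3 * x + 1} ∪ ({3 * x + 2} ∪ Y)) := by
    ext a
    simp only [hX, hY, G1, mem_biUnion, mem_union, mem_filter, mem_singleton]
    constructor
    · rintro ⟨i, hi, ha⟩
      rcases lt_trichotomy i x with h | h | h
      · simp only [G2, if_neg h.ne, mem_singleton] at ha
        exact Or.inl ⟨i, ⟨hi, h⟩, ha⟩
      · simp only [G2, if_pos h, mem_insert, mem_singleton] at ha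
        rcases ha with ha | ha
        · exact Or.inr (Or.inl ha)
        · exact Or.inr (Or.inr (Or.inl ha))
      · simp only [G2, if_neg h.ne', mem_singleton] at ha
        exact Or.inr (Or.inr (Or.inr ⟨i, ⟨hi, h⟩, ha⟩))
    · rintro (⟨i, ⟨hi, h⟩, rfl⟩ | rfl | rfl | ⟨i, ⟨hi, h⟩, rfl⟩)
      · exact ⟨i, hi, by simp only [G2, if_neg h.ne, mem_singleton]⟩
      · exact ⟨x, hx, by simp [G2]⟩
      · exact ⟨x, hx, by simp [G2]⟩
      · exact ⟨i, hi, by simp only [G2, if_neg h.ne', mem_singleton]⟩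
  have i3 : I.biUnion G3 = X ∪ ({3 * x + 2} ∪ Y) := by
    ext a
    simp only [hX, hY, G1, mem_biUnion, mem_union, mem_filter, mem_singleton]
    constructor
    · rintro ⟨i, hi, ha⟩
      rcases lt_trichotomy i x with h | h | h
      · simp only [G3, if_neg h.ne, mem_singleton] at ha
        exact Or.inl ⟨i, ⟨hi, h⟩, ha⟩
      · simp only [G3, if_pos h, mem_singleton] at ha
        exact Or.inr (Or.inl ha)
      · simp only [G3, if_neg h.ne', mem_singleton] at ha
        exact Or.inr (Or.inr ⟨i, ⟨hi, h⟩, ha⟩)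
    · rintro (⟨i, ⟨hi, h⟩, rfl⟩ | rfl | ⟨i, ⟨hi, h⟩, rfl⟩)
      · exact ⟨i, hi, by simp only [G3, if_neg h.ne, mem_singleton]⟩
      · exact ⟨x, hx, by simp [G3]⟩
      · exact ⟨i, hi, by simp only [G3, if_neg h.ne', mem_singleton]⟩
  refine ⟨X, Y, {3 * x + 1}, {3 * x + 2}, ?_, ?_, ⟨singleton_nonempty _, singleton_nonempty _,
    ?_, ?_, ?_⟩, ?_, ?_, ?_, ?_, ?_, ?_⟩
  · intro a ha
    simp only [hX, G1, mem_biUnion, mem_filter, mem_singleton] at ha
    obtain ⟨i, ⟨hi, -⟩, rfl⟩ := ha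
    have := mem_range.1 (hI hi)
    rw [mem_range]; omega
  · intro a ha
    simp only [hY, G1, mem_biUnion, mem_filter, mem_singleton] at ha
    obtain ⟨i, ⟨hi, -⟩, rfl⟩ := ha
    have := mem_range.1 (hI hi)
    rw [mem_range]; omega
  · rw [singleton_subset_iff, mem_range]; omega
  · rw [singleton_subset_iff, mem_range]; omega
  · intro a ha b hb
    rw [mem_singleton] at ha hb
    omega
  · intro a ha b hb
    simp only [hX, G1, mem_biUnion, mem_filter, mem_singleton] at ha
    obtain ⟨i, ⟨hi, hix⟩, rfl⟩ := ha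
    rw [mem_singleton] at hb
    omega
  · intro a ha b hb
    simp only [hY, G1, mem_biUnion, mem_filter, mem_singleton] at hb
    obtain ⟨i, ⟨hi, hix⟩, rfl⟩ := hb
    rw [mem_singleton] at ha
    omega
  · rw [← i1, ← i2, t1, t2, j2]
  · rw [← i1, ← i3, t1, t3, j3]
  · intro hmin
    rw [hX, filter_false_of_mem, biUnion_empty]
    intro i hi
    have := hmin i hi
    omega
  · intro hmax
    rw [hY, filter_false_of_mem, biUnion_empty]
    intro i hi
    have := hmax i hi
    omega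

end small

end Pool.Agent.J4.H12.TC
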