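import Mathlib
import Pool.Agent.J4.H12.TaylorCanon

/-!
The canonical theorem of Taylor for finite unions, derived from a homogeneity property: the five
types.
-/

set_option autoImplicit false

namespace Pool.Agent.J4.H12.TC

open Finset

variable {S : Type}

/-- the five types -/
inductive Kind
  | const
  | least
  | greatest
  | both
  | whole

/-- the sets `I` and `J` agree with respect to the type -/
def Agree {α : Type} [LinearOrder α] (K : Kind) (I J : Finset α) : Prop :=
  match K with
  | Kind.const => True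
  | Kind.least => I.min = J.min
  | Kind.greatest => I.max = J.max
  | Kind.both => I.min = J.min ∧ I.max = J.max
  | Kind.whole => I = J

theorem min_eq_iff {α : Type} [LinearOrder α] {I J : Finset α} (hI : I.Nonempty)
    (hJ : J.Nonempty) : I.min = J.min ↔ I.min' hI = J.min' hJ := by
  rw [← coe_min' hI, ← coe_min' hJ, WithTop.coe_inj]

theorem max_eq_iff {α : Type} [LinearOrder α] {I J : Finset α} (hI : I.Nonempty)
    (hJ : J.Nonempty) : I.max = J.max ↔ I.max' hI = J.max' hJ := by
  rw [← coe_max' hI, ← coe_max' hJ, WithBot.coe_inj]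

theorem lt_union_left {A B C : Finset ℕ} (h1 : Lt A C) (h2 : Lt B C) : Lt (A ∪ B) C := by
  intro a ha c hc
  rcases mem_union.1 ha with h | h
  · exact h1 a h c hc
  · exact h2 a h c hc

theorem lt_union_right {A B C : Finset ℕ} (h1 : Lt A B) (h2 : Lt A C) : Lt A (B ∪ C) := by
  intro a ha c hc
  rcases mem_union.1 hc with h | h
  · exact h1 a ha c h
  · exact h2 a ha c h

theorem lt_trans' {A B C : Finset ℕ} (hB : B.Nonempty) (h1 : Lt A B) (h2 : Lt B C) : Lt A C := by
  obtain ⟨b, hb⟩ := hB
  intro a ha c hc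
  exact (h1 a ha b hb).trans (h2 b hb c hc)

theorem canonical {f : Finset ℕ → S} {k N N0 m : ℕ} (h : Hom f k N) (hN : N0 + k ≤ N)
    (hk : 3 ≤ k) (hmk : m ≤ k) (hmN : 3 * m + 3 ≤ N0) :
    ∃ K : Kind, ∀ I J : Finset ℕ, I ⊆ range m → J ⊆ range m → I.Nonempty → J.Nonempty →
      (f I = f J ↔ Agree K I J) := by
  have hk2 : 2 ≤ k := by omega
  have hsub : range m ⊆ range N0 := range_subset_range.2 (by omega)
  by_cases c1 : ∃ A B, Pr N0 A B ∧ f A = f B
  · obtain ⟨A, B, hAB, hf⟩ := c1
    refine ⟨Kind.const, fun I J hI hJ hIn hJn => ?_⟩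
    have hm : ∀ I : Finset ℕ, I ⊆ range m → I.Nonempty → f I = f {m} := by
      intro I hI hIn
      refine (u1 h hN hk2 hAB ⟨hIn, singleton_nonempty _, hI.trans hsub, ?_, ?_⟩).mp hf
      · rw [singleton_subset_iff, mem_range]; omega
      · intro a ha b hb
        rw [mem_singleton] at hb
        rw [hb]
        exact mem_range.1 (hI ha)
    simp only [Agree, iff_true]
    rw [hm I hI hIn, hm J hJ hJn]
  have n1 : ∀ A B, Pr N0 A B → f A ≠ f B := fun A B hAB hf => c1 ⟨A, B, hAB, hf⟩
  have sing : ∀ a b, a < b → b < N0 → f {a} ≠ f {b} := by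
    intro a b hab hb
    refine n1 _ _ ⟨singleton_nonempty _, singleton_nonempty _, ?_, ?_, ?_⟩
    · rw [singleton_subset_iff, mem_range]; omega
    · rw [singleton_subset_iff, mem_range]; omega
    · intro x hx y hy
      rw [mem_singleton] at hx hy
      omega
  have sing' : ∀ a b, a < N0 → b < N0 → (f {a} = f {b} ↔ a = b) := by
    intro a b ha hb
    constructor
    · intro hf
      rcases lt_trichotomy a b with h1 | h1 | h1
      · exact absurd hf (sing a b h1 hb)
      · exact h1
      · exact absurd hf.symm (sing b a h1 ha)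
    · rintro rfl
      rfl
  have bd : ∀ I : Finset ℕ, I ⊆ range m → ∀ x ∈ I, x < N0 := fun I hI x hx =>
    mem_range.1 (hsub (hI hx))
  by_cases c2 : ∃ A B, Pr N0 A B ∧ f (A ∪ B) = f A
  · obtain ⟨A, B, hAB, hf⟩ := c2
    refine ⟨Kind.least, fun I J hI hJ hIn hJn => ?_⟩
    have hm : ∀ (I : Finset ℕ) (_ : I ⊆ range m) (hIn : I.Nonempty), f I = f {I.min' hIn} := by
      intro I hI hIn
      by_cases he : (I.erase (I.min' hIn)).Nonempty
      · have := (u2 h hN hk2 hAB (A' := {I.min' hIn}) (B' := I.erase (I.min' hIn))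
          ⟨singleton_nonempty _, he, ?_, ?_, ?_⟩).mp hf
        · rwa [← insert_eq, insert_erase (min'_mem _ _)] at this
        · rw [singleton_subset_iff]; exact hsub (hI (min'_mem _ _))
        · exact (erase_subset _ _).trans (hI.trans hsub)
        · intro x hx y hy
          rw [mem_singleton] at hx
          rw [hx]
          exact lt_of_le_of_ne (min'_le _ _ (mem_of_mem_erase hy)) (ne_of_mem_erase hy).symm
      · rw [not_nonempty_iff_eq_empty] at he
        have : I = {I.min' hIn} := by
          conv_lhs => rw [← insert_erase (min'_mem I hIn), he]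
          rfl
        rw [← this]
    simp only [Agree]
    rw [min_eq_iff hIn hJn, hm I hI hIn, hm J hJ hJn]
    exact sing' _ _ (bd I hI _ (min'_mem _ _)) (bd J hJ _ (min'_mem _ _))
  have n2 : ∀ A B, Pr N0 A B → f (A ∪ B) ≠ f A := fun A B hAB hf => c2 ⟨A, B, hAB, hf⟩
  by_cases c3 : ∃ A B, Pr N0 A B ∧ f (A ∪ B) = f B
  · obtain ⟨A, B, hAB, hf⟩ := c3
    refine ⟨Kind.greatest, fun I J hI hJ hIn hJn => ?_⟩
    have hm : ∀ (I : Finset ℕ) (_ : I ⊆ range m) (hIn : I.Nonempty), f I = f {I.max' hIn} := by
      intro I hI hIn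
      by_cases he : (I.erase (I.max' hIn)).Nonempty
      · have := (u3 h hN hk2 hAB (A' := I.erase (I.max' hIn)) (B' := {I.max' hIn})
          ⟨he, singleton_nonempty _, ?_, ?_, ?_⟩).mp hf
        · rwa [union_comm, ← insert_eq, insert_erase (max'_mem _ _)] at this
        · exact (erase_subset _ _).trans (hI.trans hsub)
        · rw [singleton_subset_iff]; exact hsub (hI (max'_mem _ _))
        · intro x hx y hy
          rw [mem_singleton] at hy
          rw [hy]
          exact lt_of_le_of_ne (le_max' _ _ (mem_of_mem_erase hx)) (ne_of_mem_erase hx)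
      · rw [not_nonempty_iff_eq_empty] at he
        have : I = {I.max' hIn} := by
          conv_lhs => rw [← insert_erase (max'_mem I hIn), he]
          rfl
        rw [← this]
    simp only [Agree]
    rw [max_eq_iff hIn hJn, hm I hI hIn, hm J hJ hJn]
    exact sing' _ _ (bd I hI _ (max'_mem _ _)) (bd J hJ _ (max'_mem _ _))
  have n3 : ∀ A B, Pr N0 A B → f (A ∪ B) ≠ f B := fun A B hAB hf => c3 ⟨A, B, hAB, hf⟩
  -- the interior lemma
  have interior : ∀ I J : Finset ℕ, I ⊆ range m → J ⊆ range m → J.Nonempty → f I = f J →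
      ∀ x ∈ I, x ∉ J → (¬ ∀ i ∈ I, x ≤ i) ∧ (¬ ∀ i ∈ I, i ≤ x) ∧
        ∃ A B C, Tr N0 A B C ∧ f (A ∪ (B ∪ C)) = f (A ∪ C) := by
    intro I J hI hJ hJn hf x hx hxJ
    obtain ⟨X, Y, B, C, hX, hY, ⟨hB, hC, hB', hC', hBC⟩, hXB, hCY, e1, e2, hX0, hY0⟩ :=
      key h hN hmk hmN hI hJ hJn hx hxJ hf
    have hXn : X.Nonempty := by
      rw [nonempty_iff_ne_empty]
      rintro rfl
      simp only [empty_union] at e1 e2
      by_cases hYe : Y = ∅
      · subst hYe
        simp only [union_empty] at e1
        exact n2 B C ⟨hB, hC, hB', hC', hBC⟩ e1.symm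
      · have hYn := nonempty_iff_ne_empty.2 hYe
        exact n3 B (C ∪ Y) ⟨hB, hC.mono subset_union_left, hB', union_subset hC' hY,
          lt_union_right hBC (lt_trans' hC hBC hCY)⟩ (e1.symm.trans e2.symm)
    have hYn : Y.Nonempty := by
      rw [nonempty_iff_ne_empty]
      rintro rfl
      simp only [union_empty] at e1 e2
      rw [← union_assoc] at e1
      exact n2 (X ∪ B) C ⟨hB.mono subset_union_right, hC, union_subset hX hB', hC',
        lt_union_left (lt_trans' hB hXB hBC) hBC⟩ e1.symm
    refine ⟨fun hh => hXn.ne_empty (hX0 hh), fun hh => hYn.ne_empty (hY0 hh), X ∪ B, C, Y,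
      ⟨⟨hB.mono subset_union_right, hC, union_subset hX hB', hC',
        lt_union_left (lt_trans' hB hXB hBC) hBC⟩, ⟨hC, hYn, hC', hY, hCY⟩⟩, ?_⟩
    rw [union_assoc, union_assoc]
    exact e1.symm
  have hmin : ∀ I J : Finset ℕ, I ⊆ range m → J ⊆ range m → ∀ (hIn : I.Nonempty)
      (hJn : J.Nonempty), f I = f J → J.min' hJn ≤ I.min' hIn := by
    intro I J hI hJ hIn hJn hf
    by_contra hlt
    push Not at hlt
    have hnot : I.min' hIn ∉ J := fun hh => absurd (min'_le J _ hh) (not_le.2 hlt)
    exact (interior I J hI hJ hJn hf _ (min'_mem _ _) hnot).1 (fun i hi => min'_le _ _ hi)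
  have hmax : ∀ I J : Finset ℕ, I ⊆ range m → J ⊆ range m → ∀ (hIn : I.Nonempty)
      (hJn : J.Nonempty), f I = f J → I.max' hIn ≤ J.max' hJn := by
    intro I J hI hJ hIn hJn hf
    by_contra hlt
    push Not at hlt
    have hnot : I.max' hIn ∉ J := fun hh => absurd (le_max' J _ hh) (not_le.2 hlt)
    exact (interior I J hI hJ hJn hf _ (max'_mem _ _) hnot).2.1 (fun i hi => le_max' _ _ hi)
  by_cases c4 : ∃ A B C, Tr N0 A B C ∧ f (A ∪ (B ∪ C)) = f (A ∪ C)
  · obtain ⟨A, B, C, hABC, hf4⟩ := c4
    refine ⟨Kind.both, fun I J hI hJ hIn hJn => ?_⟩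
    simp only [Agree]
    rw [min_eq_iff hIn hJn, max_eq_iff hIn hJn]
    constructor
    · intro hf
      exact ⟨le_antisymm (hmin J I hJ hI hJn hIn hf.symm) (hmin I J hI hJ hIn hJn hf),
        le_antisymm (hmax I J hI hJ hIn hJn hf) (hmax J I hJ hI hJn hIn hf.symm)⟩
    · have hm : ∀ (I : Finset ℕ) (_ : I ⊆ range m) (hIn : I.Nonempty),
          f I = f ({I.min' hIn} ∪ {I.max' hIn}) := by
        intro I hI hIn
        by_cases he : ((I.erase (I.min' hIn)).erase (I.max' hIn)).Nonempty
        · obtain ⟨y, hy⟩ := he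
          have hy1 := mem_erase.1 hy
          have hy2 := mem_erase.1 hy1.2
          have hlt : I.min' hIn < I.max' hIn :=
            lt_of_lt_of_le (lt_of_le_of_ne (min'_le _ _ hy2.2) hy2.1.symm) (le_max' _ _ hy2.2)
          have := (u4 h hN hk hABC (A' := {I.min' hIn})
            (B' := (I.erase (I.min' hIn)).erase (I.max' hIn)) (C' := {I.max' hIn})
            ⟨⟨singleton_nonempty _, ⟨y, hy⟩, ?_, ?_, ?_⟩,
              ⟨⟨y, hy⟩, singleton_nonempty _, ?_, ?_, ?_⟩⟩).mp hf4
          · rw [← this]
            congr 1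
            rw [union_comm _ {I.max' hIn}, ← insert_eq (I.max' hIn),
              insert_erase (mem_erase.2 ⟨hlt.ne', max'_mem _ _⟩), ← insert_eq,
              insert_erase (min'_mem _ _)]
          · rw [singleton_subset_iff]; exact hsub (hI (min'_mem _ _))
          · exact (erase_subset _ _).trans ((erase_subset _ _).trans (hI.trans hsub))
          · intro a ha b hb
            rw [mem_singleton] at ha
            rw [ha]
            have hb2 := mem_erase.1 (mem_erase.1 hb).2
            exact lt_of_le_of_ne (min'_le _ _ hb2.2) hb2.1.symm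
          · exact (erase_subset _ _).trans ((erase_subset _ _).trans (hI.trans hsub))
          · rw [singleton_subset_iff]; exact hsub (hI (max'_mem _ _))
          · intro a ha b hb
            rw [mem_singleton] at hb
            rw [hb]
            have ha2 := mem_erase.1 ha
            exact lt_of_le_of_ne (le_max' _ _ (mem_erase.1 ha2.2).2) ha2.1
        · rw [not_nonempty_iff_eq_empty] at he
          congr 1
          ext y
          rw [mem_union, mem_singleton, mem_singleton]
          constructor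
          · intro hy
            by_contra hne
            push Not at hne
            have : y ∈ (I.erase (I.min' hIn)).erase (I.max' hIn) :=
              mem_erase.2 ⟨hne.2, mem_erase.2 ⟨hne.1, hy⟩⟩
            rw [he] at this
            exact notMem_empty _ this
          · rintro (rfl | rfl)
            · exact min'_mem _ _
            · exact max'_mem _ _
      rintro ⟨e1, e2⟩
      rw [hm I hI hIn, hm J hJ hJn, e1, e2]
  · refine ⟨Kind.whole, fun I J hI hJ hIn hJn => ?_⟩
    simp only [Agree]
    constructor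
    · intro hf
      by_contra hne
      have : ¬ (I ⊆ J ∧ J ⊆ I) := fun hh => hne (Subset.antisymm hh.1 hh.2)
      rw [not_and_or, not_subset, not_subset] at this
      rcases this with ⟨x, hx, hxJ⟩ | ⟨x, hx, hxJ⟩
      · exact c4 (interior I J hI hJ hJn hf x hx hxJ).2.2
      · exact c4 (interior J I hJ hI hIn hf.symm x hx hxJ).2.2
    · rintro rfl
      rfl

end Pool.Agent.J4.H12.TC
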