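import Mathlib
import Pool.Agent.Y898.MTC
import Pool.Agent.J4.H12.TaylorCanon2

/-!
The canonical theorem of Taylor for the sums of consecutive gaps between primes after a record gap.
-/

set_option autoImplicit false

namespace Pool.Agent.J4.H12.TC

open Finset
open Pool.Agent.H256R2.SC (ff)

deriving instance DecidableEq for Kind

instance : Fintype Kind :=
  ⟨{Kind.const, Kind.least, Kind.greatest, Kind.both, Kind.whole}, fun K => by cases K <;> decide⟩

theorem card_kind : Fintype.card Kind = 5 := rfl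

/-- the colour of a tuple of integers: the equalities between the values at the partial sums -/
noncomputable def code {S : Type} {L k : ℕ} (χ : Fin L → ℤ → S) (s : Fin k → ℤ) :
    Finset (Fin L × Finset (Fin k) × Finset (Fin k)) := by
  classical
  exact univ.filter (fun t => χ t.1 (∑ l ∈ t.2.1, s l) = χ t.1 (∑ l ∈ t.2.2, s l))

theorem code_eq {S : Type} {L k : ℕ} (χ : Fin L → ℤ → S) (s s' : Fin k → ℤ)
    (h : code χ s = code χ s') (j : Fin L) (P Q : Finset (Fin k)) :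
    (χ j (∑ l ∈ P, s l) = χ j (∑ l ∈ Q, s l) ↔ χ j (∑ l ∈ P, s' l) = χ j (∑ l ∈ Q, s' l)) := by
  classical
  have := Finset.ext_iff.1 h (j, P, Q)
  simpa [code] using this

theorem sum_aux {k N : ℕ} (g : ℕ → ℤ) (F : Fin k → Finset ℕ) (hF : Inc N F) (P : Finset (Fin k)) :
    ∑ l ∈ P, ∑ i ∈ univ.filter (fun i : Fin N => (i : ℕ) ∈ F l), g i =
      ∑ x ∈ P.biUnion F, g x := by
  classical
  rw [sum_biUnion]
  · apply sum_congr rfl
    intro l _
    symm
    have h1 := (hF.1 l).2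
    refine sum_bij' (fun x hx => (⟨x, mem_range.1 (h1 hx)⟩ : Fin N)) (fun i _ => (i : ℕ))
      ?_ ?_ ?_ ?_ ?_
    · intro x hx
      exact mem_filter.2 ⟨mem_univ _, hx⟩
    · intro i hi
      exact (mem_filter.1 hi).2
    · intro x hx
      rfl
    · intro i hi
      rfl
    · intro x hx
      rfl
  · intro a _ b _ hab
    rw [Function.onFun, Finset.disjoint_left]
    intro z hz hz'
    rcases lt_or_gt_of_ne hab with hlt | hlt
    · exact absurd (hF.2 a b hlt z hz z hz') (lt_irrefl _)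
    · exact absurd (hF.2 b a hlt z hz' z hz) (lt_irrefl _)

theorem hom_of_code {S : Type} {L k N : ℕ} (χ : Fin L → ℤ → S) (g : ℕ → ℤ)
    {col : Finset (Fin L × Finset (Fin k) × Finset (Fin k))}
    (h : ∀ I : Fin k → Finset (Fin N), (∀ l, (I l).Nonempty) →
      (∀ l l', l < l' → ∀ i ∈ I l, ∀ j ∈ I l', i < j) →
      code χ (fun l => ∑ i ∈ I l, g i) = col) (j : Fin L) :
    Hom (fun I : Finset ℕ => χ j (∑ i ∈ I, g i)) k N := by
  classical
  intro F F' hF hF' P Q _ _
  have key : ∀ F : Fin k → Finset ℕ, Inc N F →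
      code χ (fun l => ∑ i ∈ univ.filter (fun i : Fin N => (i : ℕ) ∈ F l), g i) = col := by
    intro F hF
    apply h
    · intro l
      obtain ⟨x, hx⟩ := (hF.1 l).1
      exact ⟨⟨x, mem_range.1 ((hF.1 l).2 hx)⟩, by simp [hx]⟩
    · intro l l' hll i hi i' hi'
      exact hF.2 l l' hll i (mem_filter.1 hi).2 i' (mem_filter.1 hi').2
  have := code_eq χ _ _ ((key F hF).trans (key F' hF').symm) j P Q
  rw [sum_aux g F hF, sum_aux g F hF, sum_aux g F' hF', sum_aux g F' hF'] at this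
  exact this

/-- The gap after the prime with index `i`. -/
noncomputable def gap (i : ℕ) : ℤ := (Nat.nth Nat.Prime (i + 1) : ℤ) - Nat.nth Nat.Prime i

/-- the indices of the clusters with the canonical types `K` -/
def Good {S : Type} {L : ℕ} (c C x H : ℝ) (m : ℕ) (χ : Fin L → ℤ → S) (K : Fin L → Kind) : Set ℕ :=
  {n : ℕ | 0 < n ∧ (Nat.nth Nat.Prime (n + m) : ℝ) ≤ x ∧ c * ff x ≤ (gap (n - 1) : ℝ) ∧
    (∀ i < m, H ≤ (gap (n + i) : ℝ) ∧ (gap (n + i) : ℝ) ≤ C * H) ∧
    ∀ j, ∀ I J : Finset ℕ, I ⊆ range m → J ⊆ range m → I.Nonempty → J.Nonempty →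
      (χ j (∑ i ∈ I, gap (n + i)) = χ j (∑ i ∈ J, gap (n + i)) ↔ Agree (K j) I J)}

theorem good_finite {S : Type} {L : ℕ} (c C x H : ℝ) (m : ℕ) (χ : Fin L → ℤ → S)
    (K : Fin L → Kind) : (Good c C x H m χ K).Finite := by
  refine (Set.finite_Iic ⌊x⌋₊).subset ?_
  rintro n ⟨-, h1, -⟩
  refine Nat.le_floor (le_trans ?_ h1)
  have h2 : n + m ≤ Nat.nth Nat.Prime (n + m) :=
    (Nat.nth_strictMono Nat.infinite_setOfPred_prime).le_apply
  exact_mod_cast (Nat.le_add_right n m).trans h2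

theorem main (m L : ℕ) : ∃ c C : ℝ, 0 < c ∧ 0 < C ∧ ∃ x₀ : ℝ, ∀ x : ℝ, x₀ ≤ x →
    ∀ H : ℝ, 1 ≤ H → H ≤ c * ff x → ∀ (S : Type) (χ : Fin L → ℤ → S), ∃ K : Fin L → Kind,
      x ^ (7 / 8 : ℝ) ≤ 5 ^ L * ((Good c C x H m χ K).ncard : ℝ) := by
  classical
  obtain ⟨k, hk⟩ : ∃ k, k = m + 3 := ⟨_, rfl⟩
  obtain ⟨N, hN⟩ : ∃ N, N = (3 * m + 3) + k := ⟨_, rfl⟩
  obtain ⟨ρ, hρ⟩ : ∃ ρ, ρ = Fintype.card (Finset (Fin L × Finset (Fin k) × Finset (Fin k))) :=
    ⟨_, rfl⟩
  obtain ⟨c, C, hc, hC, h⟩ := Pool.Agent.Y898.MTC.mt_gaps k N ρ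
  obtain ⟨x₀, hx₀⟩ := Filter.eventually_atTop.1 h
  refine ⟨c, C, hc, hC, x₀, fun x hx H hH hHc S χ => ?_⟩
  let e : Finset (Fin L × Finset (Fin k) × Finset (Fin k)) ≃ Fin ρ :=
    (Fintype.equivFin _).trans (finCongr hρ.symm)
  have h1 := hx₀ x hx H hH hHc (fun s => e (code χ s))
  have hcov : Pool.Agent.Y898.PolyGaps.Cl c C x H N (fun v => ∃ col,
      ∀ I : Fin k → Finset (Fin N), (∀ l, (I l).Nonempty) →
        (∀ l l', l < l' → ∀ i ∈ I l, ∀ j ∈ I l', i < j) →
        e (code χ (fun l => ∑ i ∈ I l, v i)) = col) ⊆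
      ⋃ K ∈ (univ : Finset (Fin L → Kind)), Good c C x H m χ K := by
    rintro n ⟨hn0, hnx, hgap, hi, col, hcol⟩
    have hmN : m ≤ N := by omega
    have hcan : ∀ j, ∃ K : Kind, ∀ I J : Finset ℕ, I ⊆ range m → J ⊆ range m → I.Nonempty →
        J.Nonempty → (χ j (∑ i ∈ I, gap (n + i)) = χ j (∑ i ∈ J, gap (n + i)) ↔ Agree K I J) := by
      intro j
      have hh : Hom (fun I : Finset ℕ => χ j (∑ i ∈ I, gap (n + i))) k N := by
        apply hom_of_code χ (fun i => gap (n + i)) (col := e.symm col)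
        intro I hI hII
        rw [Equiv.eq_symm_apply]
        exact hcol I hI hII
      exact canonical (N0 := 3 * m + 3) (m := m) hh (by omega) (by omega) (by omega) (by omega)
    choose K hK using hcan
    refine Set.mem_biUnion (mem_univ K) ?_
    refine ⟨hn0, ?_, ?_, ?_, hK⟩
    · refine le_trans ?_ hnx
      have := (Nat.nth_strictMono Nat.infinite_setOfPred_prime).monotone
        (show n + m ≤ n + N by omega)
      exact_mod_cast this
    · unfold gap
      rw [Nat.sub_add_cancel hn0]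
      push_cast
      exact hgap
    · intro i him
      have := hi i (by omega)
      unfold gap
      push_cast
      exact this
  have hfin : (⋃ K ∈ (univ : Finset (Fin L → Kind)), Good c C x H m χ K).Finite := by
    refine Set.Finite.biUnion (Finset.finite_toSet _) ?_
    intro K _
    exact good_finite c C x H m χ K
  have h2 : ((⋃ K ∈ (univ : Finset (Fin L → Kind)), Good c C x H m χ K).ncard : ℝ) ≤
      ∑ K : Fin L → Kind, ((Good c C x H m χ K).ncard : ℝ) := by
    have := Finset.set_ncard_biUnion_le (univ : Finset (Fin L → Kind))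
      (fun K => Good c C x H m χ K)
    exact_mod_cast this
  have h3 : x ^ (7 / 8 : ℝ) ≤ ∑ K : Fin L → Kind, ((Good c C x H m χ K).ncard : ℝ) := by
    refine (h1.trans ?_).trans h2
    exact_mod_cast Set.ncard_le_ncard hcov hfin
  by_contra hcon
  push Not at hcon
  have h4 : ∑ K : Fin L → Kind, ((Good c C x H m χ K).ncard : ℝ) <
      ∑ K : Fin L → Kind, x ^ (7 / 8 : ℝ) / 5 ^ L := by
    apply sum_lt_sum_of_nonempty
    · exact ⟨fun _ => Kind.const, mem_univ _⟩
    · intro K _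
      rw [lt_div_iff₀ (by positivity), mul_comm]
      exact hcon K
  have h5 : ∑ K : Fin L → Kind, x ^ (7 / 8 : ℝ) / 5 ^ L = x ^ (7 / 8 : ℝ) := by
    rw [sum_const, card_univ, Fintype.card_fun, card_kind, Fintype.card_fin, nsmul_eq_mul]
    push_cast
    field_simp
  linarith

end Pool.Agent.J4.H12.TC
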